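import Pool.Agent.TH579.ECInst

/-! Levels; the counterexamples of residue type with controlled density. -/

set_option autoImplicit false

namespace Pool.Agent.TH579.EC
open Finset
open Pool.Agent.Results.MP_ea54b6_co.Mod6 (PHolds choose_two_succ choose_two_mono)

/-- one level avoided by residues -/
theorem lev1_direct {w R n δ m a v : ℕ} (hm : m + δ = n.choose 2 + 1) (hδ : 3 ≤ δ) (hδn : δ + 3 ≤ n)
    (hv : v % w = 0 ∨ v % w = R % w) (h0 : δ % w ≠ 0) (h0' : δ % w ≠ R % w)
    (hb : n ≤ a → v ≤ 2 * a) (hc : n ≤ a → a ≤ n + 1 → v < a + δ) : m + v ≠ (a + 1).choose 2 + 1 := by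
  intro h
  obtain ⟨p, rfl⟩ : ∃ p, n = p + 1 := ⟨n - 1, by omega⟩
  have e0 : (p + 1).choose 2 = p.choose 2 + p := choose_two_succ p
  have ea := choose_two_succ a
  rcases lt_trichotomy a p with h1 | h1 | h1
  · have := choose_two_mono (show a + 1 ≤ p by omega)
    omega
  · subst h1
    have : v = δ := by omega
    subst this
    rcases hv with hv | hv
    · exact h0 hv
    · exact h0' hv
  · rcases Nat.lt_or_ge a (p + 2) with h2 | h2
    · have : a = p + 1 := by omega
      subst this
      have := hc (le_refl _) (by omega)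
      omega
    · obtain ⟨b, rfl⟩ : ∃ b, a = b + 1 := ⟨a - 1, by omega⟩
      have eb := choose_two_succ b
      have := choose_two_mono (show p + 1 ≤ b by omega)
      have := hb (by omega)
      omega

theorem lev1_hub {w R n δ m a v : ℕ} (hm : m + δ = n.choose 2 + 1) (hδ : 3 ≤ δ) (hδn : δ + 3 ≤ n)
    (hv : v % w = 0 ∨ v % w = R % w) (h0 : (δ + 1) % w ≠ 0) (h0' : (δ + 1) % w ≠ R % w)
    (hb : n ≤ a → v ≤ 2 * a) (hc : n ≤ a → a ≤ n + 1 → v < a + δ) :
    m + v ≠ (a + 1).choose 2 + 2 ∧ m + v ≠ a.choose 2 + 2 := by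
  obtain ⟨p, rfl⟩ : ∃ p, n = p + 1 := ⟨n - 1, by omega⟩
  have e0 : (p + 1).choose 2 = p.choose 2 + p := choose_two_succ p
  have ea := choose_two_succ a
  constructor
  · intro h
    rcases lt_trichotomy a p with h1 | h1 | h1
    · have := choose_two_mono (show a + 1 ≤ p by omega)
      omega
    · subst h1
      have : v = δ + 1 := by omega
      rw [this] at hv
      rcases hv with hv | hv
      · exact h0 hv
      · exact h0' hv
    · rcases Nat.lt_or_ge a (p + 2) with h2 | h2
      · have : a = p + 1 := by omega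
        subst this
        have := hc (le_refl _) (by omega)
        omega
      · obtain ⟨b, rfl⟩ : ∃ b, a = b + 1 := ⟨a - 1, by omega⟩
        have eb := choose_two_succ b
        have := choose_two_mono (show p + 1 ≤ b by omega)
        have := hb (by omega)
        omega
  · intro h
    rcases lt_trichotomy a (p + 1) with h1 | h1 | h1
    · have := choose_two_mono (show a ≤ p by omega)
      omega
    · subst h1
      have : v = δ + 1 := by omega
      rw [this] at hv
      rcases hv with hv | hv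
      · exact h0 hv
      · exact h0' hv
    · obtain ⟨b, rfl⟩ : ∃ b, a = b + 1 := ⟨a - 1, by omega⟩
      have eb := choose_two_succ b
      rcases Nat.lt_or_ge b (p + 2) with h2 | h2
      · have : b = p + 1 := by omega
        subst this
        have := hc (by omega) (by omega)
        omega
      · obtain ⟨d, rfl⟩ : ∃ d, b = d + 1 := ⟨b - 1, by omega⟩
        have ed := choose_two_succ d
        have := choose_two_mono (show p + 1 ≤ d by omega)
        have := hb (by omega)
        omega

/-- two levels avoided by residues -/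
theorem lev2_direct {w R n δ m a v : ℕ} (hm : m + δ = n.choose 2 + 1) (hδ : 6 ≤ δ) (hδn : δ + 3 ≤ n)
    (hv : v % w = 0 ∨ v % w = R % w) (h0 : δ % w ≠ 0) (h0' : δ % w ≠ R % w)
    (h1 : (δ + n) % w ≠ 0) (h1' : (δ + n) % w ≠ R % w)
    (hb : n ≤ a → v ≤ 3 * a) (hc : n ≤ a → a ≤ n + 2 → v + 2 < 2 * a + δ) : m + v ≠ (a + 1).choose 2 + 1 := by
  intro h
  obtain ⟨p, rfl⟩ : ∃ p, n = p + 1 := ⟨n - 1, by omega⟩
  have e0 : (p + 1).choose 2 = p.choose 2 + p := choose_two_succ p
  have ea := choose_two_succ a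
  rcases lt_trichotomy a p with h2 | h2 | h2
  · have := choose_two_mono (show a + 1 ≤ p by omega)
    omega
  · subst h2
    have : v = δ := by omega
    subst this
    rcases hv with hv | hv
    · exact h0 hv
    · exact h0' hv
  · obtain ⟨b, rfl⟩ : ∃ b, a = b + 1 := ⟨a - 1, by omega⟩
    have eb := choose_two_succ b
    rcases lt_trichotomy b (p + 1) with h3 | h3 | h3
    · have : b = p := by omega
      subst this
      have : v = δ + (b + 1) := by omega
      rw [this] at hv
      rcases hv with hv | hv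
      · exact h1 hv
      · exact h1' hv
    · subst h3
      have := hc (by omega) (by omega)
      omega
    · obtain ⟨d, rfl⟩ : ∃ d, b = d + 1 := ⟨b - 1, by omega⟩
      have ed := choose_two_succ d
      have := choose_two_mono (show p + 1 ≤ d by omega)
      have := hb (by omega)
      omega

theorem lev2_hub {w R n δ m a v : ℕ} (hm : m + δ = n.choose 2 + 1) (hδ : 6 ≤ δ) (hδn : δ + 3 ≤ n)
    (hv : v % w = 0 ∨ v % w = R % w) (h0 : (δ + 1) % w ≠ 0) (h0' : (δ + 1) % w ≠ R % w)
    (h1 : (δ + n + 1) % w ≠ 0) (h1' : (δ + n + 1) % w ≠ R % w)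
    (hb : n ≤ a → v ≤ 3 * a) (hc : n ≤ a → a ≤ n + 2 → v + 2 < 2 * a + δ) :
    m + v ≠ (a + 1).choose 2 + 2 ∧ m + v ≠ a.choose 2 + 2 := by
  obtain ⟨p, rfl⟩ : ∃ p, n = p + 1 := ⟨n - 1, by omega⟩
  have e0 : (p + 1).choose 2 = p.choose 2 + p := choose_two_succ p
  have ea := choose_two_succ a
  constructor
  · intro h
    rcases lt_trichotomy a p with h2 | h2 | h2
    · have := choose_two_mono (show a + 1 ≤ p by omega)
      omega
    · subst h2
      have : v = δ + 1 := by omega
      rw [this] at hv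
      rcases hv with hv | hv
      · exact h0 hv
      · exact h0' hv
    · obtain ⟨b, rfl⟩ : ∃ b, a = b + 1 := ⟨a - 1, by omega⟩
      have eb := choose_two_succ b
      rcases lt_trichotomy b (p + 1) with h3 | h3 | h3
      · have : b = p := by omega
        subst this
        have : v = δ + (b + 1) + 1 := by omega
        rw [this] at hv
        rcases hv with hv | hv
        · exact h1 hv
        · exact h1' hv
      · subst h3
        have := hc (by omega) (by omega)
        omega
      · obtain ⟨d, rfl⟩ : ∃ d, b = d + 1 := ⟨b - 1, by omega⟩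
        have ed := choose_two_succ d
        have := choose_two_mono (show p + 1 ≤ d by omega)
        have := hb (by omega)
        omega
  · intro h
    rcases lt_trichotomy a (p + 1) with h2 | h2 | h2
    · have := choose_two_mono (show a ≤ p by omega)
      omega
    · subst h2
      have : v = δ + 1 := by omega
      rw [this] at hv
      rcases hv with hv | hv
      · exact h0 hv
      · exact h0' hv
    · obtain ⟨b, rfl⟩ : ∃ b, a = b + 1 := ⟨a - 1, by omega⟩
      have eb := choose_two_succ b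
      rcases lt_trichotomy b (p + 2) with h3 | h3 | h3
      · have : b = p + 1 := by omega
        subst this
        have : v = δ + (p + 1) + 1 := by omega
        rw [this] at hv
        rcases hv with hv | hv
        · exact h1 hv
        · exact h1' hv
      · subst h3
        have e2 : (p + 2).choose 2 = (p + 1).choose 2 + (p + 1) := choose_two_succ (p + 1)
        have := hc (by omega) (by omega)
        omega
      · obtain ⟨d, rfl⟩ : ∃ d, b = d + 1 := ⟨b - 1, by omega⟩
        obtain ⟨d, rfl⟩ : ∃ d', d = d' + 1 := ⟨d - 1, by omega⟩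
        have ed := choose_two_succ d
        have ed' := choose_two_succ (d + 1)
        have := choose_two_mono (show p + 1 ≤ d by omega)
        have := hb (by omega)
        omega

theorem fromC_direct {N R c m : ℕ} {Q : ℕ → ℕ → Prop} (h : HasC N R Q) (hc : c + R = (N + 1).choose 2 + 1)
    (hQ : ∀ a v, Q a v → m + v ≠ (a + 1).choose 2 + 1) : ¬ PHolds c m := by
  obtain ⟨V, i1, i2, f, h1, h2, h3, h4⟩ := h
  exact direct h1 h2 (by rw [h3]; exact hc) (fun A => hQ _ _ (h4 A))

theorem fromC_hub {N R c m : ℕ} {Q : ℕ → ℕ → Prop} (h : HasC N R Q) (hc : c + R = (N + 1).choose 2 + 2)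
    (hQ : ∀ a v, Q a v → m + v ≠ (a + 1).choose 2 + 2 ∧ m + v ≠ a.choose 2 + 2) (hm1 : 1 < m) : ¬ PHolds c m := by
  obtain ⟨V, i1, i2, f, h1, h2, h3, h4⟩ := h
  exact hub h1 h2 (by rw [h3]; exact hc) (fun A => (hQ _ _ (h4 A)).1) (fun A => (hQ _ _ (h4 A)).2) hm1

section
variable (c m M n r δ : ℕ) (hM : r + 3 ≤ M) (hc : c + r = M.choose 2 + 1) (hm : m + δ = n.choose 2 + 1)
  (hm1 : 1 < m) (hδ : 18 ≤ δ) (hδn : δ + 3 ≤ n) (hr6 : r % 6 = δ % 6)

include hM hc hm hm1 hδ hδn hr6

/-- the improved residue classes modulo 3 -/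
theorem res3 (hM45 : 45 ≤ M) (hM3 : M % 3 ≠ 0) (hn3 : n % 3 ≠ M % 3)
    (h : (δ % 3 ≠ 0 ∧ (δ + n) % 3 ≠ 0) ∨ (δ % 3 ≠ 2 ∧ (δ + n) % 3 ≠ 2)) : ¬ PHolds c m := by
  have e := choose_two_succ M
  rcases h with ⟨h1, h2⟩ | ⟨h1, h2⟩
  · refine fromC_direct (two_paths (N := M) (R := r + M) hM45 (by omega) (by omega)) (by omega) ?_
    rintro a v ⟨hv, hb⟩
    exact lev2_direct (w := 3) (R := r + M) hm (by omega) hδn hv h1 (by omega) h2 (by omega) (by omega) (by omega)
  · refine fromC_hub (two_paths (N := M) (R := r + M + 1) hM45 (by omega) (by omega)) (by omega) ?_ hm1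
    rintro a v ⟨hv, hb⟩
    exact lev2_hub (w := 3) (R := r + M + 1) hm (by omega) hδn hv (by omega) (by omega) (by omega) (by omega)
      (by omega) (by omega)

end

/-- bounds from the density -/
theorem dens1 {N x n δ a v : ℕ} (hN : 0 < N) (hx : x ≤ N) (hd : (n + 1) * x < N * δ) (h : N * v ≤ a * (N + 0 + x)) :
    (n ≤ a → v ≤ 2 * a) ∧ (n ≤ a → a ≤ n + 1 → v < a + δ) := by
  constructor
  · intro _
    by_contra hcon
    have h1 : N * (2 * a + 1) ≤ N * v := Nat.mul_le_mul_left _ (by omega)
    have h2 : a * x ≤ a * N := Nat.mul_le_mul_left _ hx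
    nlinarith
  · intro _ ha
    by_contra hcon
    have h1 : N * (a + δ) ≤ N * v := Nat.mul_le_mul_left _ (by omega)
    have h2 : a * x ≤ (n + 1) * x := Nat.mul_le_mul_right _ ha
    nlinarith

theorem dens2 {N x n δ a v : ℕ} (hN : 0 < N) (hx : x ≤ N) (hδ : 2 ≤ δ) (hd : (n + 2) * x < N * (δ - 2))
    (h : N * v ≤ a * (N + N + x)) :
    (n ≤ a → v ≤ 3 * a) ∧ (n ≤ a → a ≤ n + 2 → v + 2 < 2 * a + δ) := by
  obtain ⟨d, rfl⟩ := Nat.exists_eq_add_of_le hδ
  rw [Nat.add_sub_cancel_left] at hd
  constructor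
  · intro _
    by_contra hcon
    have h1 : N * (3 * a + 1) ≤ N * v := Nat.mul_le_mul_left _ (by omega)
    have h2 : a * x ≤ a * N := Nat.mul_le_mul_left _ hx
    nlinarith
  · intro _ ha
    by_contra hcon
    have h1 : N * (2 * a + d) ≤ N * v := Nat.mul_le_mul_left _ (by omega)
    have h2 : a * x ≤ (n + 2) * x := Nat.mul_le_mul_right _ ha
    nlinarith

end Pool.Agent.TH579.EC
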