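import Pool.Agent.TH579.ECSlope

/-! The slope theorem. -/

set_option autoImplicit false

namespace Pool.Agent.TH579.EC
open Finset
open Pool.Agent.Results.MP_ea54b6_co.Mod6 (PHolds choose_two_succ choose_two_mono)

theorem struct31 {M R : ℕ} (hM : 76 ≤ M) (hR : M ≤ R) (hR2 : 4 * (R - M + 5) ≤ 3 * M) :
    ∃ x, x ≤ R - M + 5 ∧ x ≤ M ∧
      HasC M R (fun a v => (v % 3 = 0 ∨ v % 3 = R % 3) ∧ M * v ≤ a * (M + 0 + x)) := by
  obtain ⟨B, s, hs1, hs3, hBs⟩ : ∃ B s, 1 ≤ s ∧ s ≤ 3 ∧ R + 3 = 3 * B + s :=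
    ⟨(R + 2) / 3, R + 3 - 3 * ((R + 2) / 3), by omega, by omega, by omega⟩
  refine ⟨3 * (B - (M - 1) / 3), by omega, by omega, ?_⟩
  have h := spaced_struct (w := 3) (s := s) (N := M) (T1 := (M - 1) / 3) (T2 := 0) (Tx := B - (M - 1) / 3)
    (by omega) hs3 (by omega) (by omega) (by omega) (Or.inr rfl) (by omega) (k3 3) (k3 s) (k3_symm _) (k3_symm _)
    (k3_red 3 (by omega) (by omega)) (k3_red s hs1 hs3) (R := R) (by omega)
  simpa using h

theorem struct32 {N R : ℕ} (hN : 76 ≤ N) (hR : 2 * N - 1 ≤ R) (hR2 : 4 * (R - 2 * N + 11) ≤ 3 * N) :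
    ∃ x, x ≤ R - 2 * N + 11 ∧ x ≤ N ∧
      HasC N R (fun a v => (v % 3 = 0 ∨ v % 3 = R % 3) ∧ N * v ≤ a * (N + N + x)) := by
  obtain ⟨B, s, hs1, hs3, hBs⟩ : ∃ B s, 1 ≤ s ∧ s ≤ 3 ∧ R + 3 = 3 * B + s :=
    ⟨(R + 2) / 3, R + 3 - 3 * ((R + 2) / 3), by omega, by omega, by omega⟩
  have hT2 : (4 * (N / 4) - 1) / 3 ≠ 0 := by omega
  refine ⟨3 * (B - (N - 1) / 3 - (4 * (N / 4) - 1) / 3), by omega, by omega, ?_⟩
  have h := spaced_struct (w := 3) (s := s) (N := N) (T1 := (N - 1) / 3) (T2 := (4 * (N / 4) - 1) / 3)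
    (Tx := B - (N - 1) / 3 - (4 * (N / 4) - 1) / 3)
    (by omega) hs3 (by omega) (by omega) (by omega) (Or.inl (by omega)) (by omega) (k3 3) (k3 s) (k3_symm _)
    (k3_symm _) (k3_red 3 (by omega) (by omega)) (k3_red s hs1 hs3) (R := R) (by omega)
  simpa only [if_neg hT2] using h

theorem struct21 {M R : ℕ} (hM : 36 ≤ M) (hR : M ≤ R) (hRe : R % 2 = 0) (hMo : M % 2 = 1)
    (hR2 : 3 * (R - M + 1) ≤ 2 * M) :
    ∃ x, x ≤ R - M + 1 ∧ x ≤ M ∧
      HasC M R (fun a v => (v % 2 = 0 ∨ v % 2 = R % 2) ∧ M * v ≤ a * (M + 0 + x)) := by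
  refine ⟨2 * (R / 2 - (M - 1) / 2), by omega, by omega, ?_⟩
  have h := spaced_struct (w := 2) (s := 2) (N := M) (T1 := (M - 1) / 2) (T2 := 0) (Tx := R / 2 - (M - 1) / 2)
    (by omega) (by omega) (by omega) (by omega) (by omega) (Or.inr rfl) (by omega) (fun _ _ => 0) (fun _ _ => 0)
    (fun _ _ => rfl) (fun _ _ => rfl) k2_red k2_red (R := R) (by omega)
  simpa using h

theorem struct22 {N R : ℕ} (hN : 36 ≤ N) (hR : 2 * N - 1 ≤ R) (hRe : R % 2 = 0)
    (hR2 : 3 * (R - 2 * N + 6) ≤ 2 * N) :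
    ∃ x, x ≤ R - 2 * N + 6 ∧ x ≤ N ∧
      HasC N R (fun a v => (v % 2 = 0 ∨ v % 2 = R % 2) ∧ N * v ≤ a * (N + N + x)) := by
  have hT2 : (3 * (N / 3) - 1) / 2 ≠ 0 := by omega
  refine ⟨2 * (R / 2 - (N - 1) / 2 - (3 * (N / 3) - 1) / 2), by omega, by omega, ?_⟩
  have h := spaced_struct (w := 2) (s := 2) (N := N) (T1 := (N - 1) / 2) (T2 := (3 * (N / 3) - 1) / 2)
    (Tx := R / 2 - (N - 1) / 2 - (3 * (N / 3) - 1) / 2)
    (by omega) (by omega) (by omega) (by omega) (by omega) (Or.inl (by omega)) (by omega) (fun _ _ => 0)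
    (fun _ _ => 0) (fun _ _ => rfl) (fun _ _ => rfl) k2_red k2_red (R := R) (by omega)
  simpa only [if_neg hT2] using h

section
variable (c m M n r δ : ℕ) (hM : r + 3 ≤ M) (hc : c + r = M.choose 2 + 1) (hm : m + δ = n.choose 2 + 1)
  (hm1 : 1 < m) (hδ : 18 ≤ δ) (hδn : δ + 3 ≤ n) (hr6 : r % 6 = δ % 6) (hM80 : 80 ≤ M)
  (hρ : 3 * (r + 11) ≤ 2 * M) (hs : (n + 2) * (r + 11) < M * (δ - 2))

include hM hc hm hm1 hδ hδn hr6 hM80 hρ hs

theorem slope_planes1 (hM3 : M % 3 ≠ 0) : ¬ PHolds c m := by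
  have e := choose_two_succ M
  have hmul : ∀ x, x ≤ r + 6 → (n + 1) * x < M * δ := by
    intro x hx
    calc (n + 1) * x ≤ (n + 2) * (r + 11) := Nat.mul_le_mul (by omega) (by omega)
      _ < M * (δ - 2) := hs
      _ ≤ M * δ := Nat.mul_le_mul_left _ (by omega)
  by_cases h : δ % 3 = 0
  · obtain ⟨x, hx1, hx2, hC⟩ := struct31 (M := M) (R := r + M + 1) (by omega) (by omega) (by omega)
    refine fromC_hub hC (by omega) ?_ hm1
    rintro a v ⟨hv, hb⟩
    obtain ⟨b1, b2⟩ := dens1 (n := n) (δ := δ) (by omega) hx2 (hmul x (by omega)) hb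
    exact lev1_hub (w := 3) (R := r + M + 1) hm (by omega) hδn hv (by omega) (by omega) b1 b2
  · obtain ⟨x, hx1, hx2, hC⟩ := struct31 (M := M) (R := r + M) (by omega) (by omega) (by omega)
    refine fromC_direct hC (by omega) ?_
    rintro a v ⟨hv, hb⟩
    obtain ⟨b1, b2⟩ := dens1 (n := n) (δ := δ) (by omega) hx2 (hmul x (by omega)) hb
    exact lev1_direct (w := 3) (R := r + M) hm (by omega) hδn hv h (by omega) b1 b2

theorem slope_tri1 (hMo : M % 2 = 1) : ¬ PHolds c m := by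
  have e := choose_two_succ M
  have hmul : ∀ x, x ≤ r + 6 → (n + 1) * x < M * δ := by
    intro x hx
    calc (n + 1) * x ≤ (n + 2) * (r + 11) := Nat.mul_le_mul (by omega) (by omega)
      _ < M * (δ - 2) := hs
      _ ≤ M * δ := Nat.mul_le_mul_left _ (by omega)
  by_cases h : δ % 2 = 0
  · obtain ⟨x, hx1, hx2, hC⟩ := struct21 (M := M) (R := r + M + 1) (by omega) (by omega) (by omega) hMo (by omega)
    refine fromC_hub hC (by omega) ?_ hm1
    rintro a v ⟨hv, hb⟩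
    obtain ⟨b1, b2⟩ := dens1 (n := n) (δ := δ) (by omega) hx2 (hmul x (by omega)) hb
    exact lev1_hub (w := 2) (R := r + M + 1) hm (by omega) hδn hv (by omega) (by omega) b1 b2
  · obtain ⟨x, hx1, hx2, hC⟩ := struct21 (M := M) (R := r + M) (by omega) (by omega) (by omega) hMo (by omega)
    refine fromC_direct hC (by omega) ?_
    rintro a v ⟨hv, hb⟩
    obtain ⟨b1, b2⟩ := dens1 (n := n) (δ := δ) (by omega) hx2 (hmul x (by omega)) hb
    exact lev1_direct (w := 2) (R := r + M) hm (by omega) hδn hv h (by omega) b1 b2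

theorem slope_planes2 (hM3 : M % 3 = 0) (hn : n % 3 ≠ 1)
    (h : (δ % 3 ≠ 0 ∧ (δ + n) % 3 ≠ 0) ∨ (δ % 3 ≠ 2 ∧ (δ + n) % 3 ≠ 2)) : ¬ PHolds c m := by
  have e := choose_two_succ M
  have e' := choose_two_succ (M + 1)
  have hmul : ∀ x, x ≤ r + 11 → (n + 2) * x < (M + 1) * (δ - 2) := by
    intro x hx
    calc (n + 2) * x ≤ (n + 2) * (r + 11) := Nat.mul_le_mul (by omega) hx
      _ < M * (δ - 2) := hs
      _ ≤ (M + 1) * (δ - 2) := Nat.mul_le_mul_right _ (by omega)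
  rcases h with ⟨h1, h2⟩ | ⟨h1, h2⟩
  · obtain ⟨x, hx1, hx2, hC⟩ := struct32 (N := M + 1) (R := r + 2 * M + 1) (by omega) (by omega) (by omega)
    refine fromC_direct hC (by omega) ?_
    rintro a v ⟨hv, hb⟩
    obtain ⟨b1, b2⟩ := dens2 (n := n) (δ := δ) (by omega) hx2 (by omega) (hmul x (by omega)) hb
    exact lev2_direct (w := 3) (R := r + 2 * M + 1) hm (by omega) hδn hv h1 (by omega) h2 (by omega) b1 b2
  · obtain ⟨x, hx1, hx2, hC⟩ := struct32 (N := M + 1) (R := r + 2 * M + 2) (by omega) (by omega) (by omega)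
    refine fromC_hub hC (by omega) ?_ hm1
    rintro a v ⟨hv, hb⟩
    obtain ⟨b1, b2⟩ := dens2 (n := n) (δ := δ) (by omega) hx2 (by omega) (hmul x (by omega)) hb
    exact lev2_hub (w := 3) (R := r + 2 * M + 2) hm (by omega) hδn hv (by omega) (by omega) (by omega) (by omega) b1 b2

theorem slope_tri2 (hn : n % 2 = 0) : ¬ PHolds c m := by
  have e := choose_two_succ M
  have e' := choose_two_succ (M + 1)
  have hmul : ∀ x, x ≤ r + 11 → (n + 2) * x < (M + 1) * (δ - 2) := by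
    intro x hx
    calc (n + 2) * x ≤ (n + 2) * (r + 11) := Nat.mul_le_mul (by omega) hx
      _ < M * (δ - 2) := hs
      _ ≤ (M + 1) * (δ - 2) := Nat.mul_le_mul_right _ (by omega)
  by_cases h : δ % 2 = 0
  · obtain ⟨x, hx1, hx2, hC⟩ := struct22 (N := M + 1) (R := r + 2 * M + 2) (by omega) (by omega) (by omega) (by omega)
    refine fromC_hub hC (by omega) ?_ hm1
    rintro a v ⟨hv, hb⟩
    obtain ⟨b1, b2⟩ := dens2 (n := n) (δ := δ) (by omega) hx2 (by omega) (hmul x (by omega)) hb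
    exact lev2_hub (w := 2) (R := r + 2 * M + 2) hm (by omega) hδn hv (by omega) (by omega) (by omega) (by omega) b1 b2
  · obtain ⟨x, hx1, hx2, hC⟩ := struct22 (N := M + 1) (R := r + 2 * M + 1) (by omega) (by omega) (by omega) (by omega)
    refine fromC_direct hC (by omega) ?_
    rintro a v ⟨hv, hb⟩
    obtain ⟨b1, b2⟩ := dens2 (n := n) (δ := δ) (by omega) hx2 (by omega) (hmul x (by omega)) hb
    exact lev2_direct (w := 2) (R := r + 2 * M + 1) hm (by omega) hδn hv h (by omega) (by omega) (by omega) b1 b2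

/-- if `δ / n` exceeds `r / M` (by a little), then only few residue classes are left -/
theorem slope (hP : PHolds c m) : M % 6 = 0 ∧ (n % 6 = 1 ∨ (n % 6 = 5 ∧ δ % 3 = 0)) := by
  have h3 : M % 3 = 0 := by
    by_contra h
    exact slope_planes1 c m M n r δ hM hc hm hm1 hδ hδn hr6 hM80 hρ hs h hP
  have h2 : M % 2 = 0 := by
    by_contra h
    exact slope_tri1 c m M n r δ hM hc hm hm1 hδ hδn hr6 hM80 hρ hs (by omega) hP
  have hn2 : n % 2 = 1 := by
    by_contra h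
    exact slope_tri2 c m M n r δ hM hc hm hm1 hδ hδn hr6 hM80 hρ hs (by omega) hP
  refine ⟨by omega, ?_⟩
  by_contra hcon
  exact slope_planes2 c m M n r δ hM hc hm hm1 hδ hδn hr6 hM80 hρ hs h3 (by omega) (by omega) hP

end

end Pool.Agent.TH579.EC
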