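import Mathlib

/-!
Heredity for relative `F_σ` subsets of `S_fin(Γ, Ω)` and `S_1(Γ, Ω)`.

If `Y` is the increasing union of sets `Y k` closed in `X`, then a sequence of `γ`-covers of `Y` is
split into infinitely many subsequences. The `k`-th one is handled with the property of `Y k`
(a closed subset of `X`): either some member of one of the covers contains `Y k`, or the traces on
`Y k` are again `γ`-covers.
-/

set_option autoImplicit false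

open Set

namespace Pool.Agent.TH579.FSig

/-- `𝒰` is an open `γ`-cover of `X` (a family of relatively open subsets of `X`). -/
def Gam (X : Set ℝ) (𝒰 : Set (Set ℝ)) : Prop :=
  (∀ U ∈ 𝒰, ∃ V : Set ℝ, IsOpen V ∧ U = V ∩ X) ∧ X ∉ 𝒰 ∧
    X ⊆ ⋃₀ 𝒰 ∧ 𝒰.Infinite ∧ ∀ x ∈ X, {U ∈ 𝒰 | x ∉ U}.Finite

/-- The trace extension: an open subset of `X` with a prescribed trace on the closed piece. -/
def ext (X C : Set ℝ) (V : Set ℝ) : Set ℝ := (V ∪ Cᶜ) ∩ X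

theorem key {X Y C : Set ℝ} (hC : IsClosed C) (hYX : Y ⊆ X) (hCY : X ∩ C ⊆ Y) {𝒰 : Set (Set ℝ)}
    (h : Gam Y 𝒰) (hno : ∀ U ∈ 𝒰, ¬ X ∩ C ⊆ U) :
    Gam X ((fun U => (U ∪ (X \ C))) '' 𝒰) := by
  obtain ⟨h1, h2, h3, h4, h5⟩ := h
  have hfinx : ∀ x ∈ X, {W ∈ (fun U => (U ∪ (X \ C))) '' 𝒰 | x ∉ W}.Finite := by
    intro x hx
    by_cases hxC : x ∈ C
    · refine ((h5 x (hCY ⟨hx, hxC⟩)).image (fun U => (U ∪ (X \ C)))).subset ?_
      rintro _ ⟨⟨U, hU, rfl⟩, hxW⟩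
      exact ⟨U, ⟨hU, fun hxU => hxW (Or.inl hxU)⟩, rfl⟩
    · convert Set.finite_empty
      rw [eq_empty_iff_forall_notMem]
      rintro _ ⟨⟨U, hU, rfl⟩, hxW⟩
      exact hxW (Or.inr ⟨hx, hxC⟩)
  have hinf : ((fun U => (U ∪ (X \ C))) '' 𝒰).Infinite := by
    intro hfin
    obtain ⟨W, hW, hWinf⟩ : ∃ W ∈ (fun U => (U ∪ (X \ C))) '' 𝒰,
        {U ∈ 𝒰 | U ∪ (X \ C) = W}.Infinite := by
      by_contra hcon
      push Not at hcon
      refine h4 ((hfin.biUnion hcon).subset ?_)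
      intro U hU
      simp only [mem_iUnion]
      exact ⟨U ∪ (X \ C), ⟨U, hU, rfl⟩, hU, rfl⟩
    obtain ⟨U₀, hU₀⟩ := hWinf.nonempty
    refine hno U₀ hU₀.1 ?_
    rintro x ⟨hxX, hxC⟩
    obtain ⟨U, hU, hxU⟩ := hWinf.exists_notMem_finite (h5 x (hCY ⟨hxX, hxC⟩))
    have hxU' : x ∈ U := by
      by_contra hcon
      exact hxU ⟨hU.1, hcon⟩
    have : x ∈ U₀ ∪ (X \ C) := by
      rw [hU₀.2, ← hU.2]
      exact Or.inl hxU'
    rcases this with h | h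
    · exact h
    · exact absurd hxC h.2
  refine ⟨?_, ?_, ?_, hinf, hfinx⟩
  · rintro _ ⟨U, hU, rfl⟩
    obtain ⟨V, hV, rfl⟩ := h1 U hU
    refine ⟨V ∩ C ∪ Cᶜ, ?_, ?_⟩
    · have : V ∩ C ∪ Cᶜ = V ∪ Cᶜ := by
        ext x
        by_cases hx : x ∈ C <;> simp [hx]
      rw [this]
      exact hV.union hC.isOpen_compl
    · ext x
      by_cases hx : x ∈ C
      · simp only [mem_union, mem_inter_iff, mem_diff, mem_compl_iff, hx, not_true_eq_false,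
          and_false, or_false, and_true]
        constructor
        · rintro ⟨hxV, hxY⟩
          exact ⟨hxV, hYX hxY⟩
        · rintro ⟨hxV, hxX⟩
          exact ⟨hxV, hCY ⟨hxX, hx⟩⟩
      · simp only [mem_union, mem_inter_iff, mem_diff, mem_compl_iff, hx, not_false_eq_true,
          and_true, and_false, false_or, true_and]
        constructor
        · rintro (⟨-, hxY⟩ | hxX)
          · exact hYX hxY
          · exact hxX
        · intro hxX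
          exact Or.inr hxX
  · rintro ⟨U, hU, hUX⟩
    refine hno U hU ?_
    rintro x ⟨hxX, hxC⟩
    have : x ∈ U ∪ (X \ C) := by
      have h' : U ∪ (X \ C) = X := hUX
      rw [h']
      exact hxX
    rcases this with h | h
    · exact h
    · exact absurd hxC h.2
  · intro x hx
    obtain ⟨W, hW, hxW⟩ := hinf.exists_notMem_finite (hfinx x hx)
    refine ⟨W, hW, ?_⟩
    by_contra hcon
    exact hxW ⟨hW, hcon⟩

/-- The increasing closed pieces. -/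
def pc (K : ℕ → Set ℝ) (k : ℕ) : Set ℝ := ⋃ i ∈ Finset.range (k + 1), K i

theorem isClosed_pc {K : ℕ → Set ℝ} (hK : ∀ n, IsClosed (K n)) (k : ℕ) : IsClosed (pc K k) :=
  isClosed_biUnion_finset fun i _ => hK i

theorem exists_pc {K : ℕ → Set ℝ} {X : Set ℝ} (F : Finset ℝ)
    (hF : (↑F : Set ℝ) ⊆ X ∩ (⋃ n, K n)) : ∃ k, (↑F : Set ℝ) ⊆ X ∩ pc K k := by
  classical
  have : ∀ x : ℝ, ∃ i, x ∈ F → x ∈ K i := by
    intro x
    by_cases hx : x ∈ F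
    · obtain ⟨i, hi⟩ := mem_iUnion.1 (hF hx).2
      exact ⟨i, fun _ => hi⟩
    · exact ⟨0, fun h => absurd h hx⟩
  choose i hi using this
  refine ⟨F.sup i, fun x hx => ⟨(hF hx).1, ?_⟩⟩
  simp only [pc, mem_iUnion, Finset.mem_range, exists_prop]
  exact ⟨i x, Nat.lt_succ_of_le (Finset.le_sup (f := i) hx), hi x hx⟩

theorem sfin {X Y : Set ℝ}
    (hK : ∃ K : ℕ → Set ℝ, (∀ n, IsClosed (K n)) ∧ Y = X ∩ (⋃ n, K n))
    (hX : ∀ 𝒰 : ℕ → Set (Set ℝ), (∀ n, Gam X (𝒰 n)) →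
          ∃ ℱ : ℕ → Set (Set ℝ), (∀ n, (ℱ n).Finite ∧ ℱ n ⊆ 𝒰 n) ∧
            X ∉ (⋃ n, ℱ n) ∧ X ⊆ ⋃₀ (⋃ n, ℱ n) ∧
            ∀ F : Finset ℝ, (↑F : Set ℝ) ⊆ X →
              ∃ U ∈ (⋃ n, ℱ n), (↑F : Set ℝ) ⊆ U) :
    ∀ 𝒰 : ℕ → Set (Set ℝ), (∀ n, Gam Y (𝒰 n)) →
          ∃ ℱ : ℕ → Set (Set ℝ), (∀ n, (ℱ n).Finite ∧ ℱ n ⊆ 𝒰 n) ∧
            Y ∉ (⋃ n, ℱ n) ∧ Y ⊆ ⋃₀ (⋃ n, ℱ n) ∧
            ∀ F : Finset ℝ, (↑F : Set ℝ) ⊆ Y →
              ∃ U ∈ (⋃ n, ℱ n), (↑F : Set ℝ) ⊆ U := by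
  classical
  obtain ⟨K, hK, rfl⟩ := hK
  intro 𝒰 h𝒰
  have hmain : ∀ k : ℕ, ∃ ℱ : ℕ → Set (Set ℝ),
      (∀ j, (ℱ j).Finite ∧ ℱ j ⊆ 𝒰 (Nat.pair k j)) ∧
      ∀ F : Finset ℝ, (↑F : Set ℝ) ⊆ X ∩ pc K k → ∃ j, ∃ U ∈ ℱ j, (↑F : Set ℝ) ⊆ U := by
    intro k
    by_cases hA : ∃ j, ∃ U ∈ 𝒰 (Nat.pair k j), X ∩ pc K k ⊆ U
    · obtain ⟨j, U, hU, hkU⟩ := hA
      refine ⟨fun i => if i = j then {U} else ∅, fun i => ?_, fun F hF => ⟨j, U, ?_, hF.trans hkU⟩⟩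
      · by_cases hij : i = j
        · subst hij
          simp [hU]
        · simp [hij]
      · simp
    · push Not at hA
      have hsub : X ∩ pc K k ⊆ X ∩ ⋃ n, K n := by
        rintro x ⟨hxX, hx⟩
        simp only [pc, mem_iUnion, Finset.mem_range, exists_prop] at hx
        obtain ⟨i, -, hi⟩ := hx
        exact ⟨hxX, mem_iUnion.2 ⟨i, hi⟩⟩
      obtain ⟨𝒢, h𝒢, -, -, hω⟩ := hX
        (fun j => (fun U => (U ∪ (X \ pc K k))) '' (𝒰 (Nat.pair k j)))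
        (fun j => key (isClosed_pc hK k) inter_subset_left hsub (h𝒰 _) (hA j))
      have hch : ∀ j, ∀ W : Set ℝ, ∃ U : Set ℝ, W ∈ 𝒢 j →
          U ∈ 𝒰 (Nat.pair k j) ∧ U ∪ (X \ pc K k) = W := by
        intro j W
        by_cases hW : W ∈ 𝒢 j
        · obtain ⟨U, hU, hUW⟩ := (h𝒢 j).2 hW
          exact ⟨U, fun _ => ⟨hU, hUW⟩⟩
        · exact ⟨∅, fun h => absurd h hW⟩
      choose g hg using hch
      refine ⟨fun j => g j '' 𝒢 j, fun j => ⟨(h𝒢 j).1.image _, ?_⟩, fun F hF => ?_⟩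
      · rintro _ ⟨W, hW, rfl⟩
        exact (hg j W hW).1
      · obtain ⟨W, hW, hFW⟩ := hω F (hF.trans inter_subset_left)
        obtain ⟨j, hj⟩ := mem_iUnion.1 hW
        refine ⟨j, g j W, ⟨W, hj, rfl⟩, fun x hx => ?_⟩
        have h1 := hFW hx
        rw [← (hg j W hj).2] at h1
        rcases h1 with h1 | h1
        · exact h1
        · exact absurd (hF hx).2 h1.2
  choose ℱ h1 h2 using hmain
  have hω : ∀ F : Finset ℝ, (↑F : Set ℝ) ⊆ X ∩ (⋃ n, K n) →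
      ∃ U ∈ (⋃ n, ℱ (Nat.unpair n).1 (Nat.unpair n).2), (↑F : Set ℝ) ⊆ U := by
    intro F hF
    obtain ⟨k, hk⟩ := exists_pc F hF
    obtain ⟨j, U, hU, hFU⟩ := h2 k F hk
    refine ⟨U, mem_iUnion.2 ⟨Nat.pair k j, ?_⟩, hFU⟩
    rw [Nat.unpair_pair]
    exact hU
  have hmem : ∀ n, ℱ (Nat.unpair n).1 (Nat.unpair n).2 ⊆ 𝒰 n := by
    intro n
    have := (h1 (Nat.unpair n).1 (Nat.unpair n).2).2
    rwa [Nat.pair_unpair] at this
  refine ⟨fun n => ℱ (Nat.unpair n).1 (Nat.unpair n).2, fun n => ⟨(h1 _ _).1, hmem n⟩, ?_, ?_, hω⟩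
  · intro hcon
    obtain ⟨n, hn⟩ := mem_iUnion.1 hcon
    exact (h𝒰 n).2.1 (hmem n hn)
  · intro x hx
    obtain ⟨U, hU, hxU⟩ := hω {x} (by simpa using hx)
    exact ⟨U, hU, hxU (by simp)⟩

theorem s1 {X Y : Set ℝ}
    (hK : ∃ K : ℕ → Set ℝ, (∀ n, IsClosed (K n)) ∧ Y = X ∩ (⋃ n, K n))
    (hX : ∀ 𝒰 : ℕ → Set (Set ℝ), (∀ n, Gam X (𝒰 n)) →
          ∃ V : ℕ → Set ℝ, (∀ n, V n ∈ 𝒰 n) ∧
            X ∉ range V ∧ X ⊆ ⋃₀ (range V) ∧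
            ∀ F : Finset ℝ, (↑F : Set ℝ) ⊆ X →
              ∃ U ∈ range V, (↑F : Set ℝ) ⊆ U) :
    ∀ 𝒰 : ℕ → Set (Set ℝ), (∀ n, Gam Y (𝒰 n)) →
          ∃ V : ℕ → Set ℝ, (∀ n, V n ∈ 𝒰 n) ∧
            Y ∉ range V ∧ Y ⊆ ⋃₀ (range V) ∧
            ∀ F : Finset ℝ, (↑F : Set ℝ) ⊆ Y →
              ∃ U ∈ range V, (↑F : Set ℝ) ⊆ U := by
  classical
  obtain ⟨K, hK, rfl⟩ := hK
  intro 𝒰 h𝒰
  have hne : ∀ n, ∃ U, U ∈ 𝒰 n := fun n => (h𝒰 n).2.2.2.1.nonempty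
  choose d hd using hne
  have hmain : ∀ k : ℕ, ∃ V : ℕ → Set ℝ,
      (∀ j, V j ∈ 𝒰 (Nat.pair k j)) ∧
      ∀ F : Finset ℝ, (↑F : Set ℝ) ⊆ X ∩ pc K k → ∃ j, (↑F : Set ℝ) ⊆ V j := by
    intro k
    by_cases hA : ∃ j, ∃ U ∈ 𝒰 (Nat.pair k j), X ∩ pc K k ⊆ U
    · obtain ⟨j, U, hU, hkU⟩ := hA
      refine ⟨fun i => if i = j then U else d (Nat.pair k i), fun i => ?_,
        fun F hF => ⟨j, ?_⟩⟩
      · by_cases hij : i = j
        · subst hij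
          simp [hU]
        · simp [hij, hd]
      · simpa using hF.trans hkU
    · push Not at hA
      have hsub : X ∩ pc K k ⊆ X ∩ ⋃ n, K n := by
        rintro x ⟨hxX, hx⟩
        simp only [pc, mem_iUnion, Finset.mem_range, exists_prop] at hx
        obtain ⟨i, -, hi⟩ := hx
        exact ⟨hxX, mem_iUnion.2 ⟨i, hi⟩⟩
      obtain ⟨W, hW, -, -, hω⟩ := hX
        (fun j => (fun U => (U ∪ (X \ pc K k))) '' (𝒰 (Nat.pair k j)))
        (fun j => key (isClosed_pc hK k) inter_subset_left hsub (h𝒰 _) (hA j))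
      choose g hg hgW using hW
      refine ⟨g, hg, fun F hF => ?_⟩
      obtain ⟨_, ⟨j, rfl⟩, hFW⟩ := hω F (hF.trans inter_subset_left)
      refine ⟨j, fun x hx => ?_⟩
      have h1 : x ∈ g j ∪ (X \ pc K k) := by
        have h2 : g j ∪ (X \ pc K k) = W j := hgW j
        rw [h2]
        exact hFW hx
      rcases h1 with h1 | h1
      · exact h1
      · exact absurd (hF hx).2 h1.2
  choose V h1 h2 using hmain
  have hω : ∀ F : Finset ℝ, (↑F : Set ℝ) ⊆ X ∩ (⋃ n, K n) →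
      ∃ U ∈ range (fun n => V (Nat.unpair n).1 (Nat.unpair n).2), (↑F : Set ℝ) ⊆ U := by
    intro F hF
    obtain ⟨k, hk⟩ := exists_pc F hF
    obtain ⟨j, hFU⟩ := h2 k F hk
    refine ⟨_, ⟨Nat.pair k j, rfl⟩, ?_⟩
    simpa only [Nat.unpair_pair] using hFU
  have hmem : ∀ n, V (Nat.unpair n).1 (Nat.unpair n).2 ∈ 𝒰 n := by
    intro n
    have := h1 (Nat.unpair n).1 (Nat.unpair n).2
    rwa [Nat.pair_unpair] at this
  refine ⟨fun n => V (Nat.unpair n).1 (Nat.unpair n).2, hmem, ?_, ?_, hω⟩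
  · rintro ⟨n, hn⟩
    exact (h𝒰 n).2.1 (hn ▸ hmem n)
  · intro x hx
    obtain ⟨U, hU, hxU⟩ := hω {x} (by simpa using hx)
    exact ⟨U, hU, hxU (by simp)⟩

end Pool.Agent.TH579.FSig
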