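import Mathlib
import Pool.Agent.Results.MP_ea54b6_co.Mod6

/-! Finite structures for exactly m-coloured complete infinite subgraphs: basic definitions. -/

set_option autoImplicit false

namespace Pool.Agent.TH579.EC
open Finset
open Pool.Agent.Results.MP_ea54b6_co.Mod6 (PHolds)

/-- colours seen by a finite set `A` of vertices together with the far part: `k1 x` is the colour of the
edges from `x` to the far part, `k2` the colours of the other edges, `none` the colour of the far part -/
def seenV {V C : Type} [DecidableEq V] [DecidableEq C] (k1 : V → Option C) (k2 : V → V → Option C)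
    (A : Finset V) : Finset (Option C) :=
  insert none (A.image k1 ∪ A.offDiag.image (fun p => k2 p.1 p.2))

theorem keyV {V C : Type} [Fintype V] [DecidableEq V] [DecidableEq C] (c m : ℕ)
    (k1 : V → Option C) (k2 : V → V → Option C) (hs : ∀ x y, k2 x y = k2 y x)
    (hc : (seenV k1 k2 univ).card = c) (hm : ∀ A : Finset V, (seenV k1 k2 A).card ≠ m) :
    ¬ PHolds c m := by
  classical
  intro hP
  set N := Fintype.card V with hN
  let e : V ≃ Fin N := Fintype.equivFin V
  set full := seenV k1 k2 univ with hfull
  have hmono : ∀ A : Finset V, seenV k1 k2 A ⊆ full := by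
    intro A
    refine insert_subset_insert _ (union_subset_union ?_ ?_)
    · exact image_subset_image (subset_univ _)
    · exact image_subset_image (offDiag_mono (subset_univ _))
  have E : full ≃ Fin c := full.equivFinOfCardEq hc
  have hz : (none : Option C) ∈ full := mem_insert_self _ _
  let g : Option C → Fin c := fun k => if h : k ∈ full then E ⟨k, h⟩ else E ⟨none, hz⟩
  have hginj : Set.InjOn g (full : Set (Option C)) := by
    intro a ha b hb hab
    have ha' : a ∈ full := ha
    have hb' : b ∈ full := hb
    simp only [g, dif_pos ha', dif_pos hb'] at hab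
    have := E.injective hab
    simpa using this
  let col : ℕ → ℕ → Option C := fun i j =>
    if hj : j < N then (if hi : i < N then k2 (e.symm ⟨i, hi⟩) (e.symm ⟨j, hj⟩) else none)
    else if hi : i < N then k1 (e.symm ⟨i, hi⟩) else none
  have hcolA : ∀ S : Set ℕ, S.Infinite → ∀ A : Finset V, (∀ x, x ∈ A ↔ (e x : ℕ) ∈ S) →
      {x : Fin c | ∃ i ∈ S, ∃ j ∈ S, i < j ∧ g (col i j) = x} =
        g '' (seenV k1 k2 A : Set (Option C)) := by
    intro S hS A hA
    have hmem : ∀ (i : ℕ) (hi : i < N), i ∈ S → e.symm ⟨i, hi⟩ ∈ A := by
      intro i hi hiS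
      rw [hA]; simpa using hiS
    ext x
    simp only [Set.mem_image, Set.mem_ofPred_eq]
    constructor
    · rintro ⟨i, hi, j, hj, hij, rfl⟩
      refine ⟨col i j, ?_, rfl⟩
      simp only [seenV, coe_insert, coe_union, coe_image, Set.mem_insert_iff, Set.mem_union, Set.mem_image,
        mem_coe, mem_offDiag, col]
      by_cases h1 : j < N
      · have h2 : i < N := by omega
        right; right
        refine ⟨(e.symm ⟨i, h2⟩, e.symm ⟨j, h1⟩), ⟨hmem i h2 hi, hmem j h1 hj, ?_⟩, by simp [h1, h2]⟩
        intro h
        have := e.symm.injective h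
        simp only [Fin.mk.injEq] at this
        omega
      · by_cases h2 : i < N
        · right; left
          exact ⟨e.symm ⟨i, h2⟩, hmem i h2 hi, by simp [h1, h2]⟩
        · left; simp [h1, h2]
    · rintro ⟨k, hk, rfl⟩
      obtain ⟨u, huS, huN⟩ := hS.exists_gt N
      obtain ⟨v, hvS, hvu⟩ := hS.exists_gt u
      simp only [seenV, coe_insert, coe_union, coe_image, Set.mem_insert_iff, Set.mem_union, Set.mem_image,
        mem_coe, mem_offDiag] at hk
      rcases hk with rfl | ⟨x, hx, rfl⟩ | ⟨⟨x, y⟩, ⟨hx, hy, hxy⟩, rfl⟩
      · refine ⟨u, huS, v, hvS, hvu, ?_⟩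
        have : col u v = none := by
          simp only [col]; rw [dif_neg (by omega), dif_neg (by omega)]
        rw [this]
      · rw [hA] at hx
        refine ⟨e x, hx, u, huS, lt_trans (e x).2 huN, ?_⟩
        have : col (e x) u = k1 x := by
          simp only [col]; rw [dif_neg (by omega), dif_pos (e x).2]; simp
        rw [this]
      · have hx' := (hA x).mp hx
        have hy' := (hA y).mp hy
        have hne : (e x : ℕ) ≠ (e y : ℕ) := by
          intro h
          exact hxy (e.injective (Fin.ext h))
        rcases lt_or_gt_of_ne hne with h | h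
        · refine ⟨e x, hx', e y, hy', h, ?_⟩
          have : col (e x) (e y) = k2 x y := by
            simp only [col]; rw [dif_pos (e y).2, dif_pos (e x).2]; simp
          rw [this]
        · refine ⟨e y, hy', e x, hx', h, ?_⟩
          have : col (e y) (e x) = k2 x y := by
            simp only [col]; rw [dif_pos (e x).2, dif_pos (e y).2]; simp [hs]
          rw [this]
  have hsurj : ∀ k : Fin c, ∃ i j : ℕ, i < j ∧ g (col i j) = k := by
    intro k
    have h1 := hcolA Set.univ Set.infinite_univ univ (by simp)
    have h3 : k ∈ g '' (seenV k1 k2 univ : Set (Option C)) := by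
      refine ⟨(E.symm k : Option C), (E.symm k).2, ?_⟩
      simp [g]
    rw [← h1] at h3
    obtain ⟨i, -, j, -, hij, h⟩ := h3
    exact ⟨i, j, hij, h⟩
  obtain ⟨S, hS, hcard⟩ := hP (fun i j => g (col i j)) hsurj
  rw [hcolA S hS (univ.filter (fun v => (e v : ℕ) ∈ S)) (by simp), Set.InjOn.ncard_image (hginj.mono (by
    exact_mod_cast hmono _)), Set.ncard_coe_finset] at hcard
  exact hm _ hcard

end Pool.Agent.TH579.EC
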