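import Pool.Agent.TH579.ECOpt

/-! Colourings from linear systems of blocks. -/

set_option autoImplicit false

namespace Pool.Agent.TH579.EC
open Finset
open Pool.Agent.Results.MP_ea54b6_co.Mod6 (PHolds choose_two_succ choose_two_mono)

/-- unordered pairs of distinct elements of `A` -/
def prs {V : Type} [DecidableEq V] (A : Finset V) : Finset (Sym2 V) :=
  A.offDiag.image (fun p : V × V => s(p.1, p.2))

theorem card_prs {V : Type} [DecidableEq V] (A : Finset V) : (prs A).card = A.card.choose 2 :=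
  Sym2.card_image_offDiag A

theorem mem_prs {V : Type} [DecidableEq V] (A : Finset V) (x y : V) :
    s(x, y) ∈ prs A ↔ x ∈ A ∧ y ∈ A ∧ x ≠ y := by
  simp only [prs, mem_image, mem_offDiag, Prod.exists, Sym2.eq_iff]
  constructor
  · rintro ⟨a, b, ⟨ha, hb, hab⟩, ⟨rfl, rfl⟩ | ⟨rfl, rfl⟩⟩
    · exact ⟨ha, hb, hab⟩
    · exact ⟨hb, ha, hab.symm⟩
  · rintro ⟨hx, hy, hxy⟩
    exact ⟨x, y, ⟨hx, hy, hxy⟩, Or.inl ⟨rfl, rfl⟩⟩

/-- Blocks `p i : Fin b → V`, any two sharing at most one vertex, coloured inside by `k` with colours depending on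
the block, all other pairs with distinct colours: the redundancies of the blocks add up. -/
theorem Real.blocks {V ι D : Type} [DecidableEq V] [Fintype ι] [DecidableEq ι] [DecidableEq D] {b : ℕ}
    (p : ι → Fin b → V) (hp : ∀ i, Function.Injective (p i))
    (hlin : ∀ i j a a' c c', a ≠ a' → p i a = p j c → p i a' = p j c' → i = j)
    (k : Fin b → Fin b → D) (hk : ∀ a a', k a a' = k a' a) :
    Real V (fun A => ∑ i, ((univ.filter (fun a => p i a ∈ A)).card.choose 2 -
      (cols (fun a a' => some (k a a')) (univ.filter (fun a => p i a ∈ A))).card)) := by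
  classical
  let Q : V → V → ι × Fin b × Fin b → Prop := fun x y t => t.2.1 ≠ t.2.2 ∧ p t.1 t.2.1 = x ∧ p t.1 t.2.2 = y
  let K : V → V → Option ((ι × D) ⊕ Sym2 V) := fun x y =>
    if h : ∃ t, Q x y t then some (Sum.inl (h.choose.1, k h.choose.2.1 h.choose.2.2)) else some (Sum.inr s(x, y))
  have huniq : ∀ x y t t', Q x y t → Q x y t' → t = t' := by
    rintro x y ⟨i, a, a'⟩ ⟨j, c, c'⟩ ⟨h1, h2, h3⟩ ⟨h1', h2', h3'⟩
    simp only at h1 h2 h3 h1' h2' h3'
    have hij := hlin i j a a' c c' h1 (h2.trans h2'.symm) (h3.trans h3'.symm)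
    subst hij
    have e1 := hp i (h2.trans h2'.symm)
    have e2 := hp i (h3.trans h3'.symm)
    rw [e1, e2]
  have hK1 : ∀ i a a', a ≠ a' → K (p i a) (p i a') = some (Sum.inl (i, k a a')) := by
    intro i a a' h
    have hex : ∃ t, Q (p i a) (p i a') t := ⟨(i, a, a'), h, rfl, rfl⟩
    have e := huniq _ _ _ _ hex.choose_spec (show Q (p i a) (p i a') (i, a, a') from ⟨h, rfl, rfl⟩)
    simp only [K, dif_pos hex, e]
  have hsymQ : ∀ x y, (∃ t, Q x y t) → ∃ t, Q y x t := by
    rintro x y ⟨⟨i, a, a'⟩, h1, h2, h3⟩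
    exact ⟨(i, a', a), h1.symm, h3, h2⟩
  have hsym : ∀ x y, K x y = K y x := by
    intro x y
    by_cases h : ∃ t, Q x y t
    · obtain ⟨⟨i, a, a'⟩, h1, rfl, rfl⟩ := h
      rw [hK1 i a a' h1, hK1 i a' a h1.symm, hk]
    · have h' : ¬ ∃ t, Q y x t := fun h' => h (hsymQ _ _ h')
      simp only [K, dif_neg h, dif_neg h', Sym2.eq_swap]
  refine ⟨_, inferInstance, K, hsym, ?_⟩
  intro A
  let Ai : ι → Finset (Fin b) := fun i => univ.filter (fun a => p i a ∈ A)
  have hAi : ∀ i a, a ∈ Ai i ↔ p i a ∈ A := fun i a => by simp [Ai]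
  -- the pairs of `A` contained in block `i`
  let PB : ι → Finset (Sym2 V) := fun i => (prs (Ai i)).image (Sym2.map (p i))
  let rest : Finset (Sym2 V) := prs A \ univ.biUnion PB
  have hPBsub : ∀ i, PB i ⊆ prs A := by
    intro i e he
    obtain ⟨e', he', rfl⟩ := mem_image.mp he
    induction e' using Sym2.ind with | _ a a' =>
    rw [mem_prs] at he'
    rw [Sym2.map_mk, mem_prs]
    exact ⟨(hAi _ _).mp he'.1, (hAi _ _).mp he'.2.1, fun h => he'.2.2 (hp i h)⟩
  have hPBdisj : ∀ i ∈ (univ : Finset ι), ∀ j ∈ (univ : Finset ι), i ≠ j → Disjoint (PB i) (PB j) := by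
    intro i _ j _ hij
    rw [disjoint_left]
    intro e he he'
    obtain ⟨u, hu, rfl⟩ := mem_image.mp he
    obtain ⟨w, hw, h⟩ := mem_image.mp he'
    induction u using Sym2.ind with | _ a a' =>
    induction w using Sym2.ind with | _ c c' =>
    rw [mem_prs] at hu hw
    rw [Sym2.map_mk, Sym2.map_mk, Sym2.eq_iff] at h
    rcases h with ⟨h1, h2⟩ | ⟨h1, h2⟩
    · exact hij (hlin i j a a' c c' hu.2.2 h1.symm h2.symm)
    · exact hij (hlin i j a a' c' c hu.2.2 h2.symm h1.symm)
  have hPBcard : ∀ i, (PB i).card = (Ai i).card.choose 2 := by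
    intro i
    rw [card_image_of_injective _ (Sym2.map.injective (hp i)), card_prs]
  have hcount1 : A.card.choose 2 = ∑ i, (Ai i).card.choose 2 + rest.card := by
    have h1 : univ.biUnion PB ⊆ prs A := by
      intro e he
      obtain ⟨i, -, he⟩ := mem_biUnion.mp he
      exact hPBsub i he
    have h2 := card_sdiff_add_card_eq_card h1
    rw [card_biUnion hPBdisj] at h2
    rw [← card_prs, ← h2, add_comm]
    congr 1
    exact sum_congr rfl (fun i _ => hPBcard i)
  -- the colours
  let kc : Fin b → Fin b → Option D := fun a a' => some (k a a')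
  let CB : ι → Finset (Option ((ι × D) ⊕ Sym2 V)) := fun i =>
    (cols kc (Ai i)).image (fun c => c.map (fun d => Sum.inl (i, d)))
  have hCBinj : ∀ i, Function.Injective (fun c : Option D => c.map (fun d => (Sum.inl (i, d) : (ι × D) ⊕ Sym2 V))) :=
    fun i => Option.map_injective (fun a b h => by simpa using h)
  have hCBdisj : ∀ i ∈ (univ : Finset ι), ∀ j ∈ (univ : Finset ι), i ≠ j → Disjoint (CB i) (CB j) := by
    intro i _ j _ hij
    rw [disjoint_left]
    intro e he he'
    obtain ⟨u, hu, rfl⟩ := mem_image.mp he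
    obtain ⟨w, hw, h⟩ := mem_image.mp he'
    have hu0 := ((mem_cols _ _ _).mp hu).1
    rcases u with _ | u
    · exact hu0 rfl
    · rcases w with _ | w
      · simp at h
      · simp only [Option.map_some, Option.some.injEq, Sum.inl.injEq, Prod.mk.injEq] at h
        exact hij h.1.symm
  have hcols : cols K A = univ.biUnion CB ∪ rest.image (fun e => some (Sum.inr e)) := by
    ext c
    rw [mem_cols]
    simp only [mem_union, mem_biUnion, mem_univ, true_and, mem_image]
    constructor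
    · rintro ⟨-, x, hx, y, hy, hxy, rfl⟩
      by_cases h : ∃ t, Q x y t
      · obtain ⟨⟨i, a, a'⟩, h1, rfl, rfl⟩ := h
        left
        refine ⟨i, mem_image.mpr ⟨some (k a a'), ?_, ?_⟩⟩
        · rw [mem_cols]
          exact ⟨by simp, a, (hAi _ _).mpr hx, a', (hAi _ _).mpr hy, h1, rfl⟩
        · rw [hK1 i a a' h1]; rfl
      · right
        refine ⟨s(x, y), mem_sdiff.mpr ⟨(mem_prs _ _ _).mpr ⟨hx, hy, hxy⟩, ?_⟩, by simp only [K, dif_neg h]⟩
        intro h2
        obtain ⟨i, -, h2⟩ := mem_biUnion.mp h2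
        obtain ⟨u, hu, h3⟩ := mem_image.mp h2
        induction u using Sym2.ind with | _ a a' =>
        rw [mem_prs] at hu
        rw [Sym2.map_mk, Sym2.eq_iff] at h3
        rcases h3 with ⟨h4, h5⟩ | ⟨h4, h5⟩
        · exact h ⟨(i, a, a'), hu.2.2, h4, h5⟩
        · exact h ⟨(i, a', a), hu.2.2.symm, h5, h4⟩
    · rintro (⟨i, hc⟩ | ⟨e, he, rfl⟩)
      · obtain ⟨u, hu, rfl⟩ := mem_image.mp hc
        obtain ⟨hu0, a, ha, a', ha', haa, rfl⟩ := (mem_cols _ _ _).mp hu
        refine ⟨by simp [kc], p i a, (hAi _ _).mp ha, p i a', (hAi _ _).mp ha', fun h => haa (hp i h), ?_⟩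
        rw [hK1 i a a' haa]; rfl
      · obtain ⟨he1, he2⟩ := mem_sdiff.mp he
        induction e using Sym2.ind with | _ x y =>
        rw [mem_prs] at he1
        refine ⟨by simp, x, he1.1, y, he1.2.1, he1.2.2, ?_⟩
        have h : ¬ ∃ t, Q x y t := by
          rintro ⟨⟨i, a, a'⟩, h1, rfl, rfl⟩
          apply he2
          refine mem_biUnion.mpr ⟨i, mem_univ _, mem_image.mpr ⟨s(a, a'), ?_, rfl⟩⟩
          rw [mem_prs]
          exact ⟨(hAi _ _).mpr he1.1, (hAi _ _).mpr he1.2.1, h1⟩
        simp only [K, dif_neg h]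
  have hdisj2 : Disjoint (univ.biUnion CB) (rest.image (fun e => some (Sum.inr e))) := by
    rw [disjoint_left]
    intro c hc hc'
    obtain ⟨i, -, hc⟩ := mem_biUnion.mp hc
    obtain ⟨u, hu, rfl⟩ := mem_image.mp hc
    obtain ⟨e, -, h⟩ := mem_image.mp hc'
    rcases u with _ | u <;> simp at h
  have hcount2 : (cols K A).card = ∑ i, (cols kc (Ai i)).card + rest.card := by
    rw [hcols, card_union_of_disjoint hdisj2, card_biUnion hCBdisj,
      card_image_of_injective rest (fun a b h => by simpa using h)]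
    congr 1
    exact sum_congr rfl (fun i _ => card_image_of_injective _ (hCBinj i))
  have hle : ∀ i, (cols kc (Ai i)).card ≤ (Ai i).card.choose 2 :=
    fun i => card_cols_le kc (fun a a' => by simp only [kc, hk]) _
  show (cols K A).card + ∑ i, ((Ai i).card.choose 2 - (cols kc (Ai i)).card) = _
  rw [hcount1, hcount2]
  have : ∑ i, ((Ai i).card.choose 2 - (cols kc (Ai i)).card) + ∑ i, (cols kc (Ai i)).card =
      ∑ i, (Ai i).card.choose 2 := by
    rw [← sum_add_distrib]
    exact sum_congr rfl (fun i _ => Nat.sub_add_cancel (hle i))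
  omega

end Pool.Agent.TH579.EC
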