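import Pool.Agent.TH579.ECPath

/-! Counting the full blocks of the two paths and of equally spaced extra blocks. -/

set_option autoImplicit false

namespace Pool.Agent.TH579.EC
open Finset

/-- number of maximal intervals of a finite set of natural numbers -/
def runs (B : Finset ℕ) : ℕ := (B.filter (fun v => v = 0 ∨ v - 1 ∉ B)).card

theorem count_path1 (w T : ℕ) (B : Finset ℕ) :
    w * (univ.filter (fun i : Fin T => ∀ a : Fin (w + 1), w * i.val + a.val ∈ B)).card + runs B ≤ B.card := by
  set F := univ.filter (fun i : Fin T => ∀ a : Fin (w + 1), w * i.val + a.val ∈ B) with hF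
  have h1 : (F ×ˢ (univ : Finset (Fin w))).card ≤ (B.filter (fun v => ¬ (v = 0 ∨ v - 1 ∉ B))).card := by
    apply card_le_card_of_injOn (fun x => w * x.1.val + x.2.val + 1)
    · rintro ⟨i, a⟩ hx
      have hi := (mem_filter.mp (mem_product.mp hx).1).2
      have ha := a.2
      rw [mem_coe, mem_filter]
      refine ⟨?_, ?_⟩
      · exact hi ⟨a.val + 1, by omega⟩
      · rintro (h | h)
        · have h : w * i.val + a.val + 1 = 0 := h
          omega
        · exact h (hi ⟨a.val, by omega⟩)
    · rintro ⟨i, a⟩ - ⟨j, b⟩ - h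
      have h : w * i.val + a.val + 1 = w * j.val + b.val + 1 := h
      have ha := a.2
      have hb := b.2
      have hij : i.val = j.val := by
        rcases lt_trichotomy i.val j.val with h' | h' | h'
        · have h3 : w * (i.val + 1) ≤ w * j.val := Nat.mul_le_mul_left _ h'
          rw [Nat.mul_add, Nat.mul_one] at h3
          omega
        · exact h'
        · have h3 : w * (j.val + 1) ≤ w * i.val := Nat.mul_le_mul_left _ h'
          rw [Nat.mul_add, Nat.mul_one] at h3
          omega
      rw [hij] at h
      rw [Prod.mk.injEq]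
      exact ⟨Fin.ext hij, Fin.ext (by omega)⟩
  rw [card_product, card_univ, Fintype.card_fin, mul_comm] at h1
  have h2 := card_filter_add_card_filter_not (s := B) (fun v => v = 0 ∨ v - 1 ∉ B)
  unfold runs
  omega

theorem count_path2 (w L T : ℕ) (hT : w * T + 1 ≤ (w + 1) * L ∨ T = 0) (B : Finset ℕ) :
    w * (univ.filter (fun i : Fin T => ∀ a : Fin (w + 1), pos (w + 1) L (w * i.val + a.val) ∈ B)).card ≤ B.card := by
  set F := univ.filter (fun i : Fin T => ∀ a : Fin (w + 1), pos (w + 1) L (w * i.val + a.val) ∈ B) with hF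
  have h1 : (F ×ˢ (univ : Finset (Fin w))).card ≤ B.card := by
    apply card_le_card_of_injOn (fun x => pos (w + 1) L (w * x.1.val + x.2.val))
    · rintro ⟨i, a⟩ hx
      have hi := (mem_filter.mp (mem_product.mp hx).1).2
      exact hi a.castSucc
    · rintro ⟨i, a⟩ - ⟨j, b⟩ - h
      have ha := a.2
      have hb := b.2
      have hi := i.2
      have h3 : w * (i.val + 1) ≤ w * T := Nat.mul_le_mul_left _ i.2
      have h4 : w * (j.val + 1) ≤ w * T := Nat.mul_le_mul_left _ j.2
      rw [Nat.mul_add, Nat.mul_one] at h3 h4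
      have h := pos_inj (q := w + 1) (L := L) (x := w * i.val + a.val) (y := w * j.val + b.val)
        (by omega) (by omega) h
      have hij : i.val = j.val := by
        rcases lt_trichotomy i.val j.val with h' | h' | h'
        · have h3 : w * (i.val + 1) ≤ w * j.val := Nat.mul_le_mul_left _ h'
          rw [Nat.mul_add, Nat.mul_one] at h3
          omega
        · exact h'
        · have h3 : w * (j.val + 1) ≤ w * i.val := Nat.mul_le_mul_left _ h'
          rw [Nat.mul_add, Nat.mul_one] at h3
          omega
      rw [hij] at h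
      rw [Prod.mk.injEq]
      exact ⟨Fin.ext hij, Fin.ext (by omega)⟩
  rwa [card_product, card_univ, Fintype.card_fin, mul_comm] at h1

/-- potential argument: equally spaced points in a set with few runs -/
theorem count_spaced (N K : ℕ) (hN : 0 < N) (hK : 0 < K) (B : Finset ℕ) :
    N * ((range K).filter (fun k => k * N / K ∈ B)).card ≤ B.card * K + N * runs B := by
  let φ : ℕ → ℕ := fun v => (v * K + N - 1) / N
  let ψ : ℕ → ℤ := fun v => (N : ℤ) * φ v - v * K
  have hψ : ∀ v, 0 ≤ ψ v ∧ ψ v ≤ N - 1 := by
    intro v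
    have h1 := Nat.div_add_mod (v * K + N - 1) N
    have h2 := Nat.mod_lt (v * K + N - 1) hN
    have h3 : N * φ v + (v * K + N - 1) % N = v * K + N - 1 := h1
    generalize (v * K + N - 1) % N = z at h2 h3
    have h4 : N * φ v + z + 1 = v * K + N := by omega
    have h5 : (N : ℤ) * φ v + z + 1 = v * K + N := by exact_mod_cast h4
    simp only [ψ]
    constructor
    · have : (z : ℤ) < N := by exact_mod_cast h2
      linarith
    · have : (0 : ℤ) ≤ z := by positivity
      linarith
  have hfib : ∀ v, ((range K).filter (fun k => k * N / K = v)).card ≤ φ (v + 1) - φ v := by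
    intro v
    rw [← Nat.card_Ico]
    apply card_le_card
    intro k hk
    obtain ⟨-, hk⟩ := mem_filter.mp hk
    have h1 : v * K ≤ k * N := by rw [← hk]; exact Nat.div_mul_le_self _ _
    have h2 : k * N < (v + 1) * K := by
      rw [← hk]
      have := Nat.lt_div_mul_add (a := k * N) hK
      linarith
    rw [mem_Ico]
    constructor
    · have : φ v < k + 1 := by
        rw [Nat.div_lt_iff_lt_mul hN]
        rw [Nat.add_mul]
        omega
      omega
    · have : k + 1 ≤ φ (v + 1) := by
        rw [Nat.le_div_iff_mul_le hN]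
        rw [Nat.add_mul]
        omega
      omega
  have hmono : ∀ v, φ v ≤ φ (v + 1) := by
    intro v
    apply Nat.div_le_div_right
    have : v * K ≤ (v + 1) * K := Nat.mul_le_mul_right _ (by omega)
    omega
  have h1 : ((range K).filter (fun k => k * N / K ∈ B)).card ≤ ∑ v ∈ B, (φ (v + 1) - φ v) := by
    rw [card_eq_sum_card_fiberwise (s := (range K).filter (fun k => k * N / K ∈ B)) (f := fun k => k * N / K) (t := B)
      (fun k hk => (mem_filter.mp (mem_coe.mp hk)).2)]
    apply sum_le_sum
    intro v _
    refine le_trans (card_le_card ?_) (hfib v)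
    intro k hk
    obtain ⟨hk, hkv⟩ := mem_filter.mp hk
    exact mem_filter.mpr ⟨(mem_filter.mp hk).1, hkv⟩
  have h2 : ((∑ v ∈ B, (φ (v + 1) - φ v) : ℕ) : ℤ) * N = B.card * K + (∑ v ∈ B, ψ (v + 1) - ∑ v ∈ B, ψ v) := by
    rw [← sum_sub_distrib, card_eq_sum_ones]
    push_cast
    rw [sum_mul, sum_mul, ← sum_add_distrib]
    apply sum_congr rfl
    intro v _
    rw [Nat.cast_sub (hmono v)]
    simp only [ψ]
    push_cast
    ring
  set B' := B.image Nat.succ with hB'
  have h3 : ∑ v ∈ B, ψ (v + 1) = ∑ u ∈ B', ψ u := by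
    rw [hB', sum_image (fun a _ b _ h => Nat.succ_injective h)]
  have h4 : ∑ u ∈ B', ψ u - ∑ v ∈ B, ψ v = ∑ u ∈ B' \ B, ψ u - ∑ u ∈ B \ B', ψ u := by
    have e1 := sum_inter_add_sum_sdiff B' B ψ
    have e2 := sum_inter_add_sum_sdiff B B' ψ
    rw [inter_comm] at e2
    linarith
  have h5 : ∑ u ∈ B' \ B, ψ u ≤ (B' \ B).card * (N : ℤ) := by
    rw [card_eq_sum_ones]
    push_cast
    rw [sum_mul]
    apply sum_le_sum
    intro u _
    have := (hψ u).2
    linarith
  have h6 : 0 ≤ ∑ u ∈ B \ B', ψ u := sum_nonneg (fun u _ => (hψ u).1)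
  have h7 : (B' \ B).card = (B \ B').card := by
    apply card_sdiff_comm
    exact card_image_of_injective _ Nat.succ_injective
  have h8 : (B \ B').card = runs B := by
    unfold runs
    congr 1
    ext v
    rw [mem_sdiff, mem_filter]
    constructor
    · rintro ⟨hv, hv'⟩
      refine ⟨hv, ?_⟩
      by_contra h
      push Not at h
      exact hv' (mem_image.mpr ⟨v - 1, h.2, by have := h.1; omega⟩)
    · rintro ⟨hv, hv'⟩
      refine ⟨hv, ?_⟩
      intro h
      obtain ⟨u, hu, huv⟩ := mem_image.mp h
      rcases hv' with h0 | h0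
      · rw [h0] at huv; exact absurd huv (Nat.succ_ne_zero u)
      · apply h0
        rw [← huv]
        simpa using hu
  have h9 : (((range K).filter (fun k => k * N / K ∈ B)).card : ℤ) * N ≤ B.card * K + runs B * N := by
    have h10 : (((range K).filter (fun k => k * N / K ∈ B)).card : ℤ) * N ≤
        ((∑ v ∈ B, (φ (v + 1) - φ v) : ℕ) : ℤ) * N :=
      mul_le_mul_of_nonneg_right (by exact_mod_cast h1) (by positivity)
    rw [h2, h3, h4] at h10
    rw [h7, h8] at h5
    linarith
  have : ((range K).filter (fun k => k * N / K ∈ B)).card * N ≤ B.card * K + runs B * N := by exact_mod_cast h9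
  rw [mul_comm N, mul_comm N]
  exact this

end Pool.Agent.TH579.EC
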