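import Pool.Agent.TH579.ECOpt

/-! From redundancy functions to counterexamples to P(c,m): the two ways of joining the structure to infinity. -/

set_option autoImplicit false

namespace Pool.Agent.TH579.EC
open Finset
open Pool.Agent.Results.MP_ea54b6_co.Mod6 (PHolds choose_two_succ choose_two_mono)

theorem direct {V : Type} [Fintype V] [DecidableEq V] {f : Finset V → ℕ} (h : Real V f) {c m N0 : ℕ}
    (hV : Fintype.card V = N0) (hc : c + f univ = (N0 + 1).choose 2 + 1)
    (hA : ∀ A : Finset V, m + f A ≠ (A.card + 1).choose 2 + 1) : ¬ PHolds c m := by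
  obtain ⟨C, iC, k, hk, h1⟩ := h
  let k1 : V → Option (C ⊕ V) := fun x => some (Sum.inr x)
  let k2 : V → V → Option (C ⊕ V) := fun x y => (k x y).map Sum.inl
  have hseen : ∀ A : Finset V, (seenV k1 k2 A).card + f A = 1 + A.card + A.card.choose 2 := by
    intro A
    have e : seenV k1 k2 A = insert none (A.image k1 ∪ (cols k A).image (fun c => c.map Sum.inl)) := by
      ext c
      simp only [seenV, mem_insert, mem_union, mem_image, mem_cols, mem_offDiag, Prod.exists]
      constructor
      · rintro (h | h | ⟨x, y, ⟨hx, hy, hxy⟩, rfl⟩)
        · exact Or.inl h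
        · exact Or.inr (Or.inl h)
        · rcases hkk : k x y with _ | c
          · left; simp only [k2, hkk, Option.map_none]
          · right; right
            exact ⟨some c, ⟨by simp, x, hx, y, hy, hxy, hkk⟩, by simp only [k2, hkk]⟩
      · rintro (h | h | ⟨c, ⟨hc, x, hx, y, hy, hxy, rfl⟩, rfl⟩)
        · exact Or.inl h
        · exact Or.inr (Or.inl h)
        · right; right; exact ⟨x, y, ⟨hx, hy, hxy⟩, rfl⟩
    have hi1 : Function.Injective k1 := fun a b h => Sum.inr_injective (Option.some_injective _ h)
    have hi2 : Function.Injective (fun c : Option C => c.map (Sum.inl : C → C ⊕ V)) :=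
      Option.map_injective Sum.inl_injective
    rw [e, card_insert_of_notMem, card_union_of_disjoint, card_image_of_injective _ hi1,
      card_image_of_injective _ hi2]
    · have := h1 A
      omega
    · rw [disjoint_left]
      intro c hc hc'
      obtain ⟨x, hx, rfl⟩ := mem_image.mp hc
      obtain ⟨b, hb, h⟩ := mem_image.mp hc'
      rcases b with _ | b <;> simp [k1] at h
    · simp only [mem_union, mem_image, not_or]
      refine ⟨?_, ?_⟩
      · rintro ⟨x, hx, h⟩; simp [k1] at h
      · rintro ⟨b, hb, h⟩
        exact ((mem_cols _ _ _).mp hb).1 (Option.map_eq_none_iff.mp h)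
  apply keyV c m k1 k2 (fun x y => by simp only [k2, hk x y])
  · have := hseen univ
    rw [card_univ, hV] at this
    rw [choose_two_succ] at hc
    omega
  · intro A hcard
    have h6 := hseen A
    have h9 := choose_two_succ A.card
    have := hA A
    omega

theorem hub {V : Type} [Fintype V] [DecidableEq V] {f : Finset V → ℕ} (h : Real V f) {c m N0 : ℕ}
    (hV : Fintype.card V = N0) (hc : c + f univ = (N0 + 1).choose 2 + 2)
    (hA : ∀ A : Finset V, m + f A ≠ (A.card + 1).choose 2 + 2)
    (hB : ∀ A : Finset V, m + f A ≠ A.card.choose 2 + 2) (hm1 : 1 < m) : ¬ PHolds c m := by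
  obtain ⟨C, iC, k, hk, h1⟩ := h
  let k1 : Option V → Option ((C ⊕ V) ⊕ Unit) := fun _ => some (Sum.inr ())
  let k2 : Option V → Option V → Option ((C ⊕ V) ⊕ Unit) := fun x y =>
    match x, y with
    | some x, some y => (k x y).map (fun c => Sum.inl (Sum.inl c))
    | none, some y => some (Sum.inl (Sum.inr y))
    | some x, none => some (Sum.inl (Sum.inr x))
    | none, none => none
  have hi1 : Function.Injective (fun x : V => (some (Sum.inl (Sum.inr x)) : Option ((C ⊕ V) ⊕ Unit))) :=
    fun a b h => Sum.inr_injective (Sum.inl_injective (Option.some_injective _ h))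
  have hi2 : Function.Injective (fun c : Option C => c.map (fun c => (Sum.inl (Sum.inl c) : (C ⊕ V) ⊕ Unit))) :=
    Option.map_injective (fun a b h => Sum.inl_injective (Sum.inl_injective h))
  have hsym : ∀ x y, k2 x y = k2 y x := by
    rintro (_ | x) (_ | y)
    · rfl
    · rfl
    · rfl
    · simp only [k2, hk x y]
  have hin : ∀ A : Finset V, (seenV k1 k2 (insertNone A)).card + f A = 2 + A.card + A.card.choose 2 := by
    intro A
    have e : seenV k1 k2 (insertNone A) = insert none (insert (some (Sum.inr ())) (A.image
        (fun x : V => (some (Sum.inl (Sum.inr x)) : Option ((C ⊕ V) ⊕ Unit))) ∪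
        (cols k A).image (fun c => c.map (fun c => (Sum.inl (Sum.inl c) : (C ⊕ V) ⊕ Unit))))) := by
      ext c
      simp only [seenV, mem_insert, mem_union, mem_image, mem_cols, mem_offDiag, Prod.exists]
      constructor
      · rintro (h | ⟨x, hx, h⟩ | ⟨x, y, ⟨hx, hy, hxy⟩, rfl⟩)
        · exact Or.inl h
        · exact Or.inr (Or.inl h.symm)
        · rcases x with _ | x <;> rcases y with _ | y
          · exact absurd rfl hxy
          · right; right; left; exact ⟨y, by simpa using hy, rfl⟩
          · right; right; left; exact ⟨x, by simpa using hx, rfl⟩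
          · rcases hkk : k x y with _ | c
            · left; simp only [k2, hkk, Option.map_none]
            · right; right; right
              exact ⟨some c, ⟨by simp, x, by simpa using hx, y, by simpa using hy,
                fun h => hxy (by rw [h]), hkk⟩, by simp only [k2, hkk]⟩
      · rintro (h | h | ⟨x, hx, h⟩ | ⟨c, ⟨hc, x, hx, y, hy, hxy, rfl⟩, rfl⟩)
        · exact Or.inl h
        · right; left; exact ⟨none, by simp, h.symm⟩
        · right; right; exact ⟨none, some x, ⟨by simp, by simpa using hx, by simp⟩, h⟩
        · right; right; exact ⟨some x, some y, ⟨by simpa using hx, by simpa using hy, by simpa using hxy⟩, rfl⟩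
    rw [e, card_insert_of_notMem, card_insert_of_notMem, card_union_of_disjoint,
      card_image_of_injective _ hi1, card_image_of_injective _ hi2]
    · have := h1 A
      omega
    · rw [disjoint_left]
      intro c hc hc'
      obtain ⟨x, hx, rfl⟩ := mem_image.mp hc
      obtain ⟨b, hb, h⟩ := mem_image.mp hc'
      rcases b with _ | b <;> simp at h
    · simp only [mem_union, mem_image, not_or]
      refine ⟨?_, ?_⟩
      · rintro ⟨x, hx, h⟩; simp at h
      · rintro ⟨b, hb, h⟩
        rcases b with _ | b <;> simp at h
    · simp only [mem_insert, mem_union, mem_image, not_or]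
      refine ⟨by simp, ?_, ?_⟩
      · rintro ⟨x, hx, h⟩; simp at h
      · rintro ⟨b, hb, h⟩
        exact ((mem_cols _ _ _).mp hb).1 (Option.map_eq_none_iff.mp h)
  have hout : ∀ A : Finset (Option V), none ∉ A → A.Nonempty →
      (seenV k1 k2 A).card + f (eraseNone A) = 2 + (eraseNone A).card.choose 2 := by
    intro A hN hne
    have e : seenV k1 k2 A = insert none (insert (some (Sum.inr ()))
        ((cols k (eraseNone A)).image (fun c => c.map (fun c => (Sum.inl (Sum.inl c) : (C ⊕ V) ⊕ Unit))))) := by
      ext c
      simp only [seenV, mem_insert, mem_union, mem_image, mem_cols, mem_offDiag, Prod.exists]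
      constructor
      · rintro (h | ⟨x, hx, h⟩ | ⟨x, y, ⟨hx, hy, hxy⟩, rfl⟩)
        · exact Or.inl h
        · exact Or.inr (Or.inl h.symm)
        · rcases x with _ | x <;> rcases y with _ | y
          · exact absurd rfl hxy
          · exact absurd hx hN
          · exact absurd hy hN
          · rcases hkk : k x y with _ | c
            · left; simp only [k2, hkk, Option.map_none]
            · right; right
              exact ⟨some c, ⟨by simp, x, by simpa using hx, y, by simpa using hy,
                fun h => hxy (by rw [h]), hkk⟩, by simp only [k2, hkk]⟩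
      · rintro (h | h | ⟨c, ⟨hc, x, hx, y, hy, hxy, rfl⟩, rfl⟩)
        · exact Or.inl h
        · right; left; exact ⟨hne.choose, hne.choose_spec, h.symm⟩
        · right; right; exact ⟨some x, some y, ⟨by simpa using hx, by simpa using hy, by simpa using hxy⟩, rfl⟩
    rw [e, card_insert_of_notMem, card_insert_of_notMem, card_image_of_injective _ hi2]
    · have := h1 (eraseNone A)
      omega
    · simp only [mem_image]
      rintro ⟨b, hb, h⟩
      rcases b with _ | b <;> simp at h
    · simp only [mem_insert, mem_image, not_or]
      refine ⟨by simp, ?_⟩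
      rintro ⟨b, hb, h⟩
      exact ((mem_cols _ _ _).mp hb).1 (Option.map_eq_none_iff.mp h)
  apply keyV c m k1 k2 hsym
  · have h6 := hin univ
    rw [card_univ, hV] at h6
    have e : (insertNone (univ : Finset V)) = univ := by ext x; simp
    rw [e] at h6
    rw [choose_two_succ] at hc
    omega
  · intro A hcard
    by_cases hN : none ∈ A
    · have e : insertNone (eraseNone A) = A := by
        rw [insertNone_eraseNone, insert_eq_of_mem hN]
      have h6 := hin (eraseNone A)
      rw [e] at h6
      have h7 := hA (eraseNone A)
      have h9 := choose_two_succ (eraseNone A).card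
      omega
    · rcases A.eq_empty_or_nonempty with h0 | hne
      · subst h0
        have : (seenV k1 k2 ∅).card = 1 := by simp [seenV]
        omega
      · have h6 := hout A hN hne
        have h7 := hB (eraseNone A)
        omega

end Pool.Agent.TH579.EC
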