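import Pool.Agent.TH579.ECBlocks
import Pool.Agent.TH579.ECGen

/-! Cyclic systems of triangles and of planes on `ZMod v`. -/

set_option autoImplicit false

namespace Pool.Agent.TH579.EC
open Finset
open Pool.Agent.Results.MP_ea54b6_co.Mod6 (PHolds choose_two_succ choose_two_mono)

/-- the number of full blocks -/
def nfull {v b : ℕ} [NeZero v] (T : ℕ) (off : Fin b → ZMod v) (A : Finset (ZMod v)) : ℕ :=
  (univ.filter (fun i : Fin T => ∀ a, ((i : ℕ) : ZMod v) + off a ∈ A)).card

theorem cast_inj {v T : ℕ} (hT : T ≤ v) {i j : Fin T} (h : ((i : ℕ) : ZMod v) = ((j : ℕ) : ZMod v)) : i = j := by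
  rw [ZMod.natCast_eq_natCast_iff'] at h
  have hi := i.2
  have hj := j.2
  rw [Nat.mod_eq_of_lt (by omega), Nat.mod_eq_of_lt (by omega)] at h
  exact Fin.ext h

theorem nfull_lt {v b T : ℕ} [NeZero v] (hT : T < v) (off : Fin b → ZMod v) {a0 a1 : Fin b}
    (h0 : off a0 = 0) (h1 : off a1 = 1) (A : Finset (ZMod v)) (hA : A.Nonempty) :
    nfull T off A < A.card := by
  set F : Finset (ZMod v) := (univ.filter (fun i : Fin T => ∀ a, ((i : ℕ) : ZMod v) + off a ∈ A)).image
    (fun i : Fin T => ((i : ℕ) : ZMod v)) with hF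
  have hcard : F.card = nfull T off A := by
    rw [hF, card_image_of_injective]
    · rfl
    · intro i j h
      exact cast_inj hT.le h
  have hFA : F ⊆ A := by
    intro x hx
    obtain ⟨i, hi, rfl⟩ := mem_image.mp hx
    have := (mem_filter.mp hi).2 a0
    rwa [h0, add_zero] at this
  have hF1 : ∀ x ∈ F, x + 1 ∈ A := by
    intro x hx
    obtain ⟨i, hi, rfl⟩ := mem_image.mp hx
    have := (mem_filter.mp hi).2 a1
    rwa [h1] at this
  rw [← hcard]
  apply card_lt_card
  refine ⟨hFA, fun hAF => ?_⟩
  obtain ⟨x0, hx0⟩ := hA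
  have hstep : ∀ k : ℕ, x0 + (k : ZMod v) ∈ A := by
    intro k
    induction k with
    | zero => simpa using hx0
    | succ k ih =>
      have := hF1 _ (hAF ih)
      rwa [add_assoc, ← Nat.cast_succ] at this
  have huniv : A = univ := by
    rw [eq_univ_iff_forall]
    intro x
    have := hstep (x - x0).val
    rwa [ZMod.natCast_zmod_val, add_sub_cancel] at this
  have h2 : v ≤ F.card := by
    calc v = (univ : Finset (ZMod v)).card := by rw [card_univ, ZMod.card]
      _ ≤ F.card := card_le_card (by rw [← huniv]; exact hAF)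
  have h3 : nfull T off A ≤ T := by
    unfold nfull
    exact (card_le_univ _).trans (by simp)
  omega

theorem nfull_empty {v b T : ℕ} [NeZero v] (off : Fin b → ZMod v) (a0 : Fin b) :
    nfull T off (∅ : Finset (ZMod v)) = 0 := by
  unfold nfull
  rw [card_eq_zero, filter_eq_empty_iff]
  intro i _ h
  exact absurd (h a0) (notMem_empty _)

theorem nfull_univ {v b T : ℕ} [NeZero v] (off : Fin b → ZMod v) :
    nfull T off (univ : Finset (ZMod v)) = T := by
  unfold nfull
  simp

theorem term_eq {w b : ℕ} {D : Type} [DecidableEq D] (k : Fin b → Fin b → D)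
    (hw : ∀ B : Finset (Fin b), B.card.choose 2 - (cols (fun a a' => some (k a a')) B).card =
      if B = univ then w else 0)
    {v T : ℕ} [NeZero v] (off : Fin b → ZMod v) (A : Finset (ZMod v)) :
    (∑ i : Fin T, ((univ.filter (fun a => ((i : ℕ) : ZMod v) + off a ∈ A)).card.choose 2 -
      (cols (fun a a' => some (k a a')) (univ.filter (fun a => ((i : ℕ) : ZMod v) + off a ∈ A))).card))
      = w * nfull T off A := by
  unfold nfull
  rw [card_filter, mul_sum]
  apply sum_congr rfl
  intro i _
  rw [hw]
  by_cases h : ∀ a, ((i : ℕ) : ZMod v) + off a ∈ A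
  · rw [if_pos (filter_true_of_mem (fun a _ => h a)), if_pos h, mul_one]
  · rw [if_neg, if_neg h, mul_zero]
    intro h'
    exact h (fun a => (mem_filter.mp ((Finset.ext_iff.mp h' a).mpr (mem_univ a))).2)

/-- difference sets given by integer offsets -/
theorem real_cyc {w b : ℕ} {D : Type} [DecidableEq D] (k : Fin b → Fin b → D) (hk : ∀ a a', k a a' = k a' a)
    (hw : ∀ B : Finset (Fin b), B.card.choose 2 - (cols (fun a a' => some (k a a')) B).card =
      if B = univ then w else 0)
    (o : Fin b → ℤ) (L : ℤ) (hinj : ∀ a a', a ≠ a' → o a ≠ o a') (hL : ∀ a a', |o a - o a'| ≤ L)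
    (hdiff : ∀ a a' c c' : Fin b, a ≠ a' → o a - o a' = o c - o c' → a = c)
    {v T : ℕ} [NeZero v] (hv : 2 * L < v) (hT : T ≤ v) :
    Real (ZMod v) (fun A => w * nfull T (fun a => ((o a : ℤ) : ZMod v)) A) := by
  have key : ∀ z : ℤ, |z| < v → (z : ZMod v) = 0 → z = 0 := by
    intro z hz h
    rw [ZMod.intCast_zmod_eq_zero_iff_dvd] at h
    exact Int.eq_zero_of_abs_lt_dvd h hz
  have h := Real.blocks (ι := Fin T) (fun i a => ((i : ℕ) : ZMod v) + ((o a : ℤ) : ZMod v))
    (by
      intro i a a' h
      simp only [add_right_inj] at h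
      by_contra hne
      apply hinj a a' hne
      have h1 : ((o a - o a' : ℤ) : ZMod v) = 0 := by
        push_cast
        rw [h, sub_self]
      have h2 := key _ (by have := hL a a'; have := abs_nonneg (o a - o a'); omega) h1
      omega)
    (by
      intro i j a a' c c' hne h1 h2
      have h3 : ((o a - o a' - (o c - o c') : ℤ) : ZMod v) = 0 := by
        push_cast
        linear_combination h1 - h2
      have h4 := key _ (by
        have := hL a a'
        have := hL c c'
        have := abs_sub (o a - o a') (o c - o c')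
        omega) h3
      have h5 := hdiff a a' c c' hne (by omega)
      subst h5
      simp only [add_left_inj] at h1
      exact cast_inj hT h1)
    k hk
  simp only [term_eq k hw] at h
  exact h

theorem real_tri {v T : ℕ} [NeZero v] (hv : 7 ≤ v) (hT : T ≤ v) :
    Real (ZMod v) (fun A => 2 * nfull T (fun a => (((![0, 1, 3] : Fin 3 → ℤ) a : ℤ) : ZMod v)) A) := by
  apply real_cyc (D := Unit) (fun _ _ => ()) (fun _ _ => rfl) (by decide) _ 3 (by decide) (by decide)
    (by decide) (by omega) hT

def kpl (a a' : Fin 4) : ℕ := Nat.xor a a'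

theorem real_plane {v T : ℕ} [NeZero v] (hv : 13 ≤ v) (hT : T ≤ v) :
    Real (ZMod v) (fun A => 3 * nfull T (fun a => (((![0, 1, 4, 6] : Fin 4 → ℤ) a : ℤ) : ZMod v)) A) := by
  apply real_cyc (D := ℕ) kpl (by decide) (by decide) _ 6 (by decide) (by decide)
    (by decide) (by omega) hT

end Pool.Agent.TH579.EC
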