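import Pool.Agent.TH579.ECOpt

/-! Gadgets: robust cliques, cliques with a rainbow linear forest, small gadgets, and their combinations. -/

set_option autoImplicit false

namespace Pool.Agent.TH579.EC
open Finset
open Pool.Agent.Results.MP_ea54b6_co.Mod6 (PHolds choose_two_succ choose_two_mono)

/-- clique in the background colour with `j` robust extra colours -/
theorem has_clique (K j : ℕ) (hK : 3 ≤ K) (hj : j ≤ K) :
    Has K (K.choose 2 - j) (fun v => ∃ a c, a ≤ K ∧ c ≤ j ∧ v + c = a.choose 2 ∧ (K / 2 + 2 ≤ a → c = j)) := by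
  let k : Fin K → Fin K → Option ℕ := fun x y =>
    if (x.val + y.val) % K < j then some ((x.val + y.val) % K) else none
  have hs : ∀ x y, k x y = k y x := fun x y => by simp only [k, add_comm]
  have hsub : ∀ A : Finset (Fin K), cols k A ⊆ (range j).image some := by
    intro A c hc
    obtain ⟨h0, x, -, y, -, -, rfl⟩ := (mem_cols _ _ _).mp hc
    simp only [k] at h0 ⊢
    split_ifs at h0 ⊢ with h
    · exact mem_image.mpr ⟨_, mem_range.mpr h, rfl⟩
    · exact absurd rfl h0
  have hcj : ((range j).image (some : ℕ → Option ℕ)).card = j := by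
    rw [card_image_of_injective _ (Option.some_injective _), card_range]
  have hle : ∀ A : Finset (Fin K), (cols k A).card ≤ j := fun A => by
    have := card_le_card (hsub A); omega
  have hrob : ∀ A : Finset (Fin K), K / 2 + 2 ≤ A.card → (cols k A).card = j := by
    intro A hA
    apply le_antisymm (hle A)
    rw [← hcj]
    conv_lhs => rw [hcj]
    rw [← hcj]
    apply card_le_card
    intro c hc
    obtain ⟨i, hi, rfl⟩ := mem_image.mp hc
    rw [mem_range] at hi
    let φ : Fin K → ℕ := fun z => if z.val ≤ i then min z.val (i - z.val) else min z.val (i + K - z.val)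
    let T : Finset ℕ := range (i / 2 + 1) ∪ Ioc i ((i + K) / 2)
    have hT : T.card ≤ K / 2 + 1 := by
      refine (card_union_le _ _).trans ?_
      rw [card_range, Nat.card_Ioc]
      omega
    have hmap : ∀ z ∈ A, φ z ∈ T := by
      intro z _
      have hz := z.2
      simp only [φ, T, mem_union, mem_range, mem_Ioc]
      split_ifs with h
      · left
        rcases le_total z.val (i - z.val) with h' | h'
        · rw [min_eq_left h']; omega
        · rw [min_eq_right h']; omega
      · right
        rcases le_total z.val (i + K - z.val) with h' | h'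
        · rw [min_eq_left h']; omega
        · rw [min_eq_right h']; omega
    obtain ⟨x, hx, y, hy, hxy, hφ⟩ := exists_ne_map_eq_of_card_lt_of_maps_to (by omega : T.card < A.card) hmap
    have hxy' : x.val ≠ y.val := fun h => hxy (Fin.ext h)
    have hx2 := x.2
    have hy2 := y.2
    have hsum : (x.val + y.val) % K = i := by
      have : x.val + y.val = i ∨ x.val + y.val = i + K := by
        simp only [φ] at hφ
        split_ifs at hφ with h1 h2 h2
        · rcases le_total x.val (i - x.val) with h3 | h3 <;> rcases le_total y.val (i - y.val) with h4 | h4 <;>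
            simp only [min_eq_left, min_eq_right, h3, h4] at hφ <;> omega
        · rcases le_total x.val (i - x.val) with h3 | h3 <;> rcases le_total y.val (i + K - y.val) with h4 | h4 <;>
            simp only [min_eq_left, min_eq_right, h3, h4] at hφ <;> omega
        · rcases le_total x.val (i + K - x.val) with h3 | h3 <;> rcases le_total y.val (i - y.val) with h4 | h4 <;>
            simp only [min_eq_left, min_eq_right, h3, h4] at hφ <;> omega
        · rcases le_total x.val (i + K - x.val) with h3 | h3 <;>
            rcases le_total y.val (i + K - y.val) with h4 | h4 <;>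
            simp only [min_eq_left, min_eq_right, h3, h4] at hφ <;> omega
      rcases this with h | h
      · rw [h]; exact Nat.mod_eq_of_lt (by omega)
      · rw [h, Nat.add_mod_right]; exact Nat.mod_eq_of_lt (by omega)
    rw [mem_cols]
    refine ⟨by simp, x, hx, y, hy, hxy, ?_⟩
    simp only [k, hsum, if_pos hi]
  refine Has.of_sym k hs K _ _ (by simp) ?_ ?_
  · have h1 := hrob univ (by rw [card_univ, Fintype.card_fin]; omega)
    have h2 := card_cols_le k hs univ
    rw [card_univ, Fintype.card_fin] at h2
    omega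
  · intro A v h
    have h1 := card_le_univ A
    rw [Fintype.card_fin] at h1
    exact ⟨A.card, (cols k A).card, h1, hle A, by omega, hrob A⟩

/-- clique in the background colour with `j` extra colours on the edges of a linear forest spanning more than
`b` vertices -/
theorem has_path (K b j : ℕ) (hb : b + 2 ≤ K) (h1 : b < 2 * j) (h2 : j + 2 ≤ b) :
    Has K (K.choose 2 - j) (fun v => ∃ a c, a ≤ K ∧ c ≤ j ∧ v + c = a.choose 2 ∧ (a ≤ b → c < j)) := by
  let I : Finset ℕ := (range (b / 2 + 1)).image (fun x => 2 * x) ∪
    (range (j - (b / 2 + 1))).image (fun x => 2 * x + 1)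
  have hI : I.card = j := by
    rw [card_union_of_disjoint, card_image_of_injective _ (fun a b h => by omega),
      card_image_of_injective _ (fun a b h => by omega), card_range, card_range]
    · omega
    · rw [disjoint_left]
      intro a ha hb
      obtain ⟨x, -, hx⟩ := mem_image.mp ha
      obtain ⟨y, -, hy⟩ := mem_image.mp hb
      omega
  have hIK : ∀ x ∈ I, x + 1 < K := by
    intro x hx
    rcases mem_union.mp hx with h | h
    · obtain ⟨y, hy, rfl⟩ := mem_image.mp h
      rw [mem_range] at hy; omega
    · obtain ⟨y, hy, rfl⟩ := mem_image.mp h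
      rw [mem_range] at hy; omega
  let k : Fin K → Fin K → Option ℕ := fun x y =>
    if y.val = x.val + 1 ∧ x.val ∈ I then some x.val else
      if x.val = y.val + 1 ∧ y.val ∈ I then some y.val else none
  have hs : ∀ x y, k x y = k y x := by
    intro x y
    simp only [k]
    split_ifs with h3 h4 h4 <;> first | rfl | omega
  have hsub : ∀ A : Finset (Fin K), cols k A ⊆ I.image some := by
    intro A c hc
    obtain ⟨h0, x, -, y, -, -, rfl⟩ := (mem_cols _ _ _).mp hc
    simp only [k] at h0 ⊢
    split_ifs at h0 ⊢ with h h'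
    · exact mem_image.mpr ⟨_, h.2, rfl⟩
    · exact mem_image.mpr ⟨_, h'.2, rfl⟩
    · exact absurd rfl h0
  have hcI : (I.image (some : ℕ → Option ℕ)).card = j := by
    rw [card_image_of_injective _ (Option.some_injective _), hI]
  have hle : ∀ A : Finset (Fin K), (cols k A).card ≤ j := fun A => by
    have := card_le_card (hsub A); omega
  have hmem : ∀ A : Finset (Fin K), ∀ x (hx : x ∈ I), (some x ∈ cols k A ↔
      (⟨x, by have := hIK x hx; omega⟩ : Fin K) ∈ A ∧ (⟨x + 1, hIK x hx⟩ : Fin K) ∈ A) := by
    intro A x hx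
    rw [mem_cols]
    constructor
    · rintro ⟨-, u, hu, v, hv, -, h⟩
      simp only [k] at h
      split_ifs at h with h3 h4
      · have h5 : u.val = x := by simpa using h
        have e1 : u = ⟨x, by have := hIK x hx; omega⟩ := Fin.ext h5
        have e2 : v = ⟨x + 1, hIK x hx⟩ := Fin.ext (by simp only; omega)
        exact ⟨e1 ▸ hu, e2 ▸ hv⟩
      · have h5 : v.val = x := by simpa using h
        have e1 : v = ⟨x, by have := hIK x hx; omega⟩ := Fin.ext h5
        have e2 : u = ⟨x + 1, hIK x hx⟩ := Fin.ext (by simp only; omega)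
        exact ⟨e1 ▸ hv, e2 ▸ hu⟩
    · rintro ⟨hu, hv⟩
      refine ⟨by simp, _, hu, _, hv, ?_, ?_⟩
      · intro h; simp only [Fin.mk.injEq] at h; omega
      · simp [k, hx]
  have hlt : ∀ A : Finset (Fin K), A.card ≤ b → (cols k A).card < j := by
    intro A hA
    by_contra hcon
    have h3 : cols k A = I.image some := eq_of_subset_of_card_le (hsub A) (by rw [hcI]; omega)
    have h4 : (univ.filter (fun z : Fin K => z.val < 2 * (b / 2 + 1))) ⊆ A := by
      intro z hz
      have hz := (mem_filter.mp hz).2
      have h5 : 2 * (z.val / 2) ∈ I := mem_union_left _ (mem_image.mpr ⟨z.val / 2, mem_range.mpr (by omega), rfl⟩)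
      have h6 : some (2 * (z.val / 2)) ∈ cols k A := by rw [h3]; exact mem_image_of_mem _ h5
      obtain ⟨h7, h8⟩ := (hmem A _ h5).mp h6
      rcases Nat.mod_two_eq_zero_or_one z.val with h9 | h9
      · have : z = ⟨2 * (z.val / 2), by have := hIK _ h5; omega⟩ := Fin.ext (by simp only; omega)
        rw [this]; exact h7
      · have : z = ⟨2 * (z.val / 2) + 1, hIK _ h5⟩ := Fin.ext (by simp only; omega)
        rw [this]; exact h8
    have h5 := card_le_card h4
    have h6 : (univ.filter (fun z : Fin K => z.val < 2 * (b / 2 + 1))).card = 2 * (b / 2 + 1) := by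
      rw [Fin.card_filter_val_lt]
      omega
    omega
  have hfull : (cols k univ).card = j := by
    rw [← hcI]
    congr 1
    apply Subset.antisymm (hsub _)
    intro c hc
    obtain ⟨x, hx, rfl⟩ := mem_image.mp hc
    exact (hmem _ x hx).mpr ⟨mem_univ _, mem_univ _⟩
  refine Has.of_sym k hs K _ _ (by simp) ?_ ?_
  · have h2 := card_cols_le k hs univ
    rw [card_univ, Fintype.card_fin] at h2
    omega
  · intro A v h
    have h1 := card_le_univ A
    rw [Fintype.card_fin] at h1
    exact ⟨A.card, (cols k A).card, h1, hle A, by omega, hlt A⟩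

theorem has_one : Has 2 1 (fun v => v = 0 ∨ v = 1) := by
  let k : Fin 2 → Fin 2 → Option Unit := fun _ _ => none
  have h : ∀ A : Finset (Fin 2), A.card.choose 2 - (cols k A).card = 0 ∨
      A.card.choose 2 - (cols k A).card = 1 := by decide
  refine Has.of_sym k (fun _ _ => rfl) 2 1 _ (by simp) (by decide) ?_
  intro A v hv
  rcases h A with h | h <;> omega

theorem has_two : Has 3 2 (fun v => v = 0 ∨ v = 2) := by
  let k : Fin 3 → Fin 3 → Option Unit := fun _ _ => some ()
  have h : ∀ A : Finset (Fin 3), A.card.choose 2 - (cols k A).card = 0 ∨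
      A.card.choose 2 - (cols k A).card = 2 := by decide
  have h' := card_cols_le k (fun _ _ => rfl)
  refine Has.of_sym k (fun _ _ => rfl) 3 2 _ (by simp) (by decide) ?_
  intro A v hv
  rcases h A with h | h <;> omega

theorem has_three : Has 4 3 (fun v => v = 0 ∨ v = 3) := by
  let k : Fin 4 → Fin 4 → Option ℕ := fun x y => some (x.val ^^^ y.val)
  have h : ∀ A : Finset (Fin 4), A.card.choose 2 - (cols k A).card = 0 ∨
      A.card.choose 2 - (cols k A).card = 3 := by decide
  refine Has.of_sym k (fun x y => by simp only [k, Nat.xor_comm]) 4 3 _ (by simp) (by decide) ?_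
  intro A v hv
  rcases h A with h | h <;> omega

theorem has_zero : Has 0 0 (fun v => v = 0) := has_free 0

theorem has_ones (q : ℕ) : Has (2 * q) q (fun v => v ≤ q) := by
  induction q with
  | zero => exact has_zero.mono (fun x h => h.le)
  | succ q ih =>
    refine (ih.union has_one).mono ?_
    rintro v ⟨x, y, hx, hy, rfl⟩
    omega

theorem has_twos (q : ℕ) : Has (3 * q) (2 * q) (fun v => v % 2 = 0) := by
  induction q with
  | zero => exact has_zero.mono (fun x h => by simp [h])
  | succ q ih =>
    refine (ih.union has_two).mono ?_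
    rintro v ⟨x, y, hx, hy, rfl⟩
    omega

theorem has_threes (q : ℕ) : Has (4 * q) (3 * q) (fun v => v % 3 = 0) := by
  induction q with
  | zero => exact has_zero.mono (fun x h => by simp [h])
  | succ q ih =>
    refine (ih.union has_three).mono ?_
    rintro v ⟨x, y, hx, hy, rfl⟩
    omega

theorem petal2 (E y : ℕ) (hE : E % 2 = 0) (hy : y % 2 = 1) : ∃ n ≤ 2 * E, Has n E (fun v => v ≠ y) := by
  refine ⟨3 * (E / 2), by omega, ?_⟩
  have := (has_twos (E / 2)).mono (Q := fun v => v ≠ y) (fun v hv => by omega)
  rwa [show 2 * (E / 2) = E by omega] at this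

theorem petal3 (E y : ℕ) (hy : y % 3 ≠ 0) (hEy : y % 3 ≠ E % 3) :
    ∃ n ≤ 2 * E, Has n E (fun v => v ≠ y) := by
  have h := has_threes (E / 3)
  have h3 : E % 3 = 0 ∨ E % 3 = 1 ∨ E % 3 = 2 := by omega
  rcases h3 with h3 | h3 | h3
  · refine ⟨4 * (E / 3), by omega, ?_⟩
    have := h.mono (Q := fun v => v ≠ y) (fun v hv => by omega)
    rwa [show 3 * (E / 3) = E by omega] at this
  · refine ⟨4 * (E / 3) + 2, by omega, ?_⟩
    have := (h.union has_one).mono (Q := fun v => v ≠ y) (by
      rintro v ⟨x, z, hx, hz, rfl⟩; omega)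
    rwa [show 3 * (E / 3) + 1 = E by omega] at this
  · refine ⟨4 * (E / 3) + 3, by omega, ?_⟩
    have := (h.union has_two).mono (Q := fun v => v ≠ y) (by
      rintro v ⟨x, z, hx, hz, rfl⟩; omega)
    rwa [show 3 * (E / 3) + 2 = E by omega] at this

/-- there is a structure of total redundancy `r` on few vertices, no subset of which has redundancy `δ` -/
def Avoid (r δ : ℕ) : Prop := ∃ n ≤ r + 1, Has n r (fun v => v ≠ δ)

theorem avoid_clique (K j r δ : ℕ) (hK : 3 ≤ K) (hj : j ≤ K) (hr : r + j = K.choose 2) (hn : K ≤ r + 1)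
    (hna : ∀ a ≤ K, a.choose 2 ≠ δ + j) (hlow : (K / 2 + 1).choose 2 < δ) : Avoid r δ := by
  refine ⟨K, hn, ?_⟩
  have h := (has_clique K j hK hj).mono (Q := fun v => v ≠ δ) (by
    rintro v ⟨a, c, ha, hc, hv, hrob⟩ rfl
    by_cases h : K / 2 + 2 ≤ a
    · exact hna a ha (by rw [← hv, hrob h])
    · have := choose_two_mono (show a ≤ K / 2 + 1 by omega)
      omega)
  rwa [show K.choose 2 - j = r by omega] at h

theorem avoid_path (K b j r δ : ℕ) (hb : b + 2 ≤ K) (h1 : b < 2 * j) (h2 : j + 2 ≤ b)
    (hr : r + j = K.choose 2) (hδ : δ + j = b.choose 2) (hn : K ≤ r + 1) : Avoid r δ := by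
  refine ⟨K, hn, ?_⟩
  have h := (has_path K b j hb h1 h2).mono (Q := fun v => v ≠ δ) (by
    rintro v ⟨a, c, ha, hc, hv, hrob⟩ rfl
    rcases lt_trichotomy a b with h | h | h
    · have h3 := choose_two_mono (show a ≤ b - 1 by omega)
      have h4 := choose_two_succ (b - 1)
      rw [show b - 1 + 1 = b by omega] at h4
      omega
    · subst h
      have := hrob le_rfl
      omega
    · have h3 := choose_two_mono (show b + 1 ≤ a by omega)
      have h4 := choose_two_succ b
      omega)
  rwa [show K.choose 2 - j = r by omega] at h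

theorem avoid_cliqueF (k j E nF x β r δ : ℕ) (hk : 3 ≤ k) (hj : j ≤ 1) (hF : Has nF E (fun v => v ≠ x))
    (hr : r + j = k.choose 2 + E) (hn : k + nF ≤ r + 1) (h1 : δ + j = (β + 1).choose 2 + x)
    (h2 : δ + j < (β + 2).choose 2) (h3 : β.choose 2 + E < δ) (h4 : j = 0 ∨ k / 2 + 2 ≤ β + 1) :
    Avoid r δ := by
  refine ⟨k + nF, hn, ?_⟩
  have hjk : j ≤ k.choose 2 := by
    have := choose_two_mono hk
    have : (3 : ℕ).choose 2 = 3 := by decide
    omega
  have h := ((has_clique k j hk (by omega)).union hF.le).mono (Q := fun v => v ≠ δ) (by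
    rintro v ⟨w, y, ⟨a, c, ha, hc, hv, hrob⟩, ⟨hy, hyE⟩, rfl⟩ hδ
    rcases lt_trichotomy a (β + 1) with h | h | h
    · have := choose_two_mono (show a ≤ β by omega)
      omega
    · subst h
      rcases h4 with h4 | h4
      · omega
      · have := hrob h4
        omega
    · have := choose_two_mono (show β + 2 ≤ a by omega)
      omega)
  rwa [show k.choose 2 - j + E = r by omega] at h

end Pool.Agent.TH579.EC
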