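import Pool.Agent.TH579.ECSparse

/-! Gadgets whose redundancies jump over many values of a residue class. -/

set_option autoImplicit false

namespace Pool.Agent.TH579.EC
open Finset

/-- colouring of the complete graph on `Fin s` given by the list of the colours of the pairs
`{0,1}, {0,2}, {1,2}, {0,3}, ...` -/
def lk (l : List ℕ) (s : ℕ) (x y : Fin s) : Option ℕ :=
  some (l.getD (max x.val y.val * (max x.val y.val - 1) / 2 + min x.val y.val) 0)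

theorem lk_symm (l : List ℕ) (s : ℕ) (x y : Fin s) : lk l s x y = lk l s y x := by
  unfold lk
  rw [max_comm, min_comm]

theorem has_g5 : HasC 4 5 (fun a v => (v % 2 = 0 ∨ v = 5) ∧ v ≤ a + 1) :=
  HasC.of_sym (lk [0,0,0,0,0,0] 4) (lk_symm _ _) 4 5 _ (by simp) (by decide +kernel) (by decide +kernel)

theorem has_g7 : HasC 6 7 (fun a v => (v % 2 = 0 ∨ v = 7) ∧ v ≤ a + 1) :=
  HasC.of_sym (lk [0, 0,0, 2,3,4, 3,2,5,1, 4,5,2,6,7] 6) (lk_symm _ _) 6 7 _ (by simp) (by decide +kernel)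
    (by decide +kernel)

theorem has_g9 : HasC 6 9 (fun a v => (v % 2 = 0 ∨ v = 9) ∧ v ≤ a + 3) :=
  HasC.of_sym (lk [0, 0,0, 2,3,4, 3,2,5,1, 4,5,2,1,1] 6) (lk_symm _ _) 6 9 _ (by simp) (by decide +kernel)
    (by decide +kernel)

theorem has_g11 : HasC 6 11 (fun a v => (v % 2 = 0 ∨ v = 11) ∧ v ≤ a + 5) :=
  HasC.of_sym (lk [0, 0,0, 1,2,3, 2,3,1,0, 3,1,2,0,0] 6) (lk_symm _ _) 6 11 _ (by simp) (by decide +kernel)
    (by decide +kernel)

theorem has_g8 : HasC 6 8 (fun a v => (v = 0 ∨ v = 3 ∨ v = 8) ∧ v ≤ a + 2) :=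
  HasC.of_sym (fun x y : Fin 6 => some (x.val ^^^ y.val)) (fun x y => by simp only [Nat.xor_comm]) 6 8 _ (by simp)
    (by decide +kernel) (by decide +kernel)

theorem has_g17 : HasC 8 17 (fun a v => (v % 3 ≠ 2 ∨ v = 17) ∧ v ≤ a + 9) :=
  HasC.of_sym (lk [0, 1,2, 3,4,5, 0,6,7,8, 0,6,8,7,5, 6,0,9,10,0,0, 6,0,10,9,0,0,5] 8) (lk_symm _ _) 8 17 _
    (by simp) (by decide +kernel) (by decide +kernel)

theorem has_g20 : HasC 9 20 (fun a v => (v % 3 ≠ 2 ∨ v = 20) ∧ v ≤ a + 11) :=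
  HasC.of_sym (lk [0, 1,2, 1,2,0, 2,1,1,2, 3,4,5,6,7, 4,3,6,7,5,3, 8,9,10,11,12,13,14, 9,8,11,12,10,14,15,8] 9)
    (lk_symm _ _) 9 20 _ (by simp) (by decide +kernel) (by decide +kernel)

theorem has_g19 : HasC 10 19 (fun a v => (v % 3 ≠ 1 ∨ v = 19) ∧ v ≤ a + 9) :=
  HasC.of_sym (lk [0, 1,2, 2,1,3, 4,5,6,7, 6,7,8,9,1, 10,11,12,13,14,15, 12,13,10,11,15,14,16, 17,18,19,20,21,22,23,24,
    19,20,17,18,22,21,24,23,25] 10) (lk_symm _ _) 10 19 _ (by simp) (by decide +kernel) (by decide +kernel)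

end Pool.Agent.TH579.EC
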