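import Pool.Agent.TH579.ECBasic

/-! Redundancy of colourings; unions; basic gadgets. -/

set_option autoImplicit false

namespace Pool.Agent.TH579.EC
open Finset
open Pool.Agent.Results.MP_ea54b6_co.Mod6 (PHolds choose_two_succ choose_two_mono)

/-- the colours other than `none` on the pairs of `A` -/
def cols {V C : Type} [DecidableEq V] [DecidableEq C] (k : V → V → Option C) (A : Finset V) :
    Finset (Option C) :=
  (A.offDiag.image (fun p => k p.1 p.2)).erase none

theorem mem_cols {V C : Type} [DecidableEq V] [DecidableEq C] (k : V → V → Option C) (A : Finset V)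
    (c : Option C) : c ∈ cols k A ↔ c ≠ none ∧ ∃ x ∈ A, ∃ y ∈ A, x ≠ y ∧ k x y = c := by
  simp only [cols, mem_erase, mem_image, mem_offDiag, Prod.exists]
  constructor
  · rintro ⟨h, x, y, ⟨hx, hy, hxy⟩, hk⟩
    exact ⟨h, x, hx, y, hy, hxy, hk⟩
  · rintro ⟨h, x, hx, y, hy, hxy, hk⟩
    exact ⟨h, x, y, ⟨hx, hy, hxy⟩, hk⟩

/-- `f` is the redundancy function of some colouring of the complete graph on `V` -/
def Real (V : Type) [DecidableEq V] (f : Finset V → ℕ) : Prop :=
  ∃ (C : Type) (_ : DecidableEq C) (k : V → V → Option C), (∀ x y, k x y = k y x) ∧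
    ∀ A : Finset V, (cols k A).card + f A = A.card.choose 2

theorem card_cols_le {V C : Type} [DecidableEq V] [DecidableEq C] (k : V → V → Option C)
    (hs : ∀ x y, k x y = k y x) (A : Finset V) : (cols k A).card ≤ A.card.choose 2 := by
  rw [← Sym2.card_image_offDiag]
  have : A.offDiag.image (fun p => k p.1 p.2) =
      (A.offDiag.image (fun p : V × V => s(p.1, p.2))).image (Sym2.lift ⟨k, hs⟩) := by
    rw [image_image]; rfl
  unfold cols
  refine (card_le_card (erase_subset _ _)).trans ?_
  rw [this]
  exact card_image_le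

theorem real_of_sym {V C : Type} [DecidableEq V] [DecidableEq C] (k : V → V → Option C)
    (hs : ∀ x y, k x y = k y x) : Real V (fun A => A.card.choose 2 - (cols k A).card) :=
  ⟨C, inferInstance, k, hs, fun A => by
    have := card_cols_le k hs A
    show (cols k A).card + (A.card.choose 2 - (cols k A).card) = _
    omega⟩

/-- there is a structure on `n` vertices of total redundancy `r`, all of whose redundancies satisfy `P` -/
def Has (n r : ℕ) (P : ℕ → Prop) : Prop :=
  ∃ (V : Type) (_ : Fintype V) (_ : DecidableEq V) (f : Finset V → ℕ), Real V f ∧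
    Fintype.card V = n ∧ f univ = r ∧ ∀ A, P (f A)

theorem Has.mono {n r : ℕ} {P Q : ℕ → Prop} (h : Has n r P) (hPQ : ∀ x, P x → Q x) : Has n r Q := by
  obtain ⟨V, i1, i2, f, h1, h2, h3, h4⟩ := h
  exact ⟨V, i1, i2, f, h1, h2, h3, fun A => hPQ _ (h4 A)⟩

theorem add_choose_two' (a b : ℕ) : (a + b).choose 2 = a.choose 2 + b.choose 2 + a * b := by
  induction b with
  | zero => simp
  | succ b ih =>
    rw [← add_assoc, choose_two_succ, ih, choose_two_succ]
    ring

theorem Real.union {V W : Type} [DecidableEq V] [DecidableEq W] {f : Finset V → ℕ} {g : Finset W → ℕ}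
    (hf : Real V f) (hg : Real W g) :
    Real (V ⊕ W) (fun A => f A.toLeft + g A.toRight) := by
  obtain ⟨C, iC, k, hk, hf⟩ := hf
  obtain ⟨D, iD, l, hl, hg⟩ := hg
  let K : V ⊕ W → V ⊕ W → Option (C ⊕ D ⊕ (V × W)) := fun x y =>
    match x, y with
    | Sum.inl x, Sum.inl y => (k x y).map Sum.inl
    | Sum.inr x, Sum.inr y => (l x y).map (fun d => Sum.inr (Sum.inl d))
    | Sum.inl x, Sum.inr y => some (Sum.inr (Sum.inr (x, y)))
    | Sum.inr y, Sum.inl x => some (Sum.inr (Sum.inr (x, y)))
  refine ⟨C ⊕ D ⊕ (V × W), inferInstance, K, ?_, ?_⟩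
  · rintro (x | x) (y | y)
    · simp only [K, hk x y]
    · rfl
    · rfl
    · simp only [K, hl x y]
  · intro A
    have hi1 : Function.Injective (fun c : Option C => c.map (Sum.inl : C → C ⊕ D ⊕ (V × W))) :=
      Option.map_injective Sum.inl_injective
    have hi2 : Function.Injective (fun c : Option D =>
        c.map (fun d => (Sum.inr (Sum.inl d) : C ⊕ D ⊕ (V × W)))) :=
      Option.map_injective (fun a b h => Sum.inl_injective (Sum.inr_injective h))
    have hi3 : Function.Injective (fun p : V × W => (some (Sum.inr (Sum.inr p)) : Option (C ⊕ D ⊕ (V × W)))) :=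
      fun a b h => Sum.inr_injective (Sum.inr_injective (Option.some_injective _ h))
    have e : cols K A = ((cols k A.toLeft).image (fun c => c.map Sum.inl) ∪
        (cols l A.toRight).image (fun c => c.map (fun d => Sum.inr (Sum.inl d)))) ∪
        (A.toLeft ×ˢ A.toRight).image (fun p => some (Sum.inr (Sum.inr p))) := by
      ext c
      simp only [mem_cols, mem_union, mem_image, mem_product, mem_toLeft, mem_toRight, Prod.exists]
      constructor
      · rintro ⟨hc, (x | x), hx, (y | y), hy, hxy, rfl⟩
        · left; left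
          refine ⟨k x y, ⟨?_, x, hx, y, hy, fun h => hxy (by rw [h]), rfl⟩, rfl⟩
          intro h; apply hc; simp only [K, h, Option.map_none]
        · right; exact ⟨x, y, ⟨hx, hy⟩, rfl⟩
        · right; exact ⟨y, x, ⟨hy, hx⟩, rfl⟩
        · left; right
          refine ⟨l x y, ⟨?_, x, hx, y, hy, fun h => hxy (by rw [h]), rfl⟩, rfl⟩
          intro h; apply hc; simp only [K, h, Option.map_none]
      · rintro ((⟨c, ⟨hc, x, hx, y, hy, hxy, rfl⟩, rfl⟩ | ⟨c, ⟨hc, x, hx, y, hy, hxy, rfl⟩, rfl⟩) |
          ⟨x, y, ⟨hx, hy⟩, rfl⟩)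
        · refine ⟨?_, Sum.inl x, hx, Sum.inl y, hy, fun h => hxy (Sum.inl_injective h), rfl⟩
          intro h; exact hc (Option.map_eq_none_iff.mp h)
        · refine ⟨?_, Sum.inr x, hx, Sum.inr y, hy, fun h => hxy (Sum.inr_injective h), rfl⟩
          intro h; exact hc (Option.map_eq_none_iff.mp h)
        · exact ⟨by simp, Sum.inl x, hx, Sum.inr y, hy, by simp, rfl⟩
    have hd1 : Disjoint ((cols k A.toLeft).image (fun c => c.map (Sum.inl : C → C ⊕ D ⊕ (V × W))))
        ((cols l A.toRight).image (fun c => c.map (fun d => (Sum.inr (Sum.inl d) : C ⊕ D ⊕ (V × W))))) := by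
      rw [disjoint_left]
      intro c h1 h2
      obtain ⟨a, ha, rfl⟩ := mem_image.mp h1
      obtain ⟨b, hb, h⟩ := mem_image.mp h2
      have ha0 := ((mem_cols _ _ _).mp ha).1
      rcases a with _ | a
      · exact ha0 rfl
      · rcases b with _ | b
        · simp at h
        · simp at h
    have hd2 : Disjoint (((cols k A.toLeft).image (fun c => c.map (Sum.inl : C → C ⊕ D ⊕ (V × W)))) ∪
        ((cols l A.toRight).image (fun c => c.map (fun d => (Sum.inr (Sum.inl d) : C ⊕ D ⊕ (V × W))))))
        ((A.toLeft ×ˢ A.toRight).image (fun p => some (Sum.inr (Sum.inr p)))) := by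
      rw [disjoint_left]
      intro c h1 h2
      obtain ⟨p, hp, rfl⟩ := mem_image.mp h2
      rcases mem_union.mp h1 with h | h
      · obtain ⟨a, ha, h⟩ := mem_image.mp h
        rcases a with _ | a <;> simp at h
      · obtain ⟨a, ha, h⟩ := mem_image.mp h
        rcases a with _ | a <;> simp at h
    rw [e, card_union_of_disjoint hd2, card_union_of_disjoint hd1, card_image_of_injective _ hi1,
      card_image_of_injective _ hi2, card_image_of_injective _ hi3, card_product]
    have h1 := hf A.toLeft
    have h2 := hg A.toRight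
    have h3 : A.toLeft.card + A.toRight.card = A.card := card_toLeft_add_card_toRight
    have h4 := add_choose_two' A.toLeft.card A.toRight.card
    rw [h3] at h4
    show _ + (f A.toLeft + g A.toRight) = _
    omega

theorem Has.union {n r s t : ℕ} {P Q : ℕ → Prop} (h : Has n r P) (h' : Has s t Q) :
    Has (n + s) (r + t) (fun v => ∃ x y, P x ∧ Q y ∧ v = x + y) := by
  obtain ⟨V, i1, i2, f, h1, h2, h3, h4⟩ := h
  obtain ⟨W, j1, j2, g, g1, g2, g3, g4⟩ := h'
  refine ⟨V ⊕ W, inferInstance, inferInstance, _, h1.union g1, ?_, ?_, ?_⟩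
  · rw [Fintype.card_sum, h2, g2]
  · have e1 : (univ : Finset (V ⊕ W)).toLeft = univ := by ext x; simp
    have e2 : (univ : Finset (V ⊕ W)).toRight = univ := by ext x; simp
    simp only [e1, e2, h3, g3]
  · intro A
    exact ⟨_, _, h4 _, g4 _, rfl⟩

theorem Has.of_sym {V C : Type} [Fintype V] [DecidableEq V] [DecidableEq C] (k : V → V → Option C)
    (hs : ∀ x y, k x y = k y x) (n r : ℕ) (P : ℕ → Prop) (hn : Fintype.card V = n)
    (hr : (cols k univ).card + r = n.choose 2)
    (hP : ∀ A : Finset V, ∀ v, (cols k A).card + v = A.card.choose 2 → P v) : Has n r P := by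
  refine ⟨V, inferInstance, inferInstance, _, real_of_sym k hs, hn, ?_, ?_⟩
  · rw [card_univ, hn]; omega
  · intro A
    have := card_cols_le k hs A
    exact hP A _ (by omega)

/-- vertices carrying no redundancy -/
theorem has_free (s : ℕ) : Has s 0 (fun v => v = 0) := by
  let k : Fin s → Fin s → Option (Fin s × Fin s) := fun x y => some (min x y, max x y)
  have hcard : ∀ A : Finset (Fin s), (cols k A).card = A.card.choose 2 := by
    intro A
    rw [← Sym2.card_image_offDiag]
    have h1 : cols k A = A.offDiag.image (fun p => k p.1 p.2) := by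
      unfold cols
      rw [erase_eq_of_notMem]
      simp [k]
    have h2 : A.offDiag.image (fun p => k p.1 p.2) =
      (A.offDiag.image (fun p : Fin s × Fin s => s(p.1, p.2))).image
        (Sym2.lift ⟨k, fun x y => by simp only [k, min_comm, max_comm]⟩) := by
      rw [image_image]; rfl
    have hinj : Function.Injective
        (Sym2.lift ⟨k, fun x y => by simp only [k, min_comm, max_comm]⟩ : Sym2 (Fin s) → _) := by
      intro a b
      induction a using Sym2.ind with | _ a a' =>
      induction b using Sym2.ind with | _ b b' =>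
      simp only [Sym2.lift_mk, k, Option.some.injEq, Prod.mk.injEq, Sym2.eq_iff]
      rintro ⟨h3, h4⟩
      rcases le_total a a' with h | h <;> rcases le_total b b' with h' | h' <;>
        simp only [min_eq_left, min_eq_right, max_eq_left, max_eq_right, h, h'] at h3 h4 <;> simp [h3, h4]
    rw [h1, h2, card_image_of_injective _ hinj]
    rfl
  refine Has.of_sym k (fun x y => by simp only [k, min_comm, max_comm]) s 0 _ (by simp) ?_ ?_
  · rw [hcard, card_univ, Fintype.card_fin, Nat.add_zero]
  · intro A v h
    rw [hcard] at h; omega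

theorem Has.extend {n r N : ℕ} {P : ℕ → Prop} (h : Has n r P) (hN : n ≤ N) : Has N r P := by
  have := (h.union (has_free (N - n))).mono (Q := P) (by
    rintro v ⟨x, y, hx, hy, rfl⟩
    rw [hy]; simpa using hx)
  rwa [show n + (N - n) = N by omega, Nat.add_zero] at this

end Pool.Agent.TH579.EC
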