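import Pool.Agent.TH579.ECStruct

/-! Instances: few extra blocks, equally spaced extra blocks. -/

set_option autoImplicit false

namespace Pool.Agent.TH579.EC
open Finset

/-- four vertices, full redundancy `s` -/
def k3 (s : ℕ) (a a' : Fin 4) : ℕ :=
  if s ≤ 2 ∧ a.val + a'.val = 3 ∧ a.val ≠ 0 ∧ a'.val ≠ 0 then 4
  else if s ≤ 1 ∧ a.val + a'.val = 4 ∧ a.val ≠ a'.val then 5 else Nat.xor a a'

theorem k3_symm (s : ℕ) : ∀ a a', k3 s a a' = k3 s a' a := by
  intro a a'
  unfold k3
  rw [show a'.val + a.val = a.val + a'.val from add_comm _ _, show Nat.xor a' a = Nat.xor a a' from Nat.xor_comm _ _]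
  congr 1
  · simp only [eq_iff_iff]; tauto
  · congr 1
    simp only [ne_comm]

theorem k3_red (s : ℕ) (h1 : 1 ≤ s) (h3 : s ≤ 3) : ∀ B : Finset (Fin 4), B.card.choose 2 -
    (cols (fun a a' => some (k3 s a a')) B).card = if B = univ then s else 0 := by
  rcases (show s = 1 ∨ s = 2 ∨ s = 3 by omega) with rfl | rfl | rfl <;> decide

theorem k2_red : ∀ B : Finset (Fin 3), B.card.choose 2 -
    (cols (fun _ _ => some 0) B).card = if B = univ then 2 else 0 := by decide

/-- two paths and at most three extra blocks -/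
theorem two_paths {N R : ℕ} (hN : 45 ≤ N) (hR1 : N ≤ R) (hR2 : R ≤ 2 * N) :
    HasC N R (fun a v => (v % 3 = 0 ∨ v % 3 = R % 3) ∧ v ≤ 2 * a + 9) := by
  obtain ⟨B, s, hs1, hs3, hBs⟩ : ∃ B s, 1 ≤ s ∧ s ≤ 3 ∧ R + 3 = 3 * B + s :=
    ⟨(R + 2) / 3, R + 3 - 3 * ((R + 2) / 3), by omega, by omega, by omega⟩
  set T1 := (N - 1) / 3 with hT1
  set T2 := min ((4 * (N / 4) - 1) / 3) (B - T1) with hT2
  set Tx := B - T1 - T2 with hTx
  have e2 : T2 ≤ (4 * (N / 4) - 1) / 3 := min_le_left _ _
  have e3 : T2 ≤ B - T1 := min_le_right _ _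
  have e4 : T2 = (4 * (N / 4) - 1) / 3 ∨ T2 = B - T1 := min_choice _ _
  clear_value T2
  have hTx3 : Tx ≤ 3 := by omega
  have hT2' : T2 ≠ 0 := by omega
  have hB : B = T1 + (T2 + Tx) := by omega
  obtain ⟨f, hf, hu, hA⟩ := path_struct (w := 3) (s := s) (N := N) (L := N / 4) (T1 := T1) (T2 := T2) (Tx := Tx)
    (ex := fun i a => i.val + 5 * a.val) (by omega) hs3 (by omega) (by omega) (by omega) (by omega)
    (by omega)
    (by
      intro i a
      have h1 := i.2
      have h2 := a.2
      show i.val + 5 * a.val < N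
      omega)
    (by
      intro i a a' hne
      have hne' : a.val ≠ a'.val := fun h => hne (Fin.ext h)
      have h2 := a.2
      have h3 := a'.2
      refine ⟨?_, fun _ => ⟨?_, ?_⟩⟩
      · unfold nd; omega
      · intro t ht1 ht2
        unfold nd; omega
      · unfold nd; omega)
    (by
      intro i j a a' c c' _ h _
      have h1 := i.2
      have h2 := j.2
      have h3 : i.val + 5 * a.val = j.val + 5 * c.val := h
      exact Fin.ext (by omega))
    (k3 3) (k3 s) (k3_symm _) (k3_symm _) (k3_red 3 (by omega) (by omega)) (k3_red s hs1 hs3)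
  refine ⟨Fin N, inferInstance, inferInstance, f, hf, by simp, by omega, ?_⟩
  intro A
  obtain ⟨h1, h2⟩ := hA A
  refine ⟨?_, ?_⟩
  · rcases h1 with h1 | h1
    · exact Or.inl h1
    · right; omega
  · rw [if_neg hT2'] at h2
    have h3 : (univ.filter (fun i : Fin Tx => ∀ a : Fin (3 + 1), i.val + 5 * a.val ∈ A.map Fin.valEmbedding)).card ≤
        Tx := (card_le_univ _).trans (by simp)
    omega

/-- the equally spaced extra blocks -/
def spc (w N Tx : ℕ) (i : Fin Tx) (a : Fin (w + 1)) : ℕ := (i.val + a.val * Tx) * N / ((w + 1) * Tx)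

theorem spc_inj {w N Tx k l : ℕ} (hTx : 0 < Tx) (hK : (w + 1) * Tx ≤ N)
    (h : k * N / ((w + 1) * Tx) = l * N / ((w + 1) * Tx)) : k = l := by
  have hK0 : 0 < (w + 1) * Tx := by positivity
  have key : ∀ x y : ℕ, x < y → x * N / ((w + 1) * Tx) < y * N / ((w + 1) * Tx) := by
    intro x y hxy
    have h1 : x * N + (w + 1) * Tx ≤ y * N := by
      have : (x + 1) * N ≤ y * N := Nat.mul_le_mul_right _ hxy
      rw [Nat.add_mul, Nat.one_mul] at this
      omega
    calc x * N / ((w + 1) * Tx) < x * N / ((w + 1) * Tx) + 1 := Nat.lt_succ_self _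
      _ = (x * N + (w + 1) * Tx) / ((w + 1) * Tx) := (Nat.add_div_right _ hK0).symm
      _ ≤ y * N / ((w + 1) * Tx) := Nat.div_le_div_right h1
  rcases lt_trichotomy k l with h' | h' | h'
  · exact absurd h (key k l h').ne
  · exact h'
  · exact absurd h (key l k h').ne'

theorem spc_dist {w N Tx : ℕ} (hTx : 0 < Tx) (i : Fin Tx) {a a' : Fin (w + 1)} (h : a.val < a'.val) :
    N / (w + 1) ≤ nd (spc w N Tx i a) (spc w N Tx i a') ∧
      nd (spc w N Tx i a) (spc w N Tx i a') ≤ w * N / (w + 1) + 1 := by
  obtain ⟨t, ht⟩ := Nat.exists_eq_add_of_lt h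
  have hK0 : 0 < (w + 1) * Tx := by positivity
  set K := (w + 1) * Tx with hK
  have e : (i.val + a'.val * Tx) * N = (i.val + a.val * Tx) * N + (t + 1) * N * Tx := by
    rw [ht]; ring
  have e2 : (t + 1) * N * Tx / K = (t + 1) * N / (w + 1) := by
    rw [hK, Nat.mul_div_mul_right _ _ hTx]
  have h1 : (i.val + a.val * Tx) * N / K + (t + 1) * N * Tx / K ≤
      ((i.val + a.val * Tx) * N + (t + 1) * N * Tx) / K := Nat.div_add_div_le_add_div
  have h2 : ((i.val + a.val * Tx) * N + (t + 1) * N * Tx) / K ≤
      (i.val + a.val * Tx) * N / K + (t + 1) * N * Tx / K + 1 := by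
    rw [Nat.add_div hK0]
    split_ifs <;> omega
  have h3 : N / (w + 1) ≤ (t + 1) * N / (w + 1) := Nat.div_le_div_right (by nlinarith)
  have h4 : (t + 1) * N / (w + 1) ≤ w * N / (w + 1) := by
    apply Nat.div_le_div_right
    apply Nat.mul_le_mul_right
    have := a'.2
    omega
  have u1 : spc w N Tx i a = (i.val + a.val * Tx) * N / K := rfl
  have u2 : spc w N Tx i a' = ((i.val + a.val * Tx) * N + (t + 1) * N * Tx) / K := by rw [← e]; rfl
  rw [u1, u2]
  rw [e2] at h1 h2
  unfold nd
  generalize (i.val + a.val * Tx) * N / K = z1 at *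
  generalize ((i.val + a.val * Tx) * N + (t + 1) * N * Tx) / K = z2 at *
  generalize (t + 1) * N / (w + 1) = z3 at *
  generalize N / (w + 1) = z4 at *
  generalize w * N / (w + 1) = z5 at *
  omega

theorem spc_adm {w N Tx : ℕ} (hTx : 0 < Tx) (two : Prop) (hN : (w + 1) * (w * w + 2 * w + 4) ≤ N) (i : Fin Tx)
    (a a' : Fin (w + 1)) (hne : a ≠ a') : Adm w (N / (w + 1)) two (spc w N Tx i a) (spc w N Tx i a') := by
  have hd : N / (w + 1) ≤ nd (spc w N Tx i a) (spc w N Tx i a') ∧
      nd (spc w N Tx i a) (spc w N Tx i a') ≤ w * N / (w + 1) + 1 := by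
    rcases lt_or_gt_of_ne (fun h => hne (Fin.ext h) : a.val ≠ a'.val) with h | h
    · exact spc_dist hTx i h
    · rw [nd_comm]; exact spc_dist hTx i h
  unfold Adm
  generalize nd (spc w N Tx i a) (spc w N Tx i a') = d at *
  obtain ⟨h1, h2⟩ := hd
  have h3 : w * w + 2 * w + 4 ≤ N / (w + 1) := by
    rw [Nat.le_div_iff_mul_le (by omega), mul_comm]
    exact hN
  set L := N / (w + 1) with hL
  have h4 := Nat.div_add_mod N (w + 1)
  have h5 : N % (w + 1) < w + 1 := Nat.mod_lt _ (by omega)
  rw [← hL] at h4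
  have h6 : w * N / (w + 1) ≤ w * L + w := by
    have : w * N ≤ (w + 1) * (w * L + w) := by
      have : w * N = w * ((w + 1) * L) + w * (N % (w + 1)) := by rw [← Nat.mul_add, h4]
      have h7 : w * (N % (w + 1)) ≤ w * (w + 1) := Nat.mul_le_mul_left _ h5.le
      rw [this]
      calc w * ((w + 1) * L) + w * (N % (w + 1)) ≤ w * ((w + 1) * L) + w * (w + 1) := by omega
        _ = (w + 1) * (w * L + w) := by ring
    calc w * N / (w + 1) ≤ (w + 1) * (w * L + w) / (w + 1) := Nat.div_le_div_right this
      _ = w * L + w := Nat.mul_div_cancel_left _ (by omega)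
  refine ⟨by nlinarith, fun _ => ⟨?_, ?_⟩⟩
  · intro t ht1 ht2 heq
    have : (w + 1) * t ≤ (w + 1) * w := Nat.mul_le_mul_left _ ht2
    nlinarith
  · obtain ⟨z, hz⟩ := Nat.exists_eq_add_of_le (show w ≤ L by nlinarith)
    rw [hz, Nat.add_sub_cancel_left]
    have : (w + 1) * z + (w + 1) * w = w * L + L := by rw [hz]; ring
    nlinarith

/-- one or two paths and equally spaced extra blocks -/
theorem spaced_struct {w s N T1 T2 Tx : ℕ} (hw : 2 ≤ w) (hsw : s ≤ w) (hT1 : 1 ≤ T1) (h1 : w * T1 + 1 ≤ N)
    (hN : (w + 1) * (w * w + 2 * w + 4) ≤ N)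
    (h2 : w * T2 + 1 ≤ (w + 1) * (N / (w + 1)) ∨ T2 = 0) (hK : (w + 1) * Tx ≤ N)
    (k0 ks : Fin (w + 1) → Fin (w + 1) → ℕ) (h0s : ∀ a a', k0 a a' = k0 a' a) (hss : ∀ a a', ks a a' = ks a' a)
    (h0 : ∀ B : Finset (Fin (w + 1)), B.card.choose 2 - (cols (fun a a' => some (k0 a a')) B).card =
      if B = univ then w else 0)
    (hs : ∀ B : Finset (Fin (w + 1)), B.card.choose 2 - (cols (fun a a' => some (ks a a')) B).card =
      if B = univ then s else 0) {R : ℕ} (hR : R + w = w * (T1 + (T2 + Tx)) + s) :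
    HasC N R (fun a v => (v % w = 0 ∨ v % w = R % w) ∧ N * v ≤ a * (N + (if T2 = 0 then 0 else N) + w * Tx)) := by
  have hL3 : w * w + 2 * w + 4 ≤ N / (w + 1) := by
    rw [Nat.le_div_iff_mul_le (by omega), mul_comm]
    exact hN
  have hmod : s % w = R % w := by
    rw [← Nat.add_mod_right R w, hR, Nat.mul_add_mod]
  rcases Nat.eq_zero_or_pos Tx with h0x | hTx
  · subst h0x
    obtain ⟨f, hf, hu, hA⟩ := path_struct (w := w) (s := s) (N := N) (L := N / (w + 1)) (T1 := T1) (T2 := T2) (Tx := 0)
      (ex := fun i _ => i.elim0) hw hsw hT1 h1 (Nat.mul_div_le _ _) (fun _ => by nlinarith) h2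
      (fun i => i.elim0) (fun i => i.elim0) (fun i => i.elim0) k0 ks h0s hss h0 hs
    refine ⟨Fin N, inferInstance, inferInstance, f, hf, by simp, by omega, ?_⟩
    intro A
    obtain ⟨h3, h4⟩ := hA A
    rw [hmod] at h3
    refine ⟨h3, ?_⟩
    have h5 : (univ.filter (fun i : Fin 0 => ∀ a : Fin (w + 1), (Fin.elim0 i : ℕ) ∈ A.map Fin.valEmbedding)).card = 0 := by
      rw [card_eq_zero]; ext i; exact i.elim0
    rw [h5, Nat.mul_zero] at h4
    by_cases hT : T2 = 0
    · rw [if_pos hT] at h4 ⊢
      have h6 : f A ≤ A.card := by omega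
      calc N * f A ≤ N * A.card := Nat.mul_le_mul_left _ h6
        _ = A.card * (N + 0 + w * 0) := by ring
    · rw [if_neg hT] at h4 ⊢
      have h6 : f A ≤ A.card + A.card := by omega
      calc N * f A ≤ N * (A.card + A.card) := Nat.mul_le_mul_left _ h6
        _ = A.card * (N + N + w * 0) := by ring
  · obtain ⟨f, hf, hu, hA⟩ := path_struct (w := w) (s := s) (N := N) (L := N / (w + 1)) (T1 := T1) (T2 := T2) (Tx := Tx)
      (ex := spc w N Tx) hw hsw hT1 h1 (Nat.mul_div_le _ _) (fun _ => by nlinarith) h2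
      (by
        intro i a
        unfold spc
        rw [Nat.div_lt_iff_lt_mul (by positivity)]
        have hi := i.2
        have ha := a.2
        have : i.val + a.val * Tx < (w + 1) * Tx := by
          have : (a.val + 1) * Tx ≤ (w + 1) * Tx := Nat.mul_le_mul_right _ ha
          rw [Nat.add_mul, Nat.one_mul] at this
          omega
        rw [mul_comm N]
        exact Nat.mul_lt_mul_of_pos_right this (by omega))
      (fun i a a' hne => spc_adm hTx _ hN i a a' hne)
      (by
        intro i j a a' c c' _ h _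
        have := spc_inj hTx hK h
        have hi := i.2
        have hj := j.2
        have hac : a.val = c.val := by
          rcases lt_trichotomy a.val c.val with h' | h' | h'
          · have : (a.val + 1) * Tx ≤ c.val * Tx := Nat.mul_le_mul_right _ h'
            rw [Nat.add_mul, Nat.one_mul] at this
            omega
          · exact h'
          · have : (c.val + 1) * Tx ≤ a.val * Tx := Nat.mul_le_mul_right _ h'
            rw [Nat.add_mul, Nat.one_mul] at this
            omega
        rw [hac] at this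
        exact Fin.ext (by omega))
      k0 ks h0s hss h0 hs
    refine ⟨Fin N, inferInstance, inferInstance, f, hf, by simp, by omega, ?_⟩
    intro A
    obtain ⟨h3, h4⟩ := hA A
    rw [hmod] at h3
    refine ⟨h3, ?_⟩
    set B := A.map Fin.valEmbedding with hB
    have hcard : B.card = A.card := card_map _
    have hcount := count_spaced N ((w + 1) * Tx) (by omega) (by positivity) B
    have h5 : (w + 1) * (univ.filter (fun i : Fin Tx => ∀ a, spc w N Tx i a ∈ B)).card ≤
        ((range ((w + 1) * Tx)).filter (fun k => k * N / ((w + 1) * Tx) ∈ B)).card := by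
      set F := univ.filter (fun i : Fin Tx => ∀ a, spc w N Tx i a ∈ B) with hF
      have h6 : (F ×ˢ (univ : Finset (Fin (w + 1)))).card ≤
          ((range ((w + 1) * Tx)).filter (fun k => k * N / ((w + 1) * Tx) ∈ B)).card := by
        apply card_le_card_of_injOn (fun x => x.1.val + x.2.val * Tx)
        · rintro ⟨i, a⟩ hx
          have hi := (mem_filter.mp (mem_product.mp hx).1).2
          rw [mem_coe, mem_filter, mem_range]
          refine ⟨?_, hi a⟩
          show i.val + a.val * Tx < (w + 1) * Tx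
          have : (a.val + 1) * Tx ≤ (w + 1) * Tx := Nat.mul_le_mul_right _ a.2
          rw [Nat.add_mul, Nat.one_mul] at this
          have := i.2
          omega
        · rintro ⟨i, a⟩ - ⟨j, c⟩ - h
          have h : i.val + a.val * Tx = j.val + c.val * Tx := h
          have hi := i.2
          have hj := j.2
          have hac : a.val = c.val := by
            rcases lt_trichotomy a.val c.val with h' | h' | h'
            · have : (a.val + 1) * Tx ≤ c.val * Tx := Nat.mul_le_mul_right _ h'
              rw [Nat.add_mul, Nat.one_mul] at this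
              omega
            · exact h'
            · have : (c.val + 1) * Tx ≤ a.val * Tx := Nat.mul_le_mul_right _ h'
              rw [Nat.add_mul, Nat.one_mul] at this
              omega
          rw [hac] at h
          rw [Prod.mk.injEq]
          exact ⟨Fin.ext (by omega), Fin.ext hac⟩
      rwa [card_product, card_univ, Fintype.card_fin, mul_comm] at h6
    rw [hcard] at hcount
    generalize ((range ((w + 1) * Tx)).filter (fun k => k * N / ((w + 1) * Tx) ∈ B)).card = E at *
    generalize (univ.filter (fun i : Fin Tx => ∀ a, spc w N Tx i a ∈ B)).card = X at *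
    generalize runs B = P at *
    generalize A.card = a at *
    generalize f A = v at *
    -- combine
    have h7 : N * ((w + 1) * X) ≤ a * ((w + 1) * Tx) + N * P := (Nat.mul_le_mul_left _ h5).trans hcount
    have h8 : (w + 1) * (N * v) ≤ (w + 1) * (a * (N + (if T2 = 0 then 0 else N) + w * Tx)) := by
      have h9 : N * (v + P) ≤ N * (a + (if T2 = 0 then 0 else a) + w * X) := Nat.mul_le_mul_left _ h4
      have h10 : N * (a + (if T2 = 0 then 0 else a)) = a * (N + (if T2 = 0 then 0 else N)) := by
        split_ifs <;> ring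
      have h11 : w * P ≤ (w + 1) * P := Nat.mul_le_mul_right _ (by omega)
      calc (w + 1) * (N * v) ≤ (w + 1) * (N * (a + (if T2 = 0 then 0 else a))) + w * (N * ((w + 1) * X)) -
              (w + 1) * (N * P) := by
            apply Nat.le_sub_of_add_le
            calc (w + 1) * (N * v) + (w + 1) * (N * P) = (w + 1) * (N * (v + P)) := by ring
              _ ≤ (w + 1) * (N * (a + (if T2 = 0 then 0 else a) + w * X)) := Nat.mul_le_mul_left _ h9
              _ = _ := by ring
        _ ≤ (w + 1) * (N * (a + (if T2 = 0 then 0 else a))) + w * (a * ((w + 1) * Tx) + N * P) -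
              (w + 1) * (N * P) := by
            apply Nat.sub_le_sub_right
            exact Nat.add_le_add_left (Nat.mul_le_mul_left _ h7) _
        _ ≤ (w + 1) * (N * (a + (if T2 = 0 then 0 else a))) + w * (a * ((w + 1) * Tx)) := by
            rw [Nat.sub_le_iff_le_add]
            nlinarith [Nat.mul_le_mul_left N h11]
        _ = _ := by rw [h10]; ring
    exact Nat.le_of_mul_le_mul_left h8 (by omega)

end Pool.Agent.TH579.EC
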