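import Pool.Agent.TH579.ECGad

/-! Structures of total redundancy `r` avoiding `δ` for all `r ≤ 3 δ`. -/

set_option autoImplicit false
set_option synthInstance.maxSize 1000

namespace Pool.Agent.TH579.EC
open Finset
open Pool.Agent.Results.MP_ea54b6_co.Mod6 (PHolds choose_two_succ choose_two_mono)

theorem tt (a : ℕ) : 2 * a.choose 2 + a = a * a := by
  induction a with
  | zero => rfl
  | succ a ih => rw [choose_two_succ]; nlinarith

theorem mul_le_tt (q k : ℕ) (h : q ≤ k) : q * k ≤ 2 * k.choose 2 + k := by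
  rw [tt]; exact Nat.mul_le_mul_right k h

/-! ### arithmetic -/

def exc : List (ℕ × ℕ) := [(9, 3), (11, 5), (12, 6), (18, 6), (22, 10), (27, 9), (28, 10), (45, 15), (56, 20),
  (57, 21), (63, 21), (81, 27), (82, 28), (108, 36)]

theorem small1 : ∀ K < 18, ∀ δ ≤ 36, ∀ j < 17, δ ≤ (K / 2 + 1) * (K / 2) / 2 ∧ j + 2 ≤ K ∧
    K * (K - 1) / 2 - j ≤ 3 * δ ∧ 2 ≤ δ ∧ δ < K * (K - 1) / 2 - j ∧ (K * (K - 1) / 2 - j - δ) % 6 = 0 ∧
    (∀ b ≤ K, b * (b - 1) / 2 ≠ δ + j) → (K * (K - 1) / 2 - j, δ) ∈ exc := by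
  decide +kernel

theorem small2 : ∀ K < 22, ∀ b < K, ∀ j < 21, 2 ≤ j ∧ j + 2 ≤ K ∧ K * (K - 1) / 2 + 2 * j ≤ 3 * (b * (b - 1) / 2) ∧
    (K * (K - 1) / 2 - b * (b - 1) / 2) % 6 = 0 → K + 4 ≤ 2 * b ∧ (K - 1) / 2 + 3 ≤ b ∧ 6 ≤ K := by
  decide +kernel

theorem small3 : ∀ K < 22, ∀ b < K, 3 ≤ K ∧ K * (K - 1) / 2 ≤ 3 * (b * (b - 1) / 2) ∧
    (K * (K - 1) / 2 - b * (b - 1) / 2) % 6 = 0 → (K + 1) / 2 + 1 < b ∨ (K = 8 ∧ b = 5) ∨ (K = 10 ∧ b = 6) := by
  decide +kernel

theorem arith1 (K δ j r : ℕ) (hr : r + j = K.choose 2) (hj : j + 2 ≤ K) (h3 : r ≤ 3 * δ) (h2 : 2 ≤ δ) (hlt : δ < r)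
    (h6 : (r - δ) % 6 = 0) (hna : ∀ b ≤ K, b.choose 2 ≠ δ + j) (he : (r, δ) ∉ exc) :
    (K / 2 + 1).choose 2 < δ := by
  by_contra hcon
  have hcon := not_lt.mp hcon
  rcases Nat.lt_or_ge K 18 with hK | hK
  · apply he
    have h7 : (K / 2 + 1).choose 2 = (K / 2 + 1) * (K / 2) / 2 := by
      rw [Nat.choose_two_right]; simp
    have h8 : K.choose 2 = K * (K - 1) / 2 := Nat.choose_two_right K
    have h9 : (K / 2 + 1).choose 2 ≤ 36 := by
      have := choose_two_mono (show K / 2 + 1 ≤ 9 by omega)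
      have h10 : (9 : ℕ).choose 2 = 36 := by decide
      omega
    have h11 : r = K * (K - 1) / 2 - j := by omega
    have h12 := small1 K hK δ (by omega) j (by omega) ⟨by omega, hj, by omega, h2, by omega, by omega, ?_⟩
    · rwa [← h11] at h12
    · intro b hb
      rw [← Nat.choose_two_right]
      exact hna b hb
  · have h4 := tt (K / 2 + 1)
    have h5 := tt K
    have h7 : K / 2 * 2 ≤ K := by omega
    have h8 : 9 ≤ K / 2 := by omega
    nlinarith

theorem arith2 (K b j : ℕ) (hj2 : 2 ≤ j) (hj : j + 2 ≤ K) (hb : b < K) (h : K.choose 2 + 2 * j ≤ 3 * b.choose 2)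
    (h6 : (K.choose 2 - b.choose 2) % 6 = 0) : K + 4 ≤ 2 * b ∧ (K - 1) / 2 + 3 ≤ b ∧ 6 ≤ K := by
  rcases Nat.lt_or_ge K 22 with hK | hK
  · rw [Nat.choose_two_right, Nat.choose_two_right] at h h6
    exact small2 K hK b hb j (by omega) ⟨hj2, hj, h, h6⟩
  · have h4 := tt b
    have h5 := tt K
    have : K + 5 ≤ 2 * b := by
      by_contra hcon
      have h7 : 2 * b ≤ K + 4 := by omega
      nlinarith
    omega

theorem arith3 (K b : ℕ) (hK3 : 3 ≤ K) (hb : b < K) (h : K.choose 2 ≤ 3 * b.choose 2)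
    (h6 : (K.choose 2 - b.choose 2) % 6 = 0) : (K + 1) / 2 + 1 < b ∨ (K = 8 ∧ b = 5) ∨ (K = 10 ∧ b = 6) := by
  rcases Nat.lt_or_ge K 22 with hK | hK
  · rw [Nat.choose_two_right, Nat.choose_two_right] at h h6
    exact small3 K hK b hb ⟨hK3, h, h6⟩
  · have h4 := tt b
    have h5 := tt K
    have : K + 4 ≤ 2 * b := by
      by_contra hcon
      have h7 : 2 * b ≤ K + 3 := by omega
      nlinarith
    omega

/-! ### the exceptional pairs -/

theorem has_eight : Has 6 8 (fun v => v = 0 ∨ v = 3 ∨ v = 8) := by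
  let k : Fin 6 → Fin 6 → Option ℕ := fun x y => some (x.val ^^^ y.val)
  have h : ∀ A : Finset (Fin 6), A.card.choose 2 - (cols k A).card = 0 ∨
      A.card.choose 2 - (cols k A).card = 3 ∨ A.card.choose 2 - (cols k A).card = 8 := by decide +kernel
  refine Has.of_sym k (fun x y => by simp only [k, Nat.xor_comm]) 6 8 _ (by simp) (by decide +kernel) ?_
  intro A v hv
  rcases h A with h | h | h <;> omega

theorem has_five : Has 4 5 (fun v => v = 0 ∨ v = 2 ∨ v = 5) := by
  let k : Fin 4 → Fin 4 → Option Unit := fun _ _ => some ()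
  have h : ∀ A : Finset (Fin 4), A.card.choose 2 - (cols k A).card = 0 ∨
      A.card.choose 2 - (cols k A).card = 2 ∨ A.card.choose 2 - (cols k A).card = 5 := by decide +kernel
  refine Has.of_sym k (fun _ _ => rfl) 4 5 _ (by simp) (by decide +kernel) ?_
  intro A v hv
  rcases h A with h | h | h <;> omega

theorem avoid_9_3 : Avoid 9 3 := by
  refine ⟨10, by omega, (has_five.union (has_twos 2)).mono ?_⟩
  rintro v ⟨x, y, hx, hy, rfl⟩; omega

theorem avoid_11_5 : Avoid 11 5 := by
  refine ⟨10, by omega, (has_eight.union has_three).mono ?_⟩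
  rintro v ⟨x, y, hx, hy, rfl⟩; omega

theorem avoid_mod3 (q δ : ℕ) (hδ : δ % 3 = 1) (h : δ < 16) (hq : q ≤ 5) : Avoid (16 + 3 * q) δ := by
  refine ⟨12 + 4 * q, by omega, ((has_eight.union has_eight).union (has_threes q)).mono ?_⟩
  · rintro v ⟨x, y, ⟨x1, x2, h1, h2, rfl⟩, hy, rfl⟩; omega

theorem exc_avoid (r δ : ℕ) (h : (r, δ) ∈ exc) : Avoid r δ ∨ Avoid (r + 1) (δ + 1) := by
  simp only [exc, List.mem_cons, Prod.mk.injEq, List.not_mem_nil, or_false] at h
  rcases h with ⟨rfl, rfl⟩ | ⟨rfl, rfl⟩ | ⟨rfl, rfl⟩ | ⟨rfl, rfl⟩ | ⟨rfl, rfl⟩ | ⟨rfl, rfl⟩ | ⟨rfl, rfl⟩ |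
    ⟨rfl, rfl⟩ | ⟨rfl, rfl⟩ | ⟨rfl, rfl⟩ | ⟨rfl, rfl⟩ | ⟨rfl, rfl⟩ | ⟨rfl, rfl⟩ | ⟨rfl, rfl⟩
  · exact Or.inl avoid_9_3
  · exact Or.inl avoid_11_5
  · exact Or.inr (avoid_clique 6 2 13 7 (by decide) (by decide) (by decide) (by decide) (by decide) (by decide))
  · exact Or.inr (avoid_mod3 1 7 (by decide) (by decide) (by decide))
  · exact Or.inl (avoid_mod3 2 10 (by decide) (by decide) (by decide))
  · exact Or.inr (avoid_mod3 4 10 (by decide) (by decide) (by decide))
  · exact Or.inl (avoid_mod3 4 10 (by decide) (by decide) (by decide))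
  · exact Or.inr (avoid_clique 11 9 46 16 (by decide) (by decide) (by decide) (by decide) (by decide) (by decide))
  · refine Or.inl (avoid_cliqueF 11 0 1 2 5 5 56 20 (by decide) (by decide) ?_ (by decide) (by decide) (by decide)
      (by decide) (by decide) (by decide))
    exact has_one.mono (fun v hv => by omega)
  · exact Or.inr (avoid_clique 12 8 58 22 (by decide) (by decide) (by decide) (by decide) (by decide) (by decide))
  · exact Or.inr (avoid_clique 12 2 64 22 (by decide) (by decide) (by decide) (by decide) (by decide) (by decide))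
  · refine Or.inl (avoid_cliqueF 13 0 3 6 6 6 81 27 (by decide) (by decide) ?_ (by decide) (by decide) (by decide)
      (by decide) (by decide) (by decide))
    exact (has_ones 3).mono (fun v hv => by omega)
  · exact Or.inr (avoid_clique 14 8 83 29 (by decide) (by decide) (by decide) (by decide) (by decide) (by decide))
  · exact Or.inr (avoid_clique 16 11 109 37 (by decide) (by decide) (by decide) (by decide) (by decide) (by decide))

/-! ### the main lemma -/

/-- combining a clique with a smaller structure -/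
theorem comb (K b j i : ℕ) (hK : 6 ≤ K) (h4 : K + 4 ≤ 2 * b) (h5 : (K - 1) / 2 + 3 ≤ b) (hbK : b < K)
    (hj : 2 ≤ j) (hjb : j + 2 ≤ b) (hi : i ≤ 1) (r δ : ℕ) (hr : r + j = K.choose 2) (hδ : δ + j = b.choose 2)
    (h : ∃ n ≤ 2 * (K - 1 - j + i), Has n (K - 1 - j + i) (fun v => v ≠ b - 1 - j + i)) : Avoid r δ := by
  obtain ⟨n, hn, hF⟩ := h
  obtain ⟨β, rfl⟩ : ∃ β, b = β + 2 := ⟨b - 2, by omega⟩
  obtain ⟨k, rfl⟩ : ∃ k, K = k + 1 := ⟨K - 1, by omega⟩
  have e1 := choose_two_succ k
  have e2 : (β + 2).choose 2 = (β + 1).choose 2 + (β + 1) := choose_two_succ (β + 1)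
  have e3 := choose_two_succ β
  have e4 := tt k
  refine avoid_cliqueF k i _ n _ β r δ (by omega) hi hF (by omega) ?_ ?_ ?_ ?_ ?_
  · -- number of vertices
    have := mul_le_tt 5 k (by omega)
    omega
  · omega
  · omega
  · omega
  · right; omega

theorem mid (K b j r δ : ℕ) (hbK : b < K) (hj : 2 ≤ j) (hjb : j + 2 ≤ b) (hr : r + j = K.choose 2)
    (hδ : δ + j = b.choose 2) (hc : K + 4 ≤ 2 * b ∧ (K - 1) / 2 + 3 ≤ b ∧ 6 ≤ K)
    (ih : ∀ E x, E + 2 ≤ r → 2 ≤ x → x < E → E ≤ 3 * x → (E - x) % 6 = 0 → Avoid E x ∨ Avoid (E + 1) (x + 1)) :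
    Avoid r δ := by
  obtain ⟨h4, h5, hK⟩ := hc
  have e1 := choose_two_succ (K - 1)
  rw [show K - 1 + 1 = K by omega] at e1
  have e3 := mul_le_tt 5 (K - 1) (by omega)
  by_cases h2 : (K - b) % 2 = 0
  · by_cases h3 : (K - b) % 3 = 0
    · by_cases hbj : b < 2 * j
      · exact avoid_path K b j r δ (by omega) hbj hjb hr hδ (by omega)
      · rcases ih (K - 1 - j) (b - 1 - j) (by omega) (by omega) (by omega) (by omega) (by omega) with h | h
        · obtain ⟨n, hn, hF⟩ := h
          exact comb K b j 0 hK h4 h5 hbK hj hjb (by omega) r δ hr hδ ⟨n, by omega, hF⟩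
        · obtain ⟨n, hn, hF⟩ := h
          exact comb K b j 1 hK h4 h5 hbK hj hjb (by omega) r δ hr hδ ⟨n, by omega, hF⟩
    · by_cases hx : (b - 1 - j) % 3 = 0
      · exact comb K b j 1 hK h4 h5 hbK hj hjb (by omega) r δ hr hδ (petal3 _ _ (by omega) (by omega))
      · exact comb K b j 0 hK h4 h5 hbK hj hjb (by omega) r δ hr hδ (petal3 _ _ (by omega) (by omega))
  · by_cases hx : (b - 1 - j) % 2 = 0
    · exact comb K b j 1 hK h4 h5 hbK hj hjb (by omega) r δ hr hδ (petal2 _ _ (by omega) (by omega))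
    · exact comb K b j 0 hK h4 h5 hbK hj hjb (by omega) r δ hr hδ (petal2 _ _ (by omega) (by omega))

theorem big (K b j r δ : ℕ) (hjK : j + 2 ≤ K) (hjb : b ≤ j) (hr : r + j = K.choose 2)
    (hδ : b.choose 2 = δ + j) (hc : K + 4 ≤ 2 * b ∧ (K - 1) / 2 + 3 ≤ b ∧ 6 ≤ K) : Avoid r δ := by
  obtain ⟨h4, h5, hK⟩ := hc
  obtain ⟨β, rfl⟩ : ∃ β, b = β + 3 := ⟨b - 3, by omega⟩
  obtain ⟨k, rfl⟩ : ∃ k, K = k + 1 := ⟨K - 1, by omega⟩
  have f0 := choose_two_succ k
  have f1 : (β + 3).choose 2 = (β + 2).choose 2 + (β + 2) := choose_two_succ (β + 2)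
  have f2 : (β + 2).choose 2 = (β + 1).choose 2 + (β + 1) := choose_two_succ (β + 1)
  have f3 : (β + 1).choose 2 = β.choose 2 + β := choose_two_succ β
  have f5 := mul_le_tt 5 k (by omega)
  refine avoid_cliqueF k 0 (k - j) (2 * (k - j)) (2 * β + 3 - j) β r δ (by omega) (by omega) ?_
    (by omega) (by omega) (by omega) (by omega) (by omega) (Or.inl rfl)
  exact (has_ones (k - j)).mono (fun v hv => by omega)

theorem lemmaA (r : ℕ) : ∀ δ, 2 ≤ δ → δ < r → r ≤ 3 * δ → (r - δ) % 6 = 0 → Avoid r δ ∨ Avoid (r + 1) (δ + 1) := by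
  induction r using Nat.strong_induction_on with
  | _ r ih =>
  intro δ h2 hlt h3 h6
  by_cases he : (r, δ) ∈ exc
  · exact exc_avoid r δ he
  obtain ⟨K, hK1, hK2⟩ : ∃ K : ℕ, (K - 1).choose 2 < r ∧ r ≤ K.choose 2 := by
    have hex : ∃ K : ℕ, r ≤ K.choose 2 := ⟨r + 1, by have := tt (r + 1); nlinarith⟩
    refine ⟨Nat.find hex, ?_, Nat.find_spec hex⟩
    have h0 : Nat.find hex ≠ 0 := by
      intro h
      have := Nat.find_spec hex
      rw [h] at this
      simp at this
      omega
    exact not_le.mp (Nat.find_min hex (by omega))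
  have hK3 : 5 ≤ K := by
    by_contra hcon
    have := choose_two_mono (show K ≤ 4 by omega)
    have h7 : (4 : ℕ).choose 2 = 6 := by decide
    omega
  have e1 := choose_two_succ (K - 1)
  rw [show K - 1 + 1 = K by omega] at e1
  have e5 := mul_le_tt 5 K (by omega)
  have e6 := mul_le_tt 4 (K - 1) (by omega)
  obtain ⟨j, hj⟩ : ∃ j, r + j = K.choose 2 := ⟨K.choose 2 - r, by omega⟩
  have hjK : j + 2 ≤ K := by omega
  by_cases hb : ∃ b ≤ K, b.choose 2 = δ + j
  · obtain ⟨b, hbK', hb⟩ := hb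
    have hbK : b < K := by
      rcases Nat.lt_or_ge b K with h | h
      · exact h
      · have : b = K := by omega
        subst this
        omega
    have h6' : (K.choose 2 - b.choose 2) % 6 = 0 := by
      rw [hb, ← hj]
      rwa [show r + j - (δ + j) = r - δ by omega]
    have hb2 : 2 < b := by
      by_contra hcon
      have := choose_two_mono (show b ≤ 2 by omega)
      have h7 : (2 : ℕ).choose 2 = 1 := by decide
      omega
    rcases Nat.lt_or_ge j 2 with hj2 | hj2
    · -- j ≤ 1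
      rcases arith3 K b (by omega) hbK (by omega) h6' with h | ⟨rfl, rfl⟩ | ⟨rfl, rfl⟩
      · have key : Avoid (K.choose 2) (b.choose 2) := by
          refine avoid_clique (K + 1) K _ _ (by omega) (by omega) (by rw [choose_two_succ]) (by omega) ?_ ?_
          · intro a ha
            rcases lt_trichotomy a (b + 1) with h7 | h7 | h7
            · have := choose_two_mono (show a ≤ b by omega)
              omega
            · subst h7
              rw [choose_two_succ]; omega
            · have h8 := choose_two_mono (show b + 2 ≤ a by omega)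
              have h9 : (b + 2).choose 2 = (b + 1).choose 2 + (b + 1) := choose_two_succ (b + 1)
              have h10 := choose_two_succ b
              omega
          · have h7 := choose_two_mono (show (K + 1) / 2 + 1 ≤ b - 1 by omega)
            have h8 := choose_two_succ (b - 1)
            rw [show b - 1 + 1 = b by omega] at h8
            omega
        rcases Nat.eq_zero_or_pos j with h0 | h0
        · left
          rwa [show K.choose 2 = r by omega, show b.choose 2 = δ by omega] at key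
        · right
          rwa [show K.choose 2 = r + 1 by omega, show b.choose 2 = δ + 1 by omega] at key
      · exfalso
        have h7 : (8 : ℕ).choose 2 = 28 := by decide
        have h8 : (5 : ℕ).choose 2 = 10 := by decide
        rw [h7] at hj
        rw [h8] at hb
        rcases Nat.eq_zero_or_pos j with h0 | h0
        · have e1 : r = 28 := by omega
          have e2 : δ = 10 := by omega
          subst e1 e2
          exact he (by decide)
        · have e1 : r = 27 := by omega
          have e2 : δ = 9 := by omega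
          subst e1 e2
          exact he (by decide)
      · exfalso
        have h7 : (10 : ℕ).choose 2 = 45 := by decide
        have h8 : (6 : ℕ).choose 2 = 15 := by decide
        rw [h7] at hj
        rw [h8] at hb
        rcases Nat.eq_zero_or_pos j with h0 | h0
        · have e1 : r = 45 := by omega
          have e2 : δ = 15 := by omega
          subst e1 e2
          exact he (by decide)
        · omega
    · have hc := arith2 K b j hj2 hjK hbK (by omega) h6'
      have ebs := choose_two_succ (b - 1)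
      rw [show b - 1 + 1 = b by omega] at ebs
      have ebs2 := choose_two_succ (b - 2)
      rw [show b - 2 + 1 = b - 1 by omega] at ebs2
      rcases Nat.lt_or_ge (j + 1) b with hjb | hjb
      · left
        exact mid K b j r δ hbK hj2 (by omega) hj (by omega) hc (fun E x hE hx hxE hEx hEm =>
          ih E (by omega) x hx hxE hEx hEm)
      rcases Nat.eq_or_lt_of_le hjb with hjb | hjb
      · right
        exact mid K b (j - 1) (r + 1) (δ + 1) hbK (by omega) (by omega) (by omega) (by omega) hc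
          (fun E x hE hx hxE hEx hEm => ih E (by omega) x hx hxE hEx hEm)
      · left
        exact big K b j r δ hjK (by omega) hj hb hc
  · left
    push Not at hb
    have h7 := arith1 K δ j r hj hjK h3 h2 hlt h6 hb he
    exact avoid_clique K j r δ (by omega) (by omega) hj (by omega) hb h7

end Pool.Agent.TH579.EC
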