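import Pool.Agent.TH579.ECCyc

/-! The residue classes excluded by cyclic systems of triangles and planes. -/

set_option autoImplicit false

namespace Pool.Agent.TH579.EC
open Finset
open Pool.Agent.Results.MP_ea54b6_co.Mod6 (PHolds choose_two_succ choose_two_mono)

theorem nfull_bound {v b T : ℕ} [NeZero v] (hT : T < v) (off : Fin b → ZMod v) {a0 a1 : Fin b}
    (h0 : off a0 = 0) (h1 : off a1 = 1) (A : Finset (ZMod v)) :
    nfull T off A < A.card ∨ nfull T off A = 0 := by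
  rcases A.eq_empty_or_nonempty with h | h
  · right; rw [h]; exact nfull_empty off a0
  · left; exact nfull_lt hT off h0 h1 A h

theorem level_direct (w F a m n δ : ℕ) (hw : w = 2 ∨ w = 3) (hF : F < a ∨ F = 0)
    (hm : m + δ = n.choose 2 + 1) (hδ : 1 ≤ δ) (hδn : δ + 3 ≤ n)
    (h1 : δ % w ≠ 0) (h2 : (δ + n) % w ≠ 0) (h3 : w = 3 → (δ + 2 * n + 1) % 3 ≠ 0) :
    m + w * F ≠ (a + 1).choose 2 + 1 := by
  intro h
  obtain ⟨p, rfl⟩ : ∃ p, n = p + 1 := ⟨n - 1, by omega⟩
  have e0 : (p + 1).choose 2 = p.choose 2 + p := choose_two_succ p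
  have e1 : (p + 2).choose 2 = (p + 1).choose 2 + (p + 1) := choose_two_succ (p + 1)
  have e2 : (p + 3).choose 2 = (p + 2).choose 2 + (p + 2) := choose_two_succ (p + 2)
  have e3 : (p + 4).choose 2 = (p + 3).choose 2 + (p + 3) := choose_two_succ (p + 3)
  rcases Nat.lt_or_ge (a + 1) (p + 1) with h4 | h4
  · have h5 := choose_two_mono (show a + 1 ≤ p by omega)
    omega
  rcases Nat.lt_or_ge a (p + 3) with h6 | h6
  · rcases (show a = p ∨ a = p + 1 ∨ a = p + 2 by omega) with rfl | rfl | rfl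
    · rcases hw with rfl | rfl <;> simp only [add_assoc, Nat.reduceAdd] at * <;> omega
    · rcases hw with rfl | rfl <;> simp only [add_assoc, Nat.reduceAdd] at * <;> omega
    · rcases hw with rfl | rfl
      · simp only [add_assoc, Nat.reduceAdd] at *
        omega
      · have := h3 rfl
        simp only [add_assoc, Nat.reduceAdd] at *
        omega
  · obtain ⟨s, rfl⟩ := Nat.exists_eq_add_of_le h6
    have e4 := add_choose_two' (p + 4) s
    rw [show p + 3 + s + 1 = p + 4 + s by omega, e4] at h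
    have h7 : 3 * s ≤ (p + 4) * s := Nat.mul_le_mul_right _ (by omega)
    have h8 : w * F ≤ 3 * F := by rcases hw with rfl | rfl <;> omega
    generalize w * F = z at *
    generalize (p + 4) * s = y at *
    omega

theorem level_hub1 (w F a m n δ : ℕ) (hw : w = 2 ∨ w = 3) (hF : F < a ∨ F = 0)
    (hm : m + δ = n.choose 2 + 1) (hδ : 2 ≤ δ) (hδn : δ + 3 ≤ n)
    (h1 : (δ + 1) % w ≠ 0) (h2 : (δ + n + 1) % w ≠ 0) (h3 : w = 3 → (δ + 2 * n + 2) % 3 ≠ 0) :
    m + w * F ≠ (a + 1).choose 2 + 2 := by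
  intro h
  obtain ⟨p, rfl⟩ : ∃ p, n = p + 1 := ⟨n - 1, by omega⟩
  have e0 : (p + 1).choose 2 = p.choose 2 + p := choose_two_succ p
  have e1 : (p + 2).choose 2 = (p + 1).choose 2 + (p + 1) := choose_two_succ (p + 1)
  have e2 : (p + 3).choose 2 = (p + 2).choose 2 + (p + 2) := choose_two_succ (p + 2)
  have e3 : (p + 4).choose 2 = (p + 3).choose 2 + (p + 3) := choose_two_succ (p + 3)
  rcases Nat.lt_or_ge (a + 1) (p + 1) with h4 | h4
  · have h5 := choose_two_mono (show a + 1 ≤ p by omega)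
    omega
  rcases Nat.lt_or_ge a (p + 3) with h6 | h6
  · rcases (show a = p ∨ a = p + 1 ∨ a = p + 2 by omega) with rfl | rfl | rfl
    · rcases hw with rfl | rfl <;> simp only [add_assoc, Nat.reduceAdd] at * <;> omega
    · rcases hw with rfl | rfl <;> simp only [add_assoc, Nat.reduceAdd] at * <;> omega
    · rcases hw with rfl | rfl
      · simp only [add_assoc, Nat.reduceAdd] at *
        omega
      · have := h3 rfl
        simp only [add_assoc, Nat.reduceAdd] at *
        omega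
  · obtain ⟨s, rfl⟩ := Nat.exists_eq_add_of_le h6
    have e4 := add_choose_two' (p + 4) s
    rw [show p + 3 + s + 1 = p + 4 + s by omega, e4] at h
    have h7 : 3 * s ≤ (p + 4) * s := Nat.mul_le_mul_right _ (by omega)
    have h8 : w * F ≤ 3 * F := by rcases hw with rfl | rfl <;> omega
    generalize w * F = z at *
    generalize (p + 4) * s = y at *
    omega

theorem level_hub2 (w F a m n δ : ℕ) (hw : w = 2 ∨ w = 3) (hF : F < a ∨ F = 0)
    (hm : m + δ = n.choose 2 + 1) (hδ : 2 ≤ δ) (hδn : δ + 3 ≤ n)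
    (h1 : (δ + 1) % w ≠ 0) (h2 : (δ + n + 1) % w ≠ 0) (h3 : w = 3 → (δ + 2 * n + 2) % 3 ≠ 0) :
    m + w * F ≠ a.choose 2 + 2 := by
  intro h
  obtain ⟨p, rfl⟩ : ∃ p, n = p + 1 := ⟨n - 1, by omega⟩
  have e0 : (p + 1).choose 2 = p.choose 2 + p := choose_two_succ p
  have e1 : (p + 2).choose 2 = (p + 1).choose 2 + (p + 1) := choose_two_succ (p + 1)
  have e2 : (p + 3).choose 2 = (p + 2).choose 2 + (p + 2) := choose_two_succ (p + 2)
  have e3 : (p + 4).choose 2 = (p + 3).choose 2 + (p + 3) := choose_two_succ (p + 3)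
  rcases Nat.lt_or_ge a (p + 1) with h4 | h4
  · have h5 := choose_two_mono (show a ≤ p by omega)
    omega
  rcases Nat.lt_or_ge a (p + 4) with h6 | h6
  · rcases (show a = p + 1 ∨ a = p + 2 ∨ a = p + 3 by omega) with rfl | rfl | rfl
    · rcases hw with rfl | rfl <;> simp only [add_assoc, Nat.reduceAdd] at * <;> omega
    · rcases hw with rfl | rfl <;> simp only [add_assoc, Nat.reduceAdd] at * <;> omega
    · rcases hw with rfl | rfl
      · simp only [add_assoc, Nat.reduceAdd] at *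
        omega
      · have := h3 rfl
        simp only [add_assoc, Nat.reduceAdd] at *
        omega
  · obtain ⟨s, rfl⟩ := Nat.exists_eq_add_of_le h6
    have e4 := add_choose_two' (p + 4) s
    rw [e4] at h
    have h7 : 3 * s ≤ (p + 4) * s := Nat.mul_le_mul_right _ (by omega)
    rcases hw with rfl | rfl
    · generalize (p + 4) * s = y at *
      omega
    · have h9 : 3 ≤ δ := by omega
      clear h1 h2 h3
      generalize (p + 4) * s = y at *
      omega

theorem sys_direct {w v b T c m n δ : ℕ} [NeZero v] (hw : w = 2 ∨ w = 3) (hT : T < v) {off : Fin b → ZMod v}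
    {a0 a1 : Fin b} (h0 : off a0 = 0) (h1 : off a1 = 1)
    (hreal : Real (ZMod v) (fun A => w * nfull T off A))
    (hc : c + w * T = (v + 1).choose 2 + 1)
    (hm : m + δ = n.choose 2 + 1) (hδ : 1 ≤ δ) (hδn : δ + 3 ≤ n)
    (k1 : δ % w ≠ 0) (k2 : (δ + n) % w ≠ 0) (k3 : w = 3 → (δ + 2 * n + 1) % 3 ≠ 0) : ¬ PHolds c m := by
  refine direct hreal (ZMod.card v) ?_ ?_
  · show c + w * nfull T off univ = _
    rw [nfull_univ]
    exact hc
  · intro A
    exact level_direct w _ A.card m n δ hw (nfull_bound hT off h0 h1 A) hm hδ hδn k1 k2 k3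

theorem sys_hub {w v b T c m n δ : ℕ} [NeZero v] (hw : w = 2 ∨ w = 3) (hT : T < v) {off : Fin b → ZMod v}
    {a0 a1 : Fin b} (h0 : off a0 = 0) (h1 : off a1 = 1)
    (hreal : Real (ZMod v) (fun A => w * nfull T off A))
    (hc : c + w * T = (v + 1).choose 2 + 2)
    (hm : m + δ = n.choose 2 + 1) (hm1 : 1 < m) (hδ : 2 ≤ δ) (hδn : δ + 3 ≤ n)
    (k1 : (δ + 1) % w ≠ 0) (k2 : (δ + n + 1) % w ≠ 0) (k3 : w = 3 → (δ + 2 * n + 2) % 3 ≠ 0) : ¬ PHolds c m := by
  refine hub hreal (ZMod.card v) ?_ ?_ ?_ hm1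
  · show c + w * nfull T off univ = _
    rw [nfull_univ]
    exact hc
  · intro A
    exact level_hub1 w _ A.card m n δ hw (nfull_bound hT off h0 h1 A) hm hδ hδn k1 k2 k3
  · intro A
    exact level_hub2 w _ A.card m n δ hw (nfull_bound hT off h0 h1 A) hm hδ hδn k1 k2 k3

section
variable (c m M n r δ : ℕ) (hM : r + 2 ≤ M) (hc : c + r = M.choose 2 + 1) (hm : m + δ = n.choose 2 + 1)
  (hm1 : 1 < m) (hδ : 2 ≤ δ) (hδn : δ + 3 ≤ n)

include hM hc hm hm1 hδ hδn

/-- `M` odd and `n` even -/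
theorem even_odd (hr : r % 2 = δ % 2) (hMo : M % 2 = 1) (hne : n % 2 = 0) (hM7 : 7 ≤ M) : ¬ PHolds c m := by
  have : NeZero M := ⟨by omega⟩
  have e := choose_two_succ M
  by_cases h : δ % 2 = 1
  · obtain ⟨T, hT⟩ : ∃ T, r + M = 2 * T := ⟨(r + M) / 2, by omega⟩
    exact sys_direct (Or.inl rfl) (by omega) (a0 := 0) (a1 := 1) (by simp) (by simp)
      (real_tri hM7 (show T ≤ M by omega)) (by omega) hm (by omega) hδn (by omega) (by omega) (by omega)
  · obtain ⟨T, hT⟩ : ∃ T, r + 1 + M = 2 * T := ⟨(r + 1 + M) / 2, by omega⟩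
    exact sys_hub (Or.inl rfl) (by omega) (a0 := 0) (a1 := 1) (by simp) (by simp)
      (real_tri hM7 (show T ≤ M by omega)) (by omega) hm hm1 hδ hδn (by omega) (by omega) (by omega)

/-- planes on `M` vertices -/
theorem plane_one (hr : r % 3 = δ % 3) (hM13 : 13 ≤ M) (h1 : M % 3 ≠ 0) (h2 : n % 3 ≠ M % 3)
    (h3 : (2 * n + 1) % 3 ≠ M % 3) (h : (δ + M) % 3 = 0 ∨ (δ + 1 + M) % 3 = 0) : ¬ PHolds c m := by
  have : NeZero M := ⟨by omega⟩
  have e := choose_two_succ M
  rcases h with h | h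
  · obtain ⟨T, hT⟩ : ∃ T, r + M = 3 * T := ⟨(r + M) / 3, by omega⟩
    exact sys_direct (Or.inr rfl) (by omega) (a0 := 0) (a1 := 1) (by simp) (by simp)
      (real_plane hM13 (show T ≤ M by omega)) (by omega) hm (by omega) hδn (by omega) (by omega) (by omega)
  · obtain ⟨T, hT⟩ : ∃ T, r + 1 + M = 3 * T := ⟨(r + 1 + M) / 3, by omega⟩
    exact sys_hub (Or.inr rfl) (by omega) (a0 := 0) (a1 := 1) (by simp) (by simp)
      (real_plane hM13 (show T ≤ M by omega)) (by omega) hm hm1 hδ hδn (by omega) (by omega) (by omega)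

/-- planes on `M + 1` vertices -/
theorem plane_two (hr : r % 3 = δ % 3) (hM13 : 12 ≤ M) (h1 : M % 3 ≠ 1) (h2 : n % 3 ≠ M % 3)
    (h3 : (n + M) % 3 ≠ 1) (h : (δ + 2 * M + 1) % 3 = 0 ∨ (δ + 2 * M + 2) % 3 = 0) : ¬ PHolds c m := by
  have e := choose_two_succ M
  have e' := choose_two_succ (M + 1)
  rcases h with h | h
  · obtain ⟨T, hT⟩ : ∃ T, r + 2 * M + 1 = 3 * T := ⟨(r + 2 * M + 1) / 3, by omega⟩
    exact sys_direct (v := M + 1) (Or.inr rfl) (by omega) (a0 := 0) (a1 := 1) (by simp) (by simp)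
      (real_plane (by omega) (show T ≤ M + 1 by omega)) (by omega) hm (by omega) hδn (by omega) (by omega) (by omega)
  · obtain ⟨T, hT⟩ : ∃ T, r + 2 * M + 2 = 3 * T := ⟨(r + 2 * M + 2) / 3, by omega⟩
    exact sys_hub (v := M + 1) (Or.inr rfl) (by omega) (a0 := 0) (a1 := 1) (by simp) (by simp)
      (real_plane (by omega) (show T ≤ M + 1 by omega)) (by omega) hm hm1 hδ hδn (by omega) (by omega) (by omega)

end

end Pool.Agent.TH579.EC
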