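import Pool.Agent.TH579.ECGad2

/-! Small deficits. -/

set_option autoImplicit false

namespace Pool.Agent.TH579.EC
open Finset
open Pool.Agent.Results.MP_ea54b6_co.Mod6 (PHolds choose_two_succ choose_two_mono)

theorem sparse_direct {n0 c m M n r δ : ℕ} (h : HasC n0 r (fun a v => v ≠ δ ∧ v < a + δ)) (hn0 : n0 + 1 ≤ M)
    (hc : c + r = M.choose 2 + 1) (hm : m + δ = n.choose 2 + 1) (hδn : δ + 2 ≤ n) : ¬ PHolds c m := by
  obtain ⟨p, rfl⟩ : ∃ p, M = p + 1 := ⟨M - 1, by omega⟩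
  obtain ⟨q, rfl⟩ : ∃ q, n = q + 1 := ⟨n - 1, by omega⟩
  obtain ⟨V, i1, i2, f, h1, h2, h3, h4⟩ := h.extend (N := p)
    (fun a b v hab hv => ⟨hv.1, by have := hv.2; omega⟩) (by omega)
  refine direct h1 h2 (by rw [h3]; exact hc) ?_
  intro A heq
  obtain ⟨h5, h6⟩ := h4 A
  have e1 := choose_two_succ q
  have e2 := choose_two_succ A.card
  rcases lt_trichotomy A.card q with h7 | h7 | h7
  · have := choose_two_mono (show A.card + 1 ≤ q by omega)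
    omega
  · rw [h7] at heq
    omega
  · have := choose_two_mono (show q + 1 ≤ A.card by omega)
    omega

theorem sparse_hub {n0 c m M n r δ : ℕ} (h : HasC n0 (r + 1) (fun a v => v ≠ δ + 1 ∧ v < a + δ)) (hn0 : n0 + 1 ≤ M)
    (hc : c + r = M.choose 2 + 1) (hm : m + δ = n.choose 2 + 1) (hδn : δ + 3 ≤ n) (hm1 : 1 < m) :
    ¬ PHolds c m := by
  obtain ⟨p, rfl⟩ : ∃ p, M = p + 1 := ⟨M - 1, by omega⟩
  obtain ⟨q, rfl⟩ : ∃ q, n = q + 1 := ⟨n - 1, by omega⟩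
  obtain ⟨V, i1, i2, f, h1, h2, h3, h4⟩ := h.extend (N := p)
    (fun a b v hab hv => ⟨hv.1, by have := hv.2; omega⟩) (by omega)
  refine hub h1 h2 (by rw [h3]; omega) ?_ ?_ hm1
  · intro A heq
    obtain ⟨h5, h6⟩ := h4 A
    have e1 := choose_two_succ q
    have e2 := choose_two_succ A.card
    rcases lt_trichotomy A.card q with h7 | h7 | h7
    · have := choose_two_mono (show A.card + 1 ≤ q by omega)
      omega
    · rw [h7] at heq
      omega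
    · have := choose_two_mono (show q + 1 ≤ A.card by omega)
      omega
  · intro A heq
    obtain ⟨h5, h6⟩ := h4 A
    have e1 := choose_two_succ q
    rcases lt_trichotomy A.card (q + 1) with h7 | h7 | h7
    · have := choose_two_mono (show A.card ≤ q by omega)
      omega
    · rw [h7] at heq
      omega
    · have e2 := choose_two_succ (A.card - 1)
      rw [show A.card - 1 + 1 = A.card by omega] at e2
      have := choose_two_mono (show q + 1 ≤ A.card - 1 by omega)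
      omega

theorem two_g8 : HasC 12 16 (fun a v => (v % 3 ≠ 1 ∨ v = 16) ∧ v ≤ a + 4) := by
  refine (has_g8.union has_g8).mono ?_
  rintro a v ⟨b, c, x, y, h1, h2, rfl, rfl⟩
  omega

/-- All deficits `δ` from 2 to 17. -/
theorem small_deficit (c m M n t δ : ℕ) (hc : c + (δ + 6 * t) = M.choose 2 + 1) (ht : 1 ≤ t) (hM : n + 6 * t ≤ M)
    (hm : m + δ = n.choose 2 + 1) (hm1 : 1 < m) (hδn : δ + 3 ≤ n) (hδ2 : 2 ≤ δ) (hδ : δ ≤ 17) :
    ¬ PHolds c m := by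
  have hcases : δ = 2 ∨ δ = 3 ∨ δ = 4 ∨ δ = 5 ∨ δ = 6 ∨ δ = 7 ∨ δ = 8 ∨ δ = 9 ∨ δ = 10 ∨ δ = 11 ∨ δ = 12 ∨
    δ = 13 ∨ δ = 14 ∨ δ = 15 ∨ δ = 16 ∨ δ = 17 := by omega
  rcases hcases with rfl | rfl | rfl | rfl | rfl | rfl | rfl | rfl | rfl | rfl | rfl | rfl | rfl | rfl | rfl | rfl
  · obtain ⟨T, hT⟩ : ∃ T, 2 + 6 * t + 1 = 5 + 2 * T := ⟨3 * t - 1, by omega⟩
    refine sparse_hub (n0 := 4 + (2 * T + 1)) ?_ (by omega) hc hm hδn hm1
    rw [hT]
    refine (has_g5.union (hasC_tri T)).mono ?_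
    rintro a v ⟨b, c, x, y, h1, h2, rfl, rfl⟩
    omega
  · obtain ⟨T, hT⟩ : ∃ T, 3 + 6 * t = 5 + 2 * T := ⟨3 * t - 1, by omega⟩
    refine sparse_direct (n0 := 4 + (2 * T + 1)) ?_ (by omega) hc hm (by omega)
    rw [hT]
    refine (has_g5.union (hasC_tri T)).mono ?_
    rintro a v ⟨b, c, x, y, h1, h2, rfl, rfl⟩
    omega
  · obtain ⟨T, hT⟩ : ∃ T, 4 + 6 * t + 1 = 8 + 3 * T := ⟨2 * t - 1, by omega⟩
    refine sparse_hub (n0 := 6 + (3 * T + 1)) ?_ (by omega) hc hm hδn hm1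
    rw [hT]
    refine (has_g8.union (hasC_plane T)).mono ?_
    rintro a v ⟨b, c, x, y, h1, h2, rfl, rfl⟩
    omega
  · obtain ⟨T, hT⟩ : ∃ T, 5 + 6 * t = 8 + 3 * T := ⟨2 * t - 1, by omega⟩
    refine sparse_direct (n0 := 6 + (3 * T + 1)) ?_ (by omega) hc hm (by omega)
    rw [hT]
    refine (has_g8.union (hasC_plane T)).mono ?_
    rintro a v ⟨b, c, x, y, h1, h2, rfl, rfl⟩
    omega
  · obtain ⟨T, hT⟩ : ∃ T, 6 + 6 * t + 1 = 9 + 2 * T := ⟨3 * t - 1, by omega⟩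
    refine sparse_hub (n0 := 6 + (2 * T + 1)) ?_ (by omega) hc hm hδn hm1
    rw [hT]
    refine (has_g9.union (hasC_tri T)).mono ?_
    rintro a v ⟨b, c, x, y, h1, h2, rfl, rfl⟩
    omega
  · obtain ⟨T, hT⟩ : ∃ T, 7 + 6 * t = 9 + 2 * T := ⟨3 * t - 1, by omega⟩
    refine sparse_direct (n0 := 6 + (2 * T + 1)) ?_ (by omega) hc hm (by omega)
    rw [hT]
    refine (has_g9.union (hasC_tri T)).mono ?_
    rintro a v ⟨b, c, x, y, h1, h2, rfl, rfl⟩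
    omega
  · obtain ⟨T, hT⟩ : ∃ T, 8 + 6 * t + 1 = 11 + 2 * T := ⟨3 * t - 1, by omega⟩
    refine sparse_hub (n0 := 6 + (2 * T + 1)) ?_ (by omega) hc hm hδn hm1
    rw [hT]
    refine (has_g11.union (hasC_tri T)).mono ?_
    rintro a v ⟨b, c, x, y, h1, h2, rfl, rfl⟩
    omega
  · obtain ⟨T, hT⟩ : ∃ T, 9 + 6 * t = 11 + 2 * T := ⟨3 * t - 1, by omega⟩
    refine sparse_direct (n0 := 6 + (2 * T + 1)) ?_ (by omega) hc hm (by omega)
    rw [hT]
    refine (has_g11.union (hasC_tri T)).mono ?_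
    rintro a v ⟨b, c, x, y, h1, h2, rfl, rfl⟩
    omega
  · obtain ⟨T, hT⟩ : ∃ T, 10 + 6 * t = 16 + 3 * T := ⟨2 * t - 2, by omega⟩
    refine sparse_direct (n0 := 12 + (3 * T + 1)) ?_ (by omega) hc hm (by omega)
    rw [hT]
    refine (two_g8.union (hasC_plane T)).mono ?_
    rintro a v ⟨b, c, x, y, h1, h2, rfl, rfl⟩
    omega
  · obtain ⟨T, hT⟩ : ∃ T, 11 + 6 * t = 17 + 3 * T := ⟨2 * t - 2, by omega⟩
    refine sparse_direct (n0 := 8 + (3 * T + 1)) ?_ (by omega) hc hm (by omega)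
    rw [hT]
    refine (has_g17.union (hasC_plane T)).mono ?_
    rintro a v ⟨b, c, x, y, h1, h2, rfl, rfl⟩
    omega
  · obtain ⟨T, hT⟩ : ∃ T, 12 + 6 * t + 1 = 16 + 3 * T := ⟨2 * t - 1, by omega⟩
    refine sparse_hub (n0 := 12 + (3 * T + 1)) ?_ (by omega) hc hm hδn hm1
    rw [hT]
    refine (two_g8.union (hasC_plane T)).mono ?_
    rintro a v ⟨b, c, x, y, h1, h2, rfl, rfl⟩
    omega
  · obtain ⟨T, hT⟩ : ∃ T, 13 + 6 * t = 16 + 3 * T := ⟨2 * t - 1, by omega⟩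
    refine sparse_direct (n0 := 12 + (3 * T + 1)) ?_ (by omega) hc hm (by omega)
    rw [hT]
    refine (two_g8.union (hasC_plane T)).mono ?_
    rintro a v ⟨b, c, x, y, h1, h2, rfl, rfl⟩
    omega
  · obtain ⟨T, hT⟩ : ∃ T, 14 + 6 * t = 17 + 3 * T := ⟨2 * t - 1, by omega⟩
    refine sparse_direct (n0 := 8 + (3 * T + 1)) ?_ (by omega) hc hm (by omega)
    rw [hT]
    refine (has_g17.union (hasC_plane T)).mono ?_
    rintro a v ⟨b, c, x, y, h1, h2, rfl, rfl⟩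
    omega
  · obtain ⟨T, hT⟩ : ∃ T, 15 + 6 * t + 1 = 19 + 3 * T := ⟨2 * t - 1, by omega⟩
    refine sparse_hub (n0 := 10 + (3 * T + 1)) ?_ (by omega) hc hm hδn hm1
    rw [hT]
    refine (has_g19.union (hasC_plane T)).mono ?_
    rintro a v ⟨b, c, x, y, h1, h2, rfl, rfl⟩
    omega
  · obtain ⟨T, hT⟩ : ∃ T, 16 + 6 * t + 1 = 20 + 3 * T := ⟨2 * t - 1, by omega⟩
    refine sparse_hub (n0 := 9 + (3 * T + 1)) ?_ (by omega) hc hm hδn hm1
    rw [hT]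
    refine (has_g20.union (hasC_plane T)).mono ?_
    rintro a v ⟨b, c, x, y, h1, h2, rfl, rfl⟩
    omega
  · obtain ⟨T, hT⟩ : ∃ T, 17 + 6 * t = 20 + 3 * T := ⟨2 * t - 1, by omega⟩
    refine sparse_direct (n0 := 9 + (3 * T + 1)) ?_ (by omega) hc hm (by omega)
    rw [hT]
    refine (has_g20.union (hasC_plane T)).mono ?_
    rintro a v ⟨b, c, x, y, h1, h2, rfl, rfl⟩
    omega

end Pool.Agent.TH579.EC
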