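import Pool.Agent.TH579.ECOpt

/-! Twin colourings along a forest. -/

set_option autoImplicit false

namespace Pool.Agent.TH579.EC
open Finset
open Pool.Agent.Results.MP_ea54b6_co.Mod6 (PHolds choose_two_succ choose_two_mono)

/-- a set of `ρ` residue classes modulo `r` meets `range N` in at most `ρ * (N / r) + min (N % r) ρ` elements -/
theorem card_res (N r : ℕ) (hr : 0 < r) (S : Finset ℕ) (hS : S ⊆ range N) :
    S.card ≤ (S.image (· % r)).card * (N / r) + min (N % r) (S.image (· % r)).card := by
  set R := S.image (· % r) with hR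
  have hRr : R ⊆ range r := by
    intro x hx
    obtain ⟨y, -, rfl⟩ := mem_image.mp hx
    exact mem_range.mpr (Nat.mod_lt _ hr)
  have h1 : S ⊆ (R ×ˢ range (N / r)).image (fun p => p.1 + r * p.2) ∪
      (R ∩ range (N % r)).image (fun i => i + r * (N / r)) := by
    intro x hx
    have hxN := mem_range.mp (hS hx)
    have hxR : x % r ∈ R := mem_image_of_mem _ hx
    have e := Nat.mod_add_div x r
    have e' := Nat.mod_add_div N r
    rcases Nat.lt_or_ge (x / r) (N / r) with h | h
    · apply mem_union_left
      exact mem_image.mpr ⟨(x % r, x / r), mem_product.mpr ⟨hxR, mem_range.mpr h⟩, e⟩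
    · have h2 : x / r = N / r := le_antisymm (Nat.div_le_div_right hxN.le) h
      apply mem_union_right
      refine mem_image.mpr ⟨x % r, mem_inter.mpr ⟨hxR, mem_range.mpr ?_⟩, ?_⟩
      · rw [h2] at e; omega
      · rw [← h2]; exact e
  refine (card_le_card h1).trans ((card_union_le _ _).trans ?_)
  refine Nat.add_le_add (card_image_le.trans ?_) (card_image_le.trans ?_)
  · rw [card_product, card_range]
  · refine le_min ?_ (card_le_card inter_subset_left)
    refine (card_le_card inter_subset_right).trans ?_
    rw [card_range]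

/-- the number of `u ∈ S` with `u ≥ r` and `u - r ∈ S` is at most `|S|` minus the number of classes met -/
theorem card_links (r : ℕ) (hr : 0 < r) (S : Finset ℕ) :
    (S.filter (fun u => r ≤ u ∧ u - r ∈ S)).card + (S.image (· % r)).card ≤ S.card := by
  have h1 : S.image (· % r) ⊆ (S.filter (fun u => ¬ (r ≤ u ∧ u - r ∈ S))).image (· % r) := by
    intro i hi
    have hne : ∃ u, u ∈ S ∧ u % r = i := by
      obtain ⟨u, hu, h⟩ := mem_image.mp hi
      exact ⟨u, hu, h⟩
    have hsp := Nat.find_spec hne
    refine mem_image.mpr ⟨Nat.find hne, mem_filter.mpr ⟨hsp.1, ?_⟩, hsp.2⟩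
    rintro ⟨h2, h3⟩
    have := Nat.find_min hne (m := Nat.find hne - r) (by omega)
    apply this
    refine ⟨h3, ?_⟩
    rw [← Nat.mod_eq_sub_mod h2]
    exact hsp.2
  have h2 := (card_le_card h1).trans card_image_le
  have h3 := card_filter_add_card_filter_not (s := S) (fun u => r ≤ u ∧ u - r ∈ S)
  omega

section twin
variable (N r : ℕ)

/-- colour of the edge between classes `lo < hi`; `b` tells whether the vertex in class `hi` is the second twin -/
def pc (lo hi : ℕ) (b : Bool) : Option (ℕ × ℕ × Bool) := some (lo, hi, decide (hi = lo + r) && b)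

def cl (x : Fin (N - 1) × Bool) : ℕ := x.1.val + 1

def tk1 (x : Fin (N - 1) × Bool) : Option (ℕ × ℕ × Bool) := pc r 0 (cl N x) x.2

def tk2 (x y : Fin (N - 1) × Bool) : Option (ℕ × ℕ × Bool) :=
  if cl N x = cl N y then none else if cl N x < cl N y then pc r (cl N x) (cl N y) y.2
    else pc r (cl N y) (cl N x) x.2

/-- the classes met by `A`, and the class `0` of the far part -/
def cls (A : Finset (Fin (N - 1) × Bool)) : Finset ℕ := insert 0 (A.image (cl N))

def f0 (e : Finset ℕ) : Option (ℕ × ℕ × Bool) := some (e.sum id - e.sup id, e.sup id, false)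
def f1 (u : ℕ) : Option (ℕ × ℕ × Bool) := some (u - r, u, true)

def links (S : Finset ℕ) : Finset ℕ := S.filter (fun u => r ≤ u ∧ u - r ∈ S)

theorem f0_pair {lo hi : ℕ} (h : lo < hi) : f0 {lo, hi} = some (lo, hi, false) := by
  unfold f0
  rw [sum_pair h.ne, sup_insert, sup_singleton]
  simp only [id, sup_eq_right.mpr h.le, Nat.add_sub_cancel]

theorem pc_mem {S : Finset ℕ} {lo hi : ℕ} (h : lo < hi) (h1 : lo ∈ S) (h2 : hi ∈ S) (b : Bool) :
    pc r lo hi b ∈ (S.powersetCard 2).image f0 ∪ (links r S).image (f1 r) := by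
  unfold pc
  rcases hb : (decide (hi = lo + r) && b) with _ | _
  · apply mem_union_left
    refine mem_image.mpr ⟨{lo, hi}, mem_powersetCard.mpr ⟨?_, card_pair h.ne⟩, f0_pair h⟩
    intro x hx
    rcases mem_insert.mp hx with rfl | hx
    · exact h1
    · rw [mem_singleton.mp hx]; exact h2
  · apply mem_union_right
    have h3 : hi = lo + r := by
      have := (Bool.and_eq_true _ _ ▸ hb : decide (hi = lo + r) = true ∧ b = true).1
      exact of_decide_eq_true this
    refine mem_image.mpr ⟨hi, mem_filter.mpr ⟨h2, by omega, ?_⟩, ?_⟩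
    · rw [h3, Nat.add_sub_cancel]; exact h1
    · unfold f1
      rw [h3, Nat.add_sub_cancel]

theorem seen_sub (A : Finset (Fin (N - 1) × Bool)) :
    seenV (tk1 N r) (tk2 N r) A ⊆
      insert none (((cls N A).powersetCard 2).image f0 ∪ (links r (cls N A)).image (f1 r)) := by
  have h0 : 0 ∈ cls N A := mem_insert_self _ _
  have hx : ∀ x ∈ A, cl N x ∈ cls N A := fun x hx => mem_insert_of_mem (mem_image_of_mem _ hx)
  intro c hc
  simp only [seenV, mem_insert, mem_union, mem_image, mem_offDiag, Prod.exists] at hc
  rcases hc with rfl | ⟨a, b, hab, rfl⟩ | ⟨a, b, a', b', ⟨h1, h2, h3⟩, rfl⟩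
  · exact mem_insert_self _ _
  · apply mem_insert_of_mem
    exact pc_mem r (by unfold cl; omega) h0 (hx _ hab) _
  · unfold tk2
    split_ifs with h4 h5
    · exact mem_insert_self _ _
    · exact mem_insert_of_mem (pc_mem r h5 (hx _ h1) (hx _ h2) _)
    · exact mem_insert_of_mem (pc_mem r (by omega) (hx _ h2) (hx _ h1) _)

theorem card_seen_le (A : Finset (Fin (N - 1) × Bool)) :
    (seenV (tk1 N r) (tk2 N r) A).card ≤ 1 + (cls N A).card.choose 2 + (links r (cls N A)).card := by
  refine (card_le_card (seen_sub N r A)).trans ((card_insert_le _ _).trans ?_)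
  have h1 := card_union_le (((cls N A).powersetCard 2).image f0) ((links r (cls N A)).image (f1 r))
  have h2 : (((cls N A).powersetCard 2).image f0).card ≤ _ := card_image_le
  have h3 : ((links r (cls N A)).image (f1 r)).card ≤ _ := card_image_le
  rw [card_powersetCard] at h2
  omega

theorem le_card_seen (A : Finset (Fin (N - 1) × Bool)) :
    1 + (cls N A).card.choose 2 ≤ (seenV (tk1 N r) (tk2 N r) A).card := by
  let g : Option (ℕ × ℕ × Bool) → Finset ℕ := fun c => match c with
    | none => ∅
    | some (a, b, _) => {a, b}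
  have hsub : (cls N A).powersetCard 2 ⊆ ((seenV (tk1 N r) (tk2 N r) A).erase none).image g := by
    intro e he
    obtain ⟨he, hcard⟩ := mem_powersetCard.mp he
    obtain ⟨lo, hi, hlt, rfl⟩ : ∃ lo hi, lo < hi ∧ e = {lo, hi} := by
      obtain ⟨a, b, hab, rfl⟩ := card_eq_two.mp hcard
      rcases lt_or_gt_of_ne hab with h | h
      · exact ⟨a, b, h, rfl⟩
      · exact ⟨b, a, h, pair_comm _ _⟩
    have h1 : lo ∈ cls N A := he (mem_insert_self _ _)
    have h2 : hi ∈ cls N A := he (mem_insert_of_mem (mem_singleton_self _))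
    obtain ⟨y, hy, hyc⟩ : ∃ y ∈ A, cl N y = hi := by
      rcases mem_insert.mp h2 with h | h
      · omega
      · obtain ⟨y, hy, h⟩ := mem_image.mp h; exact ⟨y, hy, h⟩
    rcases mem_insert.mp h1 with h | h
    · refine mem_image.mpr ⟨tk1 N r y, mem_erase.mpr ⟨by simp [tk1, pc], ?_⟩, ?_⟩
      · exact mem_insert_of_mem (mem_union_left _ (mem_image_of_mem _ hy))
      · simp only [g, tk1, pc, hyc, h]
    · obtain ⟨x, hx, hxc⟩ := mem_image.mp h
      have hxy : tk2 N r x y = pc r lo hi y.2 := by
        unfold tk2
        rw [if_neg (by omega), if_pos (by omega), hxc, hyc]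
      refine mem_image.mpr ⟨tk2 N r x y, mem_erase.mpr ⟨by rw [hxy]; simp [pc], ?_⟩, ?_⟩
      · refine mem_insert_of_mem (mem_union_right _ (mem_image.mpr ⟨(x, y), mem_offDiag.mpr ⟨hx, hy, ?_⟩, rfl⟩))
        intro hh
        have hh : x = y := hh
        rw [hh] at hxc; omega
      · rw [hxy]
        simp only [g, pc]
  have h1 := (card_le_card hsub).trans card_image_le
  have h2 : (none : Option (ℕ × ℕ × Bool)) ∈ seenV (tk1 N r) (tk2 N r) A := mem_insert_self _ _
  rw [card_powersetCard, card_erase_of_mem h2] at h1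
  have h3 : 0 < (seenV (tk1 N r) (tk2 N r) A).card := card_pos.mpr ⟨_, h2⟩
  omega

theorem card_seen_univ (hr : 0 < r) (hN : r < N) :
    (seenV (tk1 N r) (tk2 N r) univ).card = 1 + N.choose 2 + (N - r) := by
  have hcls : cls N univ = range N := by
    ext x
    simp only [cls, mem_insert, mem_image, mem_univ, true_and, mem_range, Prod.exists]
    constructor
    · rintro (rfl | ⟨a, b, rfl⟩)
      · omega
      · have := a.2; unfold cl; simp only; omega
    · intro hx
      rcases Nat.eq_zero_or_pos x with h | h
      · exact Or.inl h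
      · right; exact ⟨⟨x - 1, by omega⟩, true, by unfold cl; simp only; omega⟩
  have hlinks : links r (range N) = Ico r N := by
    ext x
    simp only [links, mem_filter, mem_range, mem_Ico]
    omega
  have hle := card_seen_le N r univ
  rw [hcls, hlinks, card_range, Nat.card_Ico] at hle
  apply le_antisymm hle
  have hsub : insert none (((range N).powersetCard 2).image f0 ∪ (Ico r N).image (f1 r)) ⊆
      seenV (tk1 N r) (tk2 N r) univ := by
    intro c hc
    rcases mem_insert.mp hc with rfl | hc
    · exact mem_insert_self _ _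
    apply mem_insert_of_mem
    -- a colour `(lo, hi, flag)` is attained by suitable vertices
    have key : ∀ lo hi : ℕ, ∀ b : Bool, lo < hi → hi < N →
        pc r lo hi b ∈ (univ : Finset (Fin (N - 1) × Bool)).image (tk1 N r) ∪
          (univ : Finset (Fin (N - 1) × Bool)).offDiag.image (fun p => tk2 N r p.1 p.2) := by
      intro lo hi b h1 h2
      rcases Nat.eq_zero_or_pos lo with h | h
      · subst h
        apply mem_union_left
        refine mem_image.mpr ⟨(⟨hi - 1, by omega⟩, b), mem_univ _, ?_⟩
        simp only [tk1, cl]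
        rw [show hi - 1 + 1 = hi by omega]
      · apply mem_union_right
        obtain ⟨x, hx⟩ : ∃ x : Fin (N - 1) × Bool, cl N x = lo :=
          ⟨(⟨lo - 1, by omega⟩, b), by unfold cl; simp only; omega⟩
        obtain ⟨y, hy, hyb⟩ : ∃ y : Fin (N - 1) × Bool, cl N y = hi ∧ y.2 = b :=
          ⟨(⟨hi - 1, by omega⟩, b), by unfold cl; simp only; omega, rfl⟩
        refine mem_image.mpr ⟨(x, y), mem_offDiag.mpr ⟨mem_univ _, mem_univ _, ?_⟩, ?_⟩
        · intro hh
          have hh : x = y := hh
          rw [hh] at hx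
          omega
        · show tk2 N r x y = _
          unfold tk2
          rw [if_neg (by omega), if_pos (by omega), hx, hy, hyb]
    rcases mem_union.mp hc with h | h
    · obtain ⟨e, he, rfl⟩ := mem_image.mp h
      obtain ⟨he, hcard⟩ := mem_powersetCard.mp he
      obtain ⟨lo, hi, hlt, rfl⟩ : ∃ lo hi, lo < hi ∧ e = {lo, hi} := by
        obtain ⟨a, b, hab, rfl⟩ := card_eq_two.mp hcard
        rcases lt_or_gt_of_ne hab with h | h
        · exact ⟨a, b, h, rfl⟩
        · exact ⟨b, a, h, pair_comm _ _⟩
      rw [f0_pair hlt]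
      have h2 := mem_range.mp (he (mem_insert_of_mem (mem_singleton_self hi)))
      have := key lo hi false hlt h2
      simpa [pc] using this
    · obtain ⟨u, hu, rfl⟩ := mem_image.mp h
      obtain ⟨hu1, hu2⟩ := mem_Ico.mp hu
      have := key (u - r) u true (by omega) hu2
      have e : decide (u = u - r + r) = true := decide_eq_true (by omega)
      simpa only [pc, f1, e, Bool.and_true] using this
  refine le_trans ?_ (card_le_card hsub)
  rw [card_insert_of_notMem, card_union_of_disjoint, card_image_of_injOn, card_image_of_injective,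
    card_powersetCard, card_range, Nat.card_Ico]
  · omega
  · intro a b h
    simp only [f1, Option.some.injEq, Prod.mk.injEq] at h
    exact h.2.1
  · intro e he e' he' h
    obtain ⟨-, hcard⟩ := mem_powersetCard.mp (mem_coe.mp he)
    obtain ⟨-, hcard'⟩ := mem_powersetCard.mp (mem_coe.mp he')
    have hp : ∀ e : Finset ℕ, e.card = 2 → ∃ lo hi, lo < hi ∧ e = {lo, hi} := by
      intro e hcard
      obtain ⟨a, b, hab, rfl⟩ := card_eq_two.mp hcard
      rcases lt_or_gt_of_ne hab with h | h
      · exact ⟨a, b, h, rfl⟩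
      · exact ⟨b, a, h, pair_comm _ _⟩
    obtain ⟨lo, hi, hlt, rfl⟩ := hp e hcard
    obtain ⟨lo', hi', hlt', rfl⟩ := hp e' hcard'
    rw [f0_pair hlt, f0_pair hlt'] at h
    simp only [Option.some.injEq, Prod.mk.injEq] at h
    rw [h.1, h.2.1]
  · rw [disjoint_left]
    intro c hc hc'
    obtain ⟨e, -, rfl⟩ := mem_image.mp hc
    obtain ⟨u, -, h⟩ := mem_image.mp hc'
    simp [f0, f1] at h
  · simp [f0, f1]

end twin

/-- the colourings along forests -/
theorem twin_case (c m N ν r δ : ℕ) (hr : 0 < r) (hrN : r < N) (hc : c + r = (N + 1).choose 2 + 1)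
    (hδ : 1 ≤ δ) (hδν : δ + 1 ≤ ν) (hm : m + δ = (ν + 1).choose 2 + 1)
    (h : δ * (N / r) + min (N % r) δ < ν) : ¬ PHolds c m := by
  have hsym : ∀ x y, tk2 N r x y = tk2 N r y x := by
    intro x y
    unfold tk2
    split_ifs <;> first | rfl | omega
  apply keyV c m (tk1 N r) (tk2 N r) hsym
  · rw [card_seen_univ N r hr hrN]
    rw [choose_two_succ] at hc
    omega
  · intro A hA
    set S := cls N A with hS
    have h1 := card_seen_le N r A
    have h2 := le_card_seen N r A
    have h3 := card_links r hr S
    rw [← hS] at h1 h2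
    have h3' : (links r S).card + (S.image (· % r)).card ≤ S.card := h3
    have hne : 0 < (S.image (· % r)).card := by
      rw [card_pos, image_nonempty]
      exact ⟨0, mem_insert_self _ _⟩
    have hSN : S ⊆ range N := by
      intro x hx
      rcases mem_insert.mp hx with rfl | hx
      · exact mem_range.mpr (by omega)
      · obtain ⟨y, -, rfl⟩ := mem_image.mp hx
        have := y.1.2
        unfold cl
        exact mem_range.mpr (by omega)
    have e1 := choose_two_succ ν
    have e2 := choose_two_succ S.card
    rw [hA] at h1 h2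
    rcases lt_trichotomy S.card ν with h4 | h4 | h4
    · have h5 := choose_two_mono (show S.card + 1 ≤ ν by omega)
      omega
    · have h5 := card_res N r hr S hSN
      rw [h4] at h1 h3' h5
      have h6 : (S.image (· % r)).card ≤ δ := by omega
      have h7 : (S.image (· % r)).card * (N / r) ≤ δ * (N / r) := Nat.mul_le_mul_right _ h6
      have h8 : min (N % r) (S.image (· % r)).card ≤ min (N % r) δ := min_le_min_left _ h6
      omega
    · have h5 := choose_two_mono (show ν + 1 ≤ S.card by omega)
      omega

end Pool.Agent.TH579.EC
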