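import Pool.Agent.TH579.ECLem
import Pool.Agent.TH579.ECTwin
import Pool.Agent.TH579.ECSmall
import Pool.Agent.TH579.ECMod

/-! The necessary conditions for P(c,m). -/

set_option autoImplicit false

namespace Pool.Agent.TH579.EC
open Finset
open Pool.Agent.Results.MP_ea54b6_co.Mod6 (PHolds choose_two_succ choose_two_mono main_thm)

/-- few redundancies compared to the deficit -/
theorem few (c m M n r δ : ℕ) (hM : r + 3 ≤ M) (hc : c + r = M.choose 2 + 1) (hm : m + δ = n.choose 2 + 1)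
    (hm1 : 1 < m) (hδ : 2 ≤ δ) (hδn : δ + 3 ≤ n) (hlt : δ < r) (h6 : (r - δ) % 6 = 0) (h3 : r ≤ 3 * δ)
    (hrn : r < δ + n) : ¬ PHolds c m := by
  rcases lemmaA r δ hδ hlt h3 h6 with ⟨n0, h1, h2⟩ | ⟨n0, h1, h2⟩
  · exact opt_root h2 (N0 := M - 1) (by omega) (by rw [show M - 1 + 1 = M by omega]; exact hc) hm (by omega) hrn
  · exact opt_hub h2 (N0 := M - 1) (by omega) (by rw [show M - 1 + 1 = M by omega]; exact hc) hm hδn hrn hm1

/-- the linear range -/
theorem two_mul_le (c m M n r δ : ℕ) (hM : r + 3 ≤ M) (hc : c + r = M.choose 2 + 1) (hm : m + δ = n.choose 2 + 1)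
    (hm1 : 1 < m) (hδ : 2 ≤ δ) (hδn : δ + 3 ≤ n) (hlt : δ < r) (h6 : (r - δ) % 6 = 0) (hP : PHolds c m) :
    2 * n ≤ M := by
  by_contra hcon
  obtain ⟨N, rfl⟩ : ∃ N, M = N + 1 := ⟨M - 1, by omega⟩
  obtain ⟨ν, rfl⟩ : ∃ ν, n = ν + 1 := ⟨n - 1, by omega⟩
  have hN : N ≤ 2 * ν := by omega
  by_cases hF : δ * (N / r) + min (N % r) δ < ν
  · exact twin_case c m N ν r δ (by omega) (by omega) hc (by omega) (by omega) hm hF hP
  · have hF' := not_lt.mp hF
    have hq : 1 ≤ N / r := (Nat.one_le_div_iff (by omega)).mpr (by omega)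
    have hNr : r * (N / r) + N % r = N := Nat.div_add_mod N r
    have hu : N % r < r := Nat.mod_lt _ (by omega)
    generalize N / r = q at *
    generalize N % r = u at *
    have hmin1 : min u δ ≤ u := min_le_left _ _
    have hmin2 : min u δ ≤ δ := min_le_right _ _
    generalize min u δ = w at *
    have h3 : r ≤ 3 * δ := by
      by_contra h
      have h1 : (3 * δ + 1) * q ≤ r * q := Nat.mul_le_mul_right _ (by omega)
      have h2 : δ * 1 ≤ δ * q := Nat.mul_le_mul_left _ hq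
      nlinarith
    have hrn : r < δ + (ν + 1) := by
      rcases Nat.lt_or_ge q 2 with h | h
      · have : q = 1 := by omega
        subst this
        omega
      · have h1 : r * 2 ≤ r * q := Nat.mul_le_mul_left _ h
        omega
    exact few c m (N + 1) (ν + 1) r δ hM hc hm hm1 hδ hδn hlt h6 h3 hrn hP

/-- the arithmetic consequence of `2 n ≤ M` -/
theorem four_mul (c m M n r δ : ℕ) (hc : c + r = M.choose 2 + 1) (hm : m + δ = n.choose 2 + 1)
    (h2 : 2 * n ≤ M) (hr : r + n ≤ M + δ) (hn : 1 ≤ n) : 4 * m + 3 * δ ≤ c + 3 := by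
  obtain ⟨s, rfl⟩ := Nat.exists_eq_add_of_le h2
  have e1 := add_choose_two' (2 * n) s
  have e2 := add_choose_two' n n
  rw [← two_mul] at e2
  rw [e1, e2] at hc
  have e3 := tt n
  have h4 : 2 * s ≤ 2 * n * s := by nlinarith
  nlinarith

/-- Everything the starting theorem and this file say about `P(c,m)`. -/
theorem all_conditions (c m M n r δ : ℕ) (hm3 : 3 ≤ m) (hmc : m < c) (hM : r + 2 ≤ M)
    (hc : c + r = M.choose 2 + 1) (hn : δ + 2 ≤ n) (hm : m + δ = n.choose 2 + 1) (hP : PHolds c m) :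
    (∃ t : ℕ, 1 ≤ t ∧ r = δ + 6 * t ∧ n + 6 * t ≤ M) ∧ δ + 3 ≤ n ∧ 18 ≤ δ ∧ 2 * n ≤ M ∧
      (r ≤ 3 * δ → n + δ ≤ r) := by
  obtain ⟨⟨t, ht, hrt, hnt⟩, h2, hδn, -⟩ := main_thm c m M n r δ hm3 hmc hM hc hn hm hP
  refine ⟨⟨t, ht, hrt, hnt⟩, hδn, ?_, ?_, ?_⟩
  · by_contra h
    rw [hrt] at hc
    exact small_deficit c m M n t δ hc ht hnt hm (by omega) hδn h2 (by omega) hP
  · exact two_mul_le c m M n r δ (by omega) hc hm (by omega) h2 hδn (by omega) (by omega) hP
  · intro h3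
    by_contra h
    exact few c m M n r δ (by omega) hc hm (by omega) h2 hδn (by omega) (by omega) h3 (by omega) hP

end Pool.Agent.TH579.EC
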