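import Pool.Agent.TH579.ECHas

/-! From finite structures to counterexamples to P(c,m). -/

set_option autoImplicit false

namespace Pool.Agent.TH579.EC
open Finset
open Pool.Agent.Results.MP_ea54b6_co.Mod6 (PHolds choose_two_succ choose_two_mono)

theorem cols_mono {V C : Type} [DecidableEq V] [DecidableEq C] (k : V → V → Option C)
    (hs : ∀ x y, k x y = k y x) {A B : Finset V} (hAB : A ⊆ B) :
    (cols k B).card + A.card.choose 2 ≤ (cols k A).card + B.card.choose 2 := by
  rw [← Sym2.card_image_offDiag A, ← Sym2.card_image_offDiag B]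
  set EA := A.offDiag.image (fun p : V × V => s(p.1, p.2)) with hEA
  set EB := B.offDiag.image (fun p : V × V => s(p.1, p.2)) with hEB
  have hsub : EA ⊆ EB := image_subset_image (offDiag_mono hAB)
  have h1 : cols k B ⊆ cols k A ∪ (EB \ EA).image (Sym2.lift ⟨k, hs⟩) := by
    intro c hc
    obtain ⟨h0, x, hx, y, hy, hxy, rfl⟩ := (mem_cols _ _ _).mp hc
    by_cases h : s(x, y) ∈ EA
    · apply mem_union_left
      rw [mem_cols]
      refine ⟨h0, ?_⟩
      obtain ⟨⟨u, v⟩, huv, h2⟩ := mem_image.mp h
      obtain ⟨hu, hv, huv'⟩ := mem_offDiag.mp huv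
      simp only [Sym2.eq_iff] at h2
      rcases h2 with ⟨rfl, rfl⟩ | ⟨rfl, rfl⟩
      · exact ⟨_, hu, _, hv, huv', rfl⟩
      · exact ⟨_, hv, _, hu, huv'.symm, rfl⟩
    · apply mem_union_right
      refine mem_image.mpr ⟨s(x, y), mem_sdiff.mpr ⟨mem_image.mpr ⟨(x, y), mem_offDiag.mpr ⟨hx, hy, hxy⟩, rfl⟩,
        h⟩, rfl⟩
  have h2 := card_le_card h1
  have h3 := card_union_le (cols k A) ((EB \ EA).image (Sym2.lift ⟨k, hs⟩))
  have h4 : ((EB \ EA).image (Sym2.lift ⟨k, hs⟩)).card ≤ (EB \ EA).card := card_image_le
  have h5 := card_sdiff_add_card_eq_card hsub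
  show (cols k B).card + EA.card ≤ (cols k A).card + EB.card
  omega

theorem Has.le {n r : ℕ} {P : ℕ → Prop} (h : Has n r P) : Has n r (fun v => P v ∧ v ≤ r) := by
  obtain ⟨V, i1, i2, f, ⟨C, iC, k, hk, h1⟩, h2, h3, h4⟩ := h
  refine ⟨V, i1, i2, f, ⟨C, iC, k, hk, h1⟩, h2, h3, fun A => ⟨h4 A, ?_⟩⟩
  have h5 := cols_mono k hk (subset_univ A)
  have h6 := h1 A
  have h7 := h1 univ
  omega

theorem opt_root {n0 N0 r δ c m n : ℕ} (h : Has n0 r (fun v => v ≠ δ)) (hn0 : n0 ≤ N0)
    (hc : c + r = (N0 + 1).choose 2 + 1) (hm : m + δ = n.choose 2 + 1) (hδn : δ + 2 ≤ n)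
    (hrn : r < δ + n) : ¬ PHolds c m := by
  obtain ⟨V, i1, i2, f, ⟨C, iC, k, hk, h1⟩, h2, h3, h4⟩ := (h.extend hn0).le
  let k1 : V → Option (C ⊕ V) := fun x => some (Sum.inr x)
  let k2 : V → V → Option (C ⊕ V) := fun x y => (k x y).map Sum.inl
  have hseen : ∀ A : Finset V, (seenV k1 k2 A).card + f A = 1 + A.card + A.card.choose 2 := by
    intro A
    have e : seenV k1 k2 A = insert none (A.image k1 ∪ (cols k A).image (fun c => c.map Sum.inl)) := by
      ext c
      simp only [seenV, mem_insert, mem_union, mem_image, mem_cols, mem_offDiag, Prod.exists]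
      constructor
      · rintro (h | h | ⟨x, y, ⟨hx, hy, hxy⟩, rfl⟩)
        · exact Or.inl h
        · exact Or.inr (Or.inl h)
        · rcases hkk : k x y with _ | c
          · left; simp only [k2, hkk, Option.map_none]
          · right; right
            exact ⟨some c, ⟨by simp, x, hx, y, hy, hxy, hkk⟩, by simp only [k2, hkk]⟩
      · rintro (h | h | ⟨c, ⟨hc, x, hx, y, hy, hxy, rfl⟩, rfl⟩)
        · exact Or.inl h
        · exact Or.inr (Or.inl h)
        · right; right; exact ⟨x, y, ⟨hx, hy, hxy⟩, rfl⟩
    have hi1 : Function.Injective k1 := fun a b h => Sum.inr_injective (Option.some_injective _ h)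
    have hi2 : Function.Injective (fun c : Option C => c.map (Sum.inl : C → C ⊕ V)) :=
      Option.map_injective Sum.inl_injective
    rw [e, card_insert_of_notMem, card_union_of_disjoint, card_image_of_injective _ hi1,
      card_image_of_injective _ hi2]
    · have := h1 A
      omega
    · rw [disjoint_left]
      intro c hc hc'
      obtain ⟨x, hx, rfl⟩ := mem_image.mp hc
      obtain ⟨b, hb, h⟩ := mem_image.mp hc'
      rcases b with _ | b <;> simp [k1] at h
    · simp only [mem_union, mem_image, not_or]
      refine ⟨?_, ?_⟩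
      · rintro ⟨x, hx, h⟩; simp [k1] at h
      · rintro ⟨b, hb, h⟩
        exact ((mem_cols _ _ _).mp hb).1 (Option.map_eq_none_iff.mp h)
  have h5 := choose_two_succ (n - 1)
  rw [show n - 1 + 1 = n by omega] at h5
  apply keyV c m k1 k2 (fun x y => by simp only [k2, hk x y])
  · have := hseen univ
    rw [card_univ, h2, h3] at this
    rw [choose_two_succ] at hc
    omega
  · intro A hcard
    have h6 := hseen A
    obtain ⟨h7, h8⟩ := h4 A
    have h9 := choose_two_succ A.card
    rcases lt_trichotomy (A.card + 1) n with h3 | h3 | h3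
    · have h10 := choose_two_mono (show A.card + 1 ≤ n - 1 by omega)
      omega
    · rw [h3] at h9
      omega
    · have h10 := choose_two_mono (show n + 1 ≤ A.card + 1 by omega)
      have h11 := choose_two_succ n
      omega

theorem opt_hub {n0 N0 r δ c m n : ℕ} (h : Has n0 (r + 1) (fun v => v ≠ δ + 1)) (hn0 : n0 ≤ N0)
    (hc : c + r = (N0 + 1).choose 2 + 1) (hm : m + δ = n.choose 2 + 1) (hδn : δ + 3 ≤ n)
    (hrn : r < δ + n) (hm1 : 1 < m) : ¬ PHolds c m := by
  obtain ⟨V, i1, i2, f, ⟨C, iC, k, hk, h1⟩, h2, h3, h4⟩ := (h.extend hn0).le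
  let k1 : Option V → Option ((C ⊕ V) ⊕ Unit) := fun _ => some (Sum.inr ())
  let k2 : Option V → Option V → Option ((C ⊕ V) ⊕ Unit) := fun x y =>
    match x, y with
    | some x, some y => (k x y).map (fun c => Sum.inl (Sum.inl c))
    | none, some y => some (Sum.inl (Sum.inr y))
    | some x, none => some (Sum.inl (Sum.inr x))
    | none, none => none
  have hi1 : Function.Injective (fun x : V => (some (Sum.inl (Sum.inr x)) : Option ((C ⊕ V) ⊕ Unit))) :=
    fun a b h => Sum.inr_injective (Sum.inl_injective (Option.some_injective _ h))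
  have hi2 : Function.Injective (fun c : Option C => c.map (fun c => (Sum.inl (Sum.inl c) : (C ⊕ V) ⊕ Unit))) :=
    Option.map_injective (fun a b h => Sum.inl_injective (Sum.inl_injective h))
  have hsym : ∀ x y, k2 x y = k2 y x := by
    rintro (_ | x) (_ | y)
    · rfl
    · rfl
    · rfl
    · simp only [k2, hk x y]
  have hin : ∀ A : Finset V, (seenV k1 k2 (insertNone A)).card + f A = 2 + A.card + A.card.choose 2 := by
    intro A
    have e : seenV k1 k2 (insertNone A) = insert none (insert (some (Sum.inr ())) (A.image
        (fun x : V => (some (Sum.inl (Sum.inr x)) : Option ((C ⊕ V) ⊕ Unit))) ∪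
        (cols k A).image (fun c => c.map (fun c => (Sum.inl (Sum.inl c) : (C ⊕ V) ⊕ Unit))))) := by
      ext c
      simp only [seenV, mem_insert, mem_union, mem_image, mem_cols, mem_offDiag, Prod.exists]
      constructor
      · rintro (h | ⟨x, hx, h⟩ | ⟨x, y, ⟨hx, hy, hxy⟩, rfl⟩)
        · exact Or.inl h
        · exact Or.inr (Or.inl h.symm)
        · rcases x with _ | x <;> rcases y with _ | y
          · exact absurd rfl hxy
          · right; right; left; exact ⟨y, by simpa using hy, rfl⟩
          · right; right; left; exact ⟨x, by simpa using hx, rfl⟩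
          · rcases hkk : k x y with _ | c
            · left; simp only [k2, hkk, Option.map_none]
            · right; right; right
              exact ⟨some c, ⟨by simp, x, by simpa using hx, y, by simpa using hy,
                fun h => hxy (by rw [h]), hkk⟩, by simp only [k2, hkk]⟩
      · rintro (h | h | ⟨x, hx, h⟩ | ⟨c, ⟨hc, x, hx, y, hy, hxy, rfl⟩, rfl⟩)
        · exact Or.inl h
        · right; left; exact ⟨none, by simp, h.symm⟩
        · right; right; exact ⟨none, some x, ⟨by simp, by simpa using hx, by simp⟩, h⟩
        · right; right; exact ⟨some x, some y, ⟨by simpa using hx, by simpa using hy, by simpa using hxy⟩, rfl⟩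
    rw [e, card_insert_of_notMem, card_insert_of_notMem, card_union_of_disjoint,
      card_image_of_injective _ hi1, card_image_of_injective _ hi2]
    · have := h1 A
      omega
    · rw [disjoint_left]
      intro c hc hc'
      obtain ⟨x, hx, rfl⟩ := mem_image.mp hc
      obtain ⟨b, hb, h⟩ := mem_image.mp hc'
      rcases b with _ | b <;> simp at h
    · simp only [mem_union, mem_image, not_or]
      refine ⟨?_, ?_⟩
      · rintro ⟨x, hx, h⟩; simp at h
      · rintro ⟨b, hb, h⟩
        rcases b with _ | b <;> simp at h
    · simp only [mem_insert, mem_union, mem_image, not_or]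
      refine ⟨by simp, ?_, ?_⟩
      · rintro ⟨x, hx, h⟩; simp at h
      · rintro ⟨b, hb, h⟩
        exact ((mem_cols _ _ _).mp hb).1 (Option.map_eq_none_iff.mp h)
  have hout : ∀ A : Finset (Option V), none ∉ A → A.Nonempty →
      (seenV k1 k2 A).card + f (eraseNone A) = 2 + (eraseNone A).card.choose 2 := by
    intro A hN hne
    have e : seenV k1 k2 A = insert none (insert (some (Sum.inr ()))
        ((cols k (eraseNone A)).image (fun c => c.map (fun c => (Sum.inl (Sum.inl c) : (C ⊕ V) ⊕ Unit))))) := by
      ext c
      simp only [seenV, mem_insert, mem_union, mem_image, mem_cols, mem_offDiag, Prod.exists]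
      constructor
      · rintro (h | ⟨x, hx, h⟩ | ⟨x, y, ⟨hx, hy, hxy⟩, rfl⟩)
        · exact Or.inl h
        · exact Or.inr (Or.inl h.symm)
        · rcases x with _ | x <;> rcases y with _ | y
          · exact absurd rfl hxy
          · exact absurd hx hN
          · exact absurd hy hN
          · rcases hkk : k x y with _ | c
            · left; simp only [k2, hkk, Option.map_none]
            · right; right
              exact ⟨some c, ⟨by simp, x, by simpa using hx, y, by simpa using hy,
                fun h => hxy (by rw [h]), hkk⟩, by simp only [k2, hkk]⟩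
      · rintro (h | h | ⟨c, ⟨hc, x, hx, y, hy, hxy, rfl⟩, rfl⟩)
        · exact Or.inl h
        · right; left; exact ⟨hne.choose, hne.choose_spec, h.symm⟩
        · right; right; exact ⟨some x, some y, ⟨by simpa using hx, by simpa using hy, by simpa using hxy⟩, rfl⟩
    rw [e, card_insert_of_notMem, card_insert_of_notMem, card_image_of_injective _ hi2]
    · have := h1 (eraseNone A)
      omega
    · simp only [mem_image]
      rintro ⟨b, hb, h⟩
      rcases b with _ | b <;> simp at h
    · simp only [mem_insert, mem_image, not_or]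
      refine ⟨by simp, ?_⟩
      rintro ⟨b, hb, h⟩
      exact ((mem_cols _ _ _).mp hb).1 (Option.map_eq_none_iff.mp h)
  have h5 := choose_two_succ (n - 1)
  rw [show n - 1 + 1 = n by omega] at h5
  apply keyV c m k1 k2 hsym
  · have h6 := hin univ
    rw [card_univ, h2, h3] at h6
    have e : (insertNone (univ : Finset V)) = univ := by ext x; simp
    rw [e] at h6
    rw [choose_two_succ] at hc
    omega
  · intro A hcard
    by_cases hN : none ∈ A
    · have e : insertNone (eraseNone A) = A := by
        rw [insertNone_eraseNone, insert_eq_of_mem hN]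
      have h6 := hin (eraseNone A)
      rw [e] at h6
      obtain ⟨h7, h8⟩ := h4 (eraseNone A)
      have h9 := choose_two_succ (eraseNone A).card
      rcases lt_trichotomy ((eraseNone A).card + 1) n with h3 | h3 | h3
      · have h10 := choose_two_mono (show (eraseNone A).card + 1 ≤ n - 1 by omega)
        omega
      · rw [h3] at h9
        omega
      · have h10 := choose_two_mono (show n + 1 ≤ (eraseNone A).card + 1 by omega)
        have h11 := choose_two_succ n
        omega
    · rcases A.eq_empty_or_nonempty with h0 | hne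
      · subst h0
        have : (seenV k1 k2 ∅).card = 1 := by simp [seenV]
        omega
      · have h6 := hout A hN hne
        obtain ⟨h7, h8⟩ := h4 (eraseNone A)
        rcases lt_trichotomy (eraseNone A).card n with h3 | h3 | h3
        · have h10 := choose_two_mono (show (eraseNone A).card ≤ n - 1 by omega)
          omega
        · rw [h3] at h6
          omega
        · have h10 := choose_two_mono (show n + 1 ≤ (eraseNone A).card by omega)
          have h11 := choose_two_succ n
          omega

end Pool.Agent.TH579.EC
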