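import Pool.Agent.TH579.ECBlk
import Pool.Agent.TH579.ECGen

/-! Two edge-disjoint Hamiltonian paths of blocks, plus some extra blocks. -/

set_option autoImplicit false

namespace Pool.Agent.TH579.EC
open Finset
open Pool.Agent.Results.MP_ea54b6_co.Mod6 (PHolds choose_two_succ choose_two_mono)

/-- distance of natural numbers -/
def nd (x y : ℕ) : ℕ := (x - y) + (y - x)

/-- the order of the second path: residue class by residue class modulo `q`, classes truncated to length `L` -/
def pos (q L x : ℕ) : ℕ := q * (x % L) + x / L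

theorem pos_lt {q L x : ℕ} (hx : x < q * L) : pos q L x < q * L := by
  have hL : 0 < L := by
    rcases Nat.eq_zero_or_pos L with h | h
    · subst h; simp at hx
    · exact h
  have h1 : x / L < q := (Nat.div_lt_iff_lt_mul hL).mpr hx
  have h2 : x % L < L := Nat.mod_lt _ hL
  have h3 : q * (x % L + 1) ≤ q * L := Nat.mul_le_mul_left _ h2
  rw [Nat.mul_add, Nat.mul_one] at h3
  unfold pos
  omega

theorem pos_inj {q L x y : ℕ} (hx : x < q * L) (hy : y < q * L) (h : pos q L x = pos q L y) : x = y := by
  have hL : 0 < L := by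
    rcases Nat.eq_zero_or_pos L with h | h
    · subst h; simp at hx
    · exact h
  have h1 : x / L < q := (Nat.div_lt_iff_lt_mul hL).mpr hx
  have h2 : y / L < q := (Nat.div_lt_iff_lt_mul hL).mpr hy
  have e1 := Nat.div_add_mod x L
  have e2 := Nat.div_add_mod y L
  unfold pos at h
  generalize x / L = u at *
  generalize y / L = v at *
  have h3 : x % L = y % L := by
    rcases lt_trichotomy (x % L) (y % L) with h4 | h4 | h4
    · have : q * (x % L + 1) ≤ q * (y % L) := Nat.mul_le_mul_left _ h4
      rw [Nat.mul_add, Nat.mul_one] at this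
      omega
    · exact h4
    · have : q * (y % L + 1) ≤ q * (x % L) := Nat.mul_le_mul_left _ h4
      rw [Nat.mul_add, Nat.mul_one] at this
      omega
  rw [h3] at h
  have h4 : u = v := by omega
  rw [← e1, ← e2, h3, h4]

/-- the differences along the second path -/
theorem pos_diff {q L w x t : ℕ} (ht1 : 1 ≤ t) (htw : t ≤ w) (hwL : w < L) :
    nd (pos q L x) (pos q L (x + t)) = q * t ∨ q * (L - w) ≤ nd (pos q L x) (pos q L (x + t)) + 1 := by
  have hL : 0 < L := by omega
  have h1 := Nat.div_add_mod x L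
  have h2 : x % L < L := Nat.mod_lt _ hL
  by_cases h : x % L + t < L
  · left
    have e : x + t = L * (x / L) + (x % L + t) := by omega
    have h3 : (x + t) % L = x % L + t := by
      rw [e, Nat.mul_add_mod, Nat.mod_eq_of_lt h]
    have h4 : (x + t) / L = x / L := by
      rw [e, Nat.mul_add_div hL, Nat.div_eq_of_lt h, Nat.add_zero]
    unfold pos nd
    rw [h3, h4, Nat.mul_add]
    omega
  · right
    have h5 : x % L + t - L < L := by omega
    have e : x + t = L * (x / L + 1) + (x % L + t - L) := by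
      rw [Nat.mul_add, Nat.mul_one]
      omega
    have h3 : (x + t) % L = x % L + t - L := by
      rw [e, Nat.mul_add_mod, Nat.mod_eq_of_lt h5]
    have h4 : (x + t) / L = x / L + 1 := by
      rw [e, Nat.mul_add_div hL, Nat.div_eq_of_lt h5, Nat.add_zero]
    unfold pos nd
    rw [h3, h4]
    have h6 : q * (x % L) = q * (x % L + t - L) + q * (L - t) := by
      rw [← Nat.mul_add]; congr 1; omega
    have h7 : q * (L - w) ≤ q * (L - t) := Nat.mul_le_mul_left _ (by omega)
    omega

/-- admissible pairs of vertices of an extra block: not on any block of the two paths -/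
def Adm (w L : ℕ) (two : Prop) (x y : ℕ) : Prop :=
  w < nd x y ∧ (two → ((∀ t, 1 ≤ t → t ≤ w → nd x y ≠ (w + 1) * t) ∧ nd x y + 1 < (w + 1) * (L - w)))

section sys
variable (w N L T1 T2 Tx : ℕ) (ex : Fin Tx → Fin (w + 1) → ℕ)

/-- the blocks: first path, second path, extra blocks -/
def bl (i : Fin T1 ⊕ Fin T2 ⊕ Fin Tx) (a : Fin (w + 1)) : ℕ :=
  match i with
  | Sum.inl i => w * i.val + a.val
  | Sum.inr (Sum.inl i) => pos (w + 1) L (w * i.val + a.val)
  | Sum.inr (Sum.inr i) => ex i a

variable (hw : 2 ≤ w) (h1 : w * T1 + 1 ≤ N) (hL : (w + 1) * L ≤ N) (hL' : T2 ≠ 0 → 2 * w < L)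
  (h2 : w * T2 + 1 ≤ (w + 1) * L ∨ T2 = 0)
  (hx : ∀ i a, ex i a < N)
  (hadm : ∀ i a a', a ≠ a' → Adm w L (T2 ≠ 0) (ex i a) (ex i a'))
  (hxx : ∀ i j a a' c c', a ≠ a' → ex i a = ex j c → ex i a' = ex j c' → i = j)

include h1 hL h2 hx in
theorem bl_lt (i : Fin T1 ⊕ Fin T2 ⊕ Fin Tx) (a : Fin (w + 1)) : bl w L T1 T2 Tx ex i a < N := by
  have ha := a.2
  rcases i with i | i | i
  · have h3 : w * (i.val + 1) ≤ w * T1 := Nat.mul_le_mul_left _ i.2
    rw [Nat.mul_add, Nat.mul_one] at h3
    simp only [bl]
    omega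
  · have h3 : w * (i.val + 1) ≤ w * T2 := Nat.mul_le_mul_left _ i.2
    rw [Nat.mul_add, Nat.mul_one] at h3
    have hi := i.2
    have h4 : w * i.val + a.val < (w + 1) * L := by omega
    exact (pos_lt h4).trans_le hL
  · exact hx i a

theorem idx_eq {w i j a c : ℕ} {a' c' : ℕ} (ha : a ≤ w) (ha' : a' ≤ w) (hc : c ≤ w) (hc' : c' ≤ w)
    (hne : a ≠ a') (h : w * i + a = w * j + c) (h' : w * i + a' = w * j + c') : i = j := by
  by_contra hij
  rcases lt_or_gt_of_ne hij with h3 | h3
  · have h4 : w * (i + 1) ≤ w * j := Nat.mul_le_mul_left _ h3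
    rw [Nat.mul_add, Nat.mul_one] at h4
    omega
  · have h4 : w * (j + 1) ≤ w * i := Nat.mul_le_mul_left _ h3
    rw [Nat.mul_add, Nat.mul_one] at h4
    omega

theorem nd_comm (x y : ℕ) : nd x y = nd y x := by unfold nd; omega

/-- distance of two vertices on one block of the second path -/
theorem nd_path2 {w L i a a' : ℕ} (ha : a ≤ w) (ha' : a' ≤ w) (hne : a ≠ a') (hwL : 2 * w < L) :
    (∃ t, 1 ≤ t ∧ t ≤ w ∧ nd (pos (w + 1) L (w * i + a)) (pos (w + 1) L (w * i + a')) = (w + 1) * t) ∨
    (w + 1) * (L - w) ≤ nd (pos (w + 1) L (w * i + a)) (pos (w + 1) L (w * i + a')) + 1 := by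
  rcases lt_or_gt_of_ne hne with h | h
  · obtain ⟨t, rfl⟩ := Nat.exists_eq_add_of_lt h
    rcases pos_diff (q := w + 1) (x := w * i + a) (t := t + 1) (w := w) (by omega) (by omega) (show w < L by omega)
      with h1 | h1
    · left; exact ⟨t + 1, by omega, by omega, by rw [← h1, Nat.add_assoc (w * i) a, Nat.add_assoc a t]⟩
    · right; rw [Nat.add_assoc a t, ← Nat.add_assoc (w * i)]; exact h1
  · obtain ⟨t, rfl⟩ := Nat.exists_eq_add_of_lt h
    rw [nd_comm]
    rcases pos_diff (q := w + 1) (x := w * i + a') (t := t + 1) (w := w) (by omega) (by omega) (show w < L by omega)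
      with h1 | h1
    · left; exact ⟨t + 1, by omega, by omega, by rw [← h1, Nat.add_assoc (w * i) a', Nat.add_assoc a' t]⟩
    · right; rw [Nat.add_assoc a' t, ← Nat.add_assoc (w * i)]; exact h1

include hw hL' h2 hadm hxx in
theorem bl_lin (i j : Fin T1 ⊕ Fin T2 ⊕ Fin Tx) (a a' c c' : Fin (w + 1)) (hne : a ≠ a')
    (e1 : bl w L T1 T2 Tx ex i a = bl w L T1 T2 Tx ex j c)
    (e2 : bl w L T1 T2 Tx ex i a' = bl w L T1 T2 Tx ex j c') : i = j := by
  have hne' : a.val ≠ a'.val := fun h => hne (Fin.ext h)
  have ha := a.2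
  have ha' := a'.2
  have hc := c.2
  have hc' := c'.2
  -- distances inside blocks of the first path
  have d1 : ∀ (k : ℕ) (b b' : Fin (w + 1)), nd (w * k + b.val) (w * k + b'.val) ≤ w := by
    intro k b b'
    have := b.2
    have := b'.2
    unfold nd; omega
  have hdist : nd (bl w L T1 T2 Tx ex i a) (bl w L T1 T2 Tx ex i a') =
      nd (bl w L T1 T2 Tx ex j c) (bl w L T1 T2 Tx ex j c') := by rw [e1, e2]
  have hcc : c ≠ c' := by
    intro h
    rw [← h, ← e1] at e2
    rcases i with i | i | i
    · simp only [bl] at e2; omega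
    · simp only [bl] at e2
      have h3 : w * (i.val + 1) ≤ w * T2 := Nat.mul_le_mul_left _ i.2
      rw [Nat.mul_add, Nat.mul_one] at h3
      have hi := i.2
      have := pos_inj (q := w + 1) (L := L) (by omega) (by omega) e2
      omega
    · simp only [bl] at e2
      have := (hadm i a a' hne).1
      rw [e2] at this
      unfold nd at this
      omega
  have hcc' : c.val ≠ c'.val := fun h => hcc (Fin.ext h)
  -- distances inside blocks of the second path exceed `w`
  have hLw : T2 ≠ 0 → w < (w + 1) * (L - w) - 1 := by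
    intro h
    have h3 : (w + 1) * 2 ≤ (w + 1) * (L - w) := Nat.mul_le_mul_left _ (by have := hL' h; omega)
    omega
  have d2 : ∀ (k : Fin T2) (b b' : Fin (w + 1)), b.val ≠ b'.val →
      w < nd (pos (w + 1) L (w * k.val + b.val)) (pos (w + 1) L (w * k.val + b'.val)) := by
    intro k b b' hb
    have hk := k.2
    have hT : T2 ≠ 0 := by omega
    rcases nd_path2 (i := k.val) (show b.val ≤ w by have := b.2; omega) (show b'.val ≤ w by have := b'.2; omega) hb
      (hL' hT) with ⟨t, ht1, ht2, ht3⟩ | h
    · rw [ht3]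
      have : (w + 1) * 1 ≤ (w + 1) * t := Nat.mul_le_mul_left _ ht1
      omega
    · have := hLw hT
      omega
  -- blocks of the second path and extra blocks
  have d3 : ∀ (k : Fin T2) (b b' : Fin (w + 1)) (l : Fin Tx) (f f' : Fin (w + 1)), b.val ≠ b'.val → f ≠ f' →
      nd (pos (w + 1) L (w * k.val + b.val)) (pos (w + 1) L (w * k.val + b'.val)) ≠ nd (ex l f) (ex l f') := by
    intro k b b' l f f' hb hf h
    have hk := k.2
    have hT : T2 ≠ 0 := by omega
    have h3 := (hadm l f f' hf).2 hT
    rcases nd_path2 (i := k.val) (show b.val ≤ w by have := b.2; omega) (show b'.val ≤ w by have := b'.2; omega) hb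
      (hL' hT) with ⟨t, ht1, ht2, ht3⟩ | h4
    · exact h3.1 t ht1 ht2 (by rw [← h, ht3])
    · rw [h] at h4
      have := h3.2
      omega
  rcases i with i | i | i <;> rcases j with j | j | j
  · simp only [bl] at e1 e2
    have := idx_eq (by omega) (by omega) (by omega) (by omega) hne' e1 e2
    rw [Fin.ext this]
  · simp only [bl] at hdist
    have := d1 i.val a a'
    have := d2 j c c' hcc'
    omega
  · simp only [bl] at hdist
    have := d1 i.val a a'
    have := (hadm j c c' hcc).1
    omega
  · simp only [bl] at hdist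
    have := d1 j.val c c'
    have := d2 i a a' hne'
    omega
  · simp only [bl] at e1 e2
    have h3 : w * (i.val + 1) ≤ w * T2 := Nat.mul_le_mul_left _ i.2
    have h4 : w * (j.val + 1) ≤ w * T2 := Nat.mul_le_mul_left _ j.2
    rw [Nat.mul_add, Nat.mul_one] at h3 h4
    have hi := i.2
    have f1 := pos_inj (q := w + 1) (L := L) (by omega) (by omega) e1
    have f2 := pos_inj (q := w + 1) (L := L) (by omega) (by omega) e2
    have := idx_eq (by omega) (by omega) (by omega) (by omega) hne' f1 f2
    rw [Fin.ext this]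
  · simp only [bl] at hdist
    exact absurd hdist (d3 i a a' j c c' hne' hcc)
  · simp only [bl] at hdist
    have := d1 j.val c c'
    have := (hadm i a a' hne).1
    omega
  · simp only [bl] at hdist
    exact absurd hdist.symm (d3 j c c' i a a' hcc' hne)
  · simp only [bl] at e1 e2
    rw [hxx i j a a' c c' hne e1 e2]

end sys

end Pool.Agent.TH579.EC
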