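import Pool.Agent.TH579.ECBlocks
import Pool.Agent.TH579.ECGen

/-! Structures on `M - 1` vertices avoiding one value, with many more vertices than redundancies. -/

set_option autoImplicit false

namespace Pool.Agent.TH579.EC
open Finset
open Pool.Agent.Results.MP_ea54b6_co.Mod6 (PHolds choose_two_succ choose_two_mono)

/-- a structure on `n` vertices of total redundancy `r` whose redundancies `f A` satisfy `P |A| (f A)` -/
def HasC (n r : ℕ) (P : ℕ → ℕ → Prop) : Prop :=
  ∃ (V : Type) (_ : Fintype V) (_ : DecidableEq V) (f : Finset V → ℕ), Real V f ∧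
    Fintype.card V = n ∧ f univ = r ∧ ∀ A, P A.card (f A)

theorem HasC.mono {n r : ℕ} {P Q : ℕ → ℕ → Prop} (h : HasC n r P) (hPQ : ∀ a x, P a x → Q a x) : HasC n r Q := by
  obtain ⟨V, i1, i2, f, h1, h2, h3, h4⟩ := h
  exact ⟨V, i1, i2, f, h1, h2, h3, fun A => hPQ _ _ (h4 A)⟩

theorem HasC.union {n r s t : ℕ} {P Q : ℕ → ℕ → Prop} (h : HasC n r P) (h' : HasC s t Q) :
    HasC (n + s) (r + t) (fun a v => ∃ b c x y, P b x ∧ Q c y ∧ a = b + c ∧ v = x + y) := by
  obtain ⟨V, i1, i2, f, h1, h2, h3, h4⟩ := h
  obtain ⟨W, j1, j2, g, g1, g2, g3, g4⟩ := h'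
  refine ⟨V ⊕ W, inferInstance, inferInstance, _, h1.union g1, ?_, ?_, ?_⟩
  · rw [Fintype.card_sum, h2, g2]
  · have e1 : (univ : Finset (V ⊕ W)).toLeft = univ := by ext x; simp
    have e2 : (univ : Finset (V ⊕ W)).toRight = univ := by ext x; simp
    simp only [e1, e2, h3, g3]
  · intro A
    exact ⟨_, _, _, _, h4 _, g4 _, card_toLeft_add_card_toRight.symm, rfl⟩

theorem HasC.of_sym {V C : Type} [Fintype V] [DecidableEq V] [DecidableEq C] (k : V → V → Option C)
    (hs : ∀ x y, k x y = k y x) (n r : ℕ) (P : ℕ → ℕ → Prop) (hn : Fintype.card V = n)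
    (hr : (cols k univ).card + r = n.choose 2)
    (hP : ∀ A : Finset V, P A.card (A.card.choose 2 - (cols k A).card)) : HasC n r P := by
  refine ⟨V, inferInstance, inferInstance, _, real_of_sym k hs, hn, ?_, ?_⟩
  · rw [card_univ, hn]; omega
  · intro A
    exact hP A

theorem hasC_free (s : ℕ) : HasC s 0 (fun _ v => v = 0) := by
  obtain ⟨V, i1, i2, f, h1, h2, h3, h4⟩ := has_free s
  exact ⟨V, i1, i2, f, h1, h2, h3, h4⟩

theorem HasC.extend {n r N : ℕ} {P : ℕ → ℕ → Prop} (h : HasC n r P) (hP : ∀ a b v, a ≤ b → P a v → P b v)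
    (hN : n ≤ N) : HasC N r P := by
  have := (h.union (hasC_free (N - n))).mono (Q := P) (by
    rintro a v ⟨b, c, x, y, hx, hy, rfl, rfl⟩
    rw [hy]
    exact hP b _ _ (by omega) (by simpa using hx))
  rwa [show n + (N - n) = N by omega, Nat.add_zero] at this

/-- paths of `T` blocks of `w + 1` vertices, consecutive ones sharing a vertex -/
theorem real_path {w T : ℕ} (hw : 2 ≤ w) {D : Type} [DecidableEq D] (k : Fin (w + 1) → Fin (w + 1) → D)
    (hk : ∀ a a', k a a' = k a' a)
    (hf : ∀ B : Finset (Fin (w + 1)), B.card.choose 2 - (cols (fun a a' => some (k a a')) B).card =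
      if B = univ then w else 0) :
    HasC (w * T + 1) (w * T) (fun a v => v % w = 0 ∧ (v + 1 ≤ a ∨ v = 0)) := by
  let p : Fin T → Fin (w + 1) → Fin (w * T + 1) := fun i a => ⟨w * i.val + a.val, by
    have h1 := i.2
    have h2 := a.2
    have h3 : w * (i.val + 1) ≤ w * T := Nat.mul_le_mul_left _ h1
    rw [Nat.mul_add, Nat.mul_one] at h3
    omega⟩
  have hp : ∀ i, Function.Injective (p i) := by
    intro i a a' h
    have := congrArg Fin.val h
    simp only [p, Nat.add_left_cancel_iff] at this
    exact Fin.ext this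
  have hlin : ∀ i j a a' c c', a ≠ a' → p i a = p j c → p i a' = p j c' → i = j := by
    intro i j a a' c c' hne h1 h2
    have e1 : w * i.val + a.val = w * j.val + c.val := congrArg Fin.val h1
    have e2 : w * i.val + a'.val = w * j.val + c'.val := congrArg Fin.val h2
    have ha := a.2
    have ha' := a'.2
    have hc := c.2
    have hc' := c'.2
    have hne' : a.val ≠ a'.val := fun h => hne (Fin.ext h)
    by_contra hij
    rcases lt_or_gt_of_ne (fun h => hij (Fin.ext h) : i.val ≠ j.val) with h | h
    · have h3 : w * (i.val + 1) ≤ w * j.val := Nat.mul_le_mul_left _ h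
      rw [Nat.mul_add, Nat.mul_one] at h3
      omega
    · have h3 : w * (j.val + 1) ≤ w * i.val := Nat.mul_le_mul_left _ h
      rw [Nat.mul_add, Nat.mul_one] at h3
      omega
  have hreal := Real.blocks p hp hlin k hk
  let nf : Finset (Fin (w * T + 1)) → ℕ := fun A => (univ.filter (fun i : Fin T => ∀ a, p i a ∈ A)).card
  have hterm : ∀ A : Finset (Fin (w * T + 1)), (∑ i : Fin T, ((univ.filter (fun a => p i a ∈ A)).card.choose 2 -
      (cols (fun a a' => some (k a a')) (univ.filter (fun a => p i a ∈ A))).card)) = w * nf A := by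
    intro A
    simp only [nf]
    rw [card_filter, mul_sum]
    apply sum_congr rfl
    intro i _
    rw [hf]
    by_cases h : ∀ a, p i a ∈ A
    · rw [if_pos (filter_true_of_mem (fun a _ => h a)), if_pos h, mul_one]
    · rw [if_neg, if_neg h, mul_zero]
      intro h'
      exact h (fun a => (mem_filter.mp ((Finset.ext_iff.mp h' a).mpr (mem_univ a))).2)
  refine ⟨Fin (w * T + 1), inferInstance, inferInstance, fun A => w * nf A, ?_, by simp, ?_, ?_⟩
  · simpa only [hterm] using hreal
  · simp [nf]
  · intro A
    refine ⟨Nat.mul_mod_right _ _, ?_⟩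
    rcases (univ.filter (fun i : Fin T => ∀ a, p i a ∈ A)).eq_empty_or_nonempty with h0 | h0
    · right
      simp only [nf, h0, card_empty, mul_zero]
    · left
      set F := univ.filter (fun i : Fin T => ∀ a, p i a ∈ A) with hF
      set i0 := F.max' h0 with hi0
      have hi0F : i0 ∈ F := F.max'_mem h0
      let q : Fin T × Fin w → Fin (w * T + 1) := fun x => p x.1 x.2.castSucc
      have hq : Function.Injective q := by
        rintro ⟨i, a⟩ ⟨j, b⟩ h
        have e : w * i.val + a.val = w * j.val + b.val := congrArg Fin.val h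
        have ha := a.2
        have hb := b.2
        have hij : i.val = j.val := by
          rcases lt_trichotomy i.val j.val with h | h | h
          · have h3 : w * (i.val + 1) ≤ w * j.val := Nat.mul_le_mul_left _ h
            rw [Nat.mul_add, Nat.mul_one] at h3
            omega
          · exact h
          · have h3 : w * (j.val + 1) ≤ w * i.val := Nat.mul_le_mul_left _ h
            rw [Nat.mul_add, Nat.mul_one] at h3
            omega
        rw [hij] at e
        have hab : a.val = b.val := by omega
        rw [Prod.mk.injEq]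
        exact ⟨Fin.ext hij, Fin.ext hab⟩
      have hsub : insert (p i0 (Fin.last w)) ((F ×ˢ univ).image q) ⊆ A := by
        intro x hx
        rcases mem_insert.mp hx with rfl | hx
        · exact (mem_filter.mp hi0F).2 _
        · obtain ⟨y, hy, rfl⟩ := mem_image.mp hx
          exact (mem_filter.mp (mem_product.mp hy).1).2 _
      have h1 := card_le_card hsub
      rw [card_insert_of_notMem, card_image_of_injective _ hq, card_product, card_univ, Fintype.card_fin] at h1
      · show w * F.card + 1 ≤ A.card
        rw [mul_comm]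
        exact h1
      · intro hx
        obtain ⟨⟨j, b⟩, hy, h⟩ := mem_image.mp hx
        have e : w * j.val + b.val = w * i0.val + w := congrArg Fin.val h
        have hb := b.2
        have hj : j ≤ i0 := F.le_max' _ (mem_product.mp hy).1
        have hj' : w * j.val ≤ w * i0.val := Nat.mul_le_mul_left _ hj
        omega

theorem hasC_tri (T : ℕ) : HasC (2 * T + 1) (2 * T) (fun a v => v % 2 = 0 ∧ (v + 1 ≤ a ∨ v = 0)) :=
  real_path (w := 2) (by omega) (D := Unit) (fun _ _ => ()) (fun _ _ => rfl) (by decide)

theorem hasC_plane (T : ℕ) : HasC (3 * T + 1) (3 * T) (fun a v => v % 3 = 0 ∧ (v + 1 ≤ a ∨ v = 0)) :=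
  real_path (w := 3) (by omega) (D := ℕ) (fun a a' => Nat.xor a a') (by decide) (by decide)

end Pool.Agent.TH579.EC
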