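import Pool.Agent.TH579.ECCount
import Pool.Agent.TH579.ECSparse

/-! The structures made of one or two paths of blocks and extra blocks. -/

set_option autoImplicit false

namespace Pool.Agent.TH579.EC
open Finset

theorem sys_real {V ι : Type} [DecidableEq V] [Fintype ι] [DecidableEq ι] {w s : ℕ} (hsw : s ≤ w)
    (p : ι → Fin (w + 1) → V) (hp : ∀ i, Function.Injective (p i))
    (hlin : ∀ i j a a' c c', a ≠ a' → p i a = p j c → p i a' = p j c' → i = j)
    (k0 ks : Fin (w + 1) → Fin (w + 1) → ℕ) (h0s : ∀ a a', k0 a a' = k0 a' a) (hss : ∀ a a', ks a a' = ks a' a)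
    (h0 : ∀ B : Finset (Fin (w + 1)), B.card.choose 2 - (cols (fun a a' => some (k0 a a')) B).card =
      if B = univ then w else 0)
    (hs : ∀ B : Finset (Fin (w + 1)), B.card.choose 2 - (cols (fun a a' => some (ks a a')) B).card =
      if B = univ then s else 0) (i0 : ι) :
    ∃ f : Finset V → ℕ, Real V f ∧ ∀ A, (f A % w = 0 ∨ f A % w = s % w) ∧
      f A ≤ w * (univ.filter (fun i => ∀ a, p i a ∈ A)).card ∧
      ((∀ i a, p i a ∈ A) → f A + w = w * Fintype.card ι + s) := by
  have h := Real.blocksI p hp hlin (fun i => if i = i0 then ks else k0) (by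
    intro i a a'
    by_cases hi : i = i0
    · simp only [if_pos hi, hss]
    · simp only [if_neg hi, h0s])
  have hterm : ∀ (A : Finset V) (i : ι), (univ.filter (fun a => p i a ∈ A)).card.choose 2 -
      (cols (fun a a' => some ((if i = i0 then ks else k0) a a')) (univ.filter (fun a => p i a ∈ A))).card =
      if ∀ a, p i a ∈ A then (if i = i0 then s else w) else 0 := by
    intro A i
    have hiff : (univ.filter (fun a => p i a ∈ A)) = univ ↔ ∀ a, p i a ∈ A := by
      constructor
      · intro h' a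
        exact (mem_filter.mp ((Finset.ext_iff.mp h' a).mpr (mem_univ a))).2
      · intro h'
        exact filter_true_of_mem (fun a _ => h' a)
    by_cases hi : i = i0
    · simp only [if_pos hi]
      rw [hs]
      simp only [hiff]
    · simp only [if_neg hi]
      rw [h0]
      simp only [hiff]
  simp only [hterm] at h
  refine ⟨_, h, ?_⟩
  intro A
  set F := univ.filter (fun i => ∀ a, p i a ∈ A) with hF
  have hsum : (∑ i, if ∀ a, p i a ∈ A then (if i = i0 then s else w) else 0) = ∑ i ∈ F, (if i = i0 then s else w) := by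
    rw [hF, sum_filter]
  rw [hsum]
  by_cases hi0 : i0 ∈ F
  · have e : ∑ i ∈ F, (if i = i0 then s else w) = s + w * (F.card - 1) := by
      rw [← add_sum_erase F _ hi0, if_pos rfl]
      congr 1
      rw [sum_congr rfl (g := fun _ => w) (fun i hi => if_neg (ne_of_mem_erase hi)), sum_const,
        card_erase_of_mem hi0, smul_eq_mul, mul_comm]
    have hpos : 0 < F.card := card_pos.mpr ⟨i0, hi0⟩
    obtain ⟨x, hx⟩ : ∃ x, F.card = x + 1 := ⟨F.card - 1, by omega⟩
    rw [e, hx, Nat.add_sub_cancel]
    refine ⟨Or.inr (by rw [Nat.add_mul_mod_self_left]), ?_, ?_⟩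
    · rw [Nat.mul_add, Nat.mul_one]; omega
    · intro hall
      have : F = univ := filter_true_of_mem (fun i _ => hall i)
      rw [← card_univ, ← this, hx, Nat.mul_add, Nat.mul_one]
      omega
  · have e : ∑ i ∈ F, (if i = i0 then s else w) = w * F.card := by
      rw [sum_congr rfl (g := fun _ => w) (fun i hi => if_neg (fun h' : i = i0 => hi0 (by rw [← h']; exact hi))),
        sum_const, smul_eq_mul, mul_comm]
    rw [e]
    refine ⟨Or.inl (Nat.mul_mod_right _ _), le_refl _, ?_⟩
    intro hall
    exact absurd (mem_filter.mpr ⟨mem_univ i0, fun a => hall i0 a⟩) hi0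

theorem card_filter_sum {α β : Type} [Fintype α] [Fintype β] (P : α ⊕ β → Prop) [DecidablePred P] :
    (univ.filter P).card = (univ.filter (fun a => P (Sum.inl a))).card + (univ.filter (fun b => P (Sum.inr b))).card := by
  simp only [card_filter]
  rw [Fintype.sum_sum_type]

section
variable {w s N L T1 T2 Tx : ℕ} {ex : Fin Tx → Fin (w + 1) → ℕ}

/-- paths and extra blocks, as a structure on `N` vertices -/
theorem path_struct (hw : 2 ≤ w) (hsw : s ≤ w) (hT1 : 1 ≤ T1) (h1 : w * T1 + 1 ≤ N) (hL : (w + 1) * L ≤ N)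
    (hL' : T2 ≠ 0 → 2 * w < L) (h2 : w * T2 + 1 ≤ (w + 1) * L ∨ T2 = 0)
    (hx : ∀ i a, ex i a < N)
    (hadm : ∀ i a a', a ≠ a' → Adm w L (T2 ≠ 0) (ex i a) (ex i a'))
    (hxx : ∀ i j a a' c c', a ≠ a' → ex i a = ex j c → ex i a' = ex j c' → i = j)
    (k0 ks : Fin (w + 1) → Fin (w + 1) → ℕ) (h0s : ∀ a a', k0 a a' = k0 a' a) (hss : ∀ a a', ks a a' = ks a' a)
    (h0 : ∀ B : Finset (Fin (w + 1)), B.card.choose 2 - (cols (fun a a' => some (k0 a a')) B).card =
      if B = univ then w else 0)
    (hs : ∀ B : Finset (Fin (w + 1)), B.card.choose 2 - (cols (fun a a' => some (ks a a')) B).card =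
      if B = univ then s else 0) :
    ∃ f : Finset (Fin N) → ℕ, Real (Fin N) f ∧ f univ + w = w * (T1 + (T2 + Tx)) + s ∧
      ∀ A, (f A % w = 0 ∨ f A % w = s % w) ∧
        f A + runs (A.map Fin.valEmbedding) ≤ A.card + (if T2 = 0 then 0 else A.card) +
          w * (univ.filter (fun i : Fin Tx => ∀ a, ex i a ∈ A.map Fin.valEmbedding)).card := by
  have hlt := fun i a => bl_lt w N L T1 T2 Tx ex h1 hL h2 hx i a
  have hlin := bl_lin w L T1 T2 Tx ex hw hL' h2 hadm hxx
  let p : Fin T1 ⊕ Fin T2 ⊕ Fin Tx → Fin (w + 1) → Fin N := fun i a => ⟨bl w L T1 T2 Tx ex i a, hlt i a⟩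
  have hpinj : ∀ i, Function.Injective (p i) := by
    intro i a a' h
    have h := congrArg Fin.val h
    by_contra hne
    have hne' : a.val ≠ a'.val := fun h => hne (Fin.ext h)
    have ha := a.2
    have ha' := a'.2
    rcases i with i | i | i
    · simp only [p, bl] at h; omega
    · simp only [p, bl] at h
      have h3 : w * (i.val + 1) ≤ w * T2 := Nat.mul_le_mul_left _ i.2
      rw [Nat.mul_add, Nat.mul_one] at h3
      have hi := i.2
      have := pos_inj (q := w + 1) (L := L) (by omega) (by omega) h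
      omega
    · simp only [p, bl] at h
      have := (hadm i a a' hne).1
      rw [h] at this
      unfold nd at this
      omega
  obtain ⟨f, hf, hA⟩ := sys_real hsw p hpinj (fun i j a a' c c' hne e1 e2 => hlin i j a a' c c' hne
    (congrArg Fin.val e1) (congrArg Fin.val e2)) k0 ks h0s hss h0 hs (Sum.inl ⟨0, by omega⟩)
  refine ⟨f, hf, ?_, ?_⟩
  · have := (hA univ).2.2 (fun _ _ => mem_univ _)
    rw [this]
    simp only [Fintype.card_sum, Fintype.card_fin]
  · intro A
    obtain ⟨hm, hle, -⟩ := hA A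
    refine ⟨hm, ?_⟩
    set B := A.map Fin.valEmbedding with hB
    have hcard : B.card = A.card := card_map _
    have hmem : ∀ (x : ℕ) (h : x < N), (⟨x, h⟩ : Fin N) ∈ A ↔ x ∈ B := by
      intro x h
      rw [hB, mem_map]
      constructor
      · intro h'; exact ⟨⟨x, h⟩, h', rfl⟩
      · rintro ⟨y, hy, hyx⟩
        have : y = ⟨x, h⟩ := Fin.ext hyx
        rwa [← this]
    have e : (univ.filter (fun i => ∀ a, p i a ∈ A)).card =
        (univ.filter (fun i : Fin T1 => ∀ a : Fin (w + 1), w * i.val + a.val ∈ B)).card +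
        ((univ.filter (fun i : Fin T2 => ∀ a : Fin (w + 1), pos (w + 1) L (w * i.val + a.val) ∈ B)).card +
        (univ.filter (fun i : Fin Tx => ∀ a, ex i a ∈ B)).card) := by
      rw [card_filter_sum, card_filter_sum]
      simp only [p, hmem, bl]
    rw [e] at hle
    have c1 := count_path1 w T1 B
    have c2 := count_path2 w L T2 h2 B
    rw [Nat.mul_add, Nat.mul_add] at hle
    by_cases hT : T2 = 0
    · subst hT
      rw [if_pos rfl]
      have : (univ.filter (fun i : Fin 0 => ∀ a : Fin (w + 1), pos (w + 1) L (w * i.val + a.val) ∈ B)).card = 0 := by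
        rw [card_eq_zero]; ext i; exact i.elim0
      rw [this, Nat.mul_zero] at hle
      omega
    · rw [if_neg hT]
      omega

end

end Pool.Agent.TH579.EC
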