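import Mathlib

/-!
A Luzin type set of reals `X` with `[0,1] ⊆ X + X` such that finite subsets of `X`, apart from a
countable part, are caught infinitely often by all sequences of open sets which are dense enough
together with their reflections.
-/

set_option autoImplicit false

open Set Cardinal TopologicalSpace

namespace Pool.Agent.TH579.Luz

/-- An enumeration of a countable basis of the line by nonempty sets. -/
theorem exists_basis : ∃ B : ℕ → Set ℝ, (∀ i, IsOpen (B i) ∧ (B i).Nonempty) ∧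
    ∀ V : Set ℝ, IsOpen V → ∀ x ∈ V, ∃ i, x ∈ B i ∧ B i ⊆ V := by
  obtain ⟨b, hb, hne, hb'⟩ := TopologicalSpace.exists_countable_basis ℝ
  have hbne : b.Nonempty := by
    obtain ⟨v, hv, -⟩ := hb'.exists_subset_of_mem_open (mem_univ (0 : ℝ)) isOpen_univ
    exact ⟨v, hv⟩
  obtain ⟨B, hB⟩ := hb.exists_eq_range hbne
  refine ⟨B, fun i => ⟨hb'.isOpen (hB ▸ mem_range_self i), ?_⟩, fun V hV x hx => ?_⟩
  · rw [nonempty_iff_ne_empty]
    intro h
    exact hne (h ▸ hB ▸ mem_range_self i)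
  · obtain ⟨v, hv, hxv, hvV⟩ := hb'.exists_subset_of_mem_open hx hV
    rw [hB] at hv
    obtain ⟨i, rfl⟩ := hv
    exact ⟨i, hxv, hvV⟩

/-- The chosen basis. -/
noncomputable def B : ℕ → Set ℝ := exists_basis.choose

theorem isOpen_B (i : ℕ) : IsOpen (B i) := (exists_basis.choose_spec.1 i).1

theorem B_nonempty (i : ℕ) : (B i).Nonempty := (exists_basis.choose_spec.1 i).2

theorem exists_B {V : Set ℝ} (hV : IsOpen V) {x : ℝ} (hx : x ∈ V) : ∃ i, x ∈ B i ∧ B i ⊆ V :=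
  exists_basis.choose_spec.2 V hV x hx

/-- Codes of sequences of open sets. -/
abbrev Code : Type := ℕ → ℕ → Prop

/-- The sequence of open sets with a given code. -/
def O (c : Code) (n : ℕ) : Set ℝ := ⋃ i ∈ {i | c n i}, B i

theorem isOpen_O (c : Code) (n : ℕ) : IsOpen (O c n) :=
  isOpen_biUnion fun i _ => isOpen_B i

theorem exists_code (V : ℕ → Set ℝ) (hV : ∀ n, IsOpen (V n)) : ∃ c : Code, ∀ n, O c n = V n := by
  refine ⟨fun n i => B i ⊆ V n, fun n => ?_⟩
  apply Subset.antisymm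
  · exact iUnion₂_subset fun i hi => hi
  · intro x hx
    obtain ⟨i, hi, hiV⟩ := exists_B (hV n) hx
    exact mem_iUnion₂.2 ⟨i, hiV, hi⟩

/-- `V` and its reflections at points of `[0,1]` meet inside the first `n + 1` basic sets. -/
def Good (V : Set ℝ) (n : ℕ) : Prop :=
  ∀ z ∈ Icc (0 : ℝ) 1, ∀ j ≤ n, ∃ x, x ∈ V ∧ z - x ∈ V ∧ x ∈ B j

/-- The step of the recursion. -/
theorem step (P : Set ℝ) (hP : P.Countable) (C : Set Code) (hC : C.Countable) (z : ℝ)
    (hz : z ∈ Icc (0 : ℝ) 1) :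
    ∃ x : ℝ, ∀ c ∈ C, (∀ n, Good (O c n) n) → ∀ A : Finset ℝ, (↑A : Set ℝ) ⊆ P →
      {n | (↑A : Set ℝ) ⊆ O c n}.Infinite →
      {n | (↑A : Set ℝ) ⊆ O c n ∧ x ∈ O c n ∧ z - x ∈ O c n}.Infinite := by
  classical
  let T : Set (Code × Finset ℝ) := {p | p.1 ∈ C ∧ (∀ n, Good (O p.1 n) n) ∧ (↑p.2 : Set ℝ) ⊆ P ∧
    {n | (↑p.2 : Set ℝ) ⊆ O p.1 n}.Infinite}
  have hT : T.Countable := by
    have h1 : {A : Finset ℝ | (↑A : Set ℝ) ⊆ P}.Countable := by
      have h2 : ((fun A : Finset ℝ => (↑A : Set ℝ)) ⁻¹' {t : Set ℝ | t.Finite ∧ t ⊆ P}).Countable :=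
        (Set.countable_ofPred_finite_subset hP).preimage Finset.coe_injective
      exact h2.mono fun A hA => show (↑A : Set ℝ).Finite ∧ (↑A : Set ℝ) ⊆ P from
        ⟨A.finite_toSet, hA⟩
    refine (hC.prod h1).mono ?_
    rintro ⟨c, A⟩ ⟨h1, -, h2, -⟩
    exact ⟨h1, h2⟩
  let D : (Code × Finset ℝ) × ℕ → Set ℝ := fun q =>
    ⋃ n ∈ {n | q.2 ≤ n ∧ (↑q.1.2 : Set ℝ) ⊆ O q.1.1 n},
      (O q.1.1 n ∩ (fun x => z - x) ⁻¹' (O q.1.1 n))
  have hDo : ∀ q ∈ T ×ˢ (univ : Set ℕ), IsOpen (D q) := by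
    intro q _
    refine isOpen_biUnion fun n _ => (isOpen_O _ _).inter ?_
    exact (isOpen_O _ _).preimage (by fun_prop)
  have hDd : ∀ q ∈ T ×ˢ (univ : Set ℕ), Dense (D q) := by
    rintro ⟨⟨c, A⟩, k⟩ ⟨⟨-, hg, -, hinf⟩, -⟩
    rw [dense_iff_inter_open]
    rintro W hW ⟨w, hw⟩
    obtain ⟨j, -, hj⟩ := exists_B hW hw
    obtain ⟨n, hn, hkn⟩ := hinf.exists_gt (max k j)
    obtain ⟨x, h1, h2, h3⟩ := hg n z hz j ((le_max_right _ _).trans hkn.le)
    refine ⟨x, hj h3, ?_⟩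
    simp only [D, mem_iUnion]
    exact ⟨n, ⟨(le_max_left _ _).trans hkn.le, hn⟩, h1, h2⟩
  obtain ⟨x, hx⟩ := (dense_biInter_of_isOpen hDo (hT.prod countable_univ) hDd).nonempty
  refine ⟨x, fun c hc hg A hA hinf => ?_⟩
  refine Set.infinite_of_forall_exists_gt fun k => ?_
  have h1 : x ∈ D ((c, A), k + 1) := by
    have := mem_iInter₂.1 hx ((c, A), k + 1) ⟨⟨hc, hg, hA, hinf⟩, mem_univ _⟩
    exact this
  simp only [D, mem_iUnion] at h1
  obtain ⟨n, ⟨hkn, hAn⟩, h2, h3⟩ := h1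
  exact ⟨n, ⟨hAn, h2, h3⟩, hkn⟩

/-- The main construction, under the continuum hypothesis. -/
theorem exists_set (hCH : (ℵ₁ : Cardinal.{0}) = 𝔠) : ∃ X : Set ℝ, (∀ q : ℚ, (q : ℝ) ∈ X) ∧
    (∀ z ∈ Icc (0 : ℝ) 1, ∃ x ∈ X, ∃ y ∈ X, x + y = z) ∧
    ∀ V : ℕ → Set ℝ, (∀ n, IsOpen (V n) ∧ Good (V n) n) →
      ∃ P : Set ℝ, P ⊆ X ∧ P.Countable ∧ P.Nonempty ∧
        ∀ A : Finset ℝ, (↑A : Set ℝ) ⊆ X \ P → {n | (↑A : Set ℝ) ⊆ V n}.Infinite := by
  classical
  let ι : Type := (ℵ₁ : Cardinal.{0}).ord.ToType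
  have hι : #ι = ℵ₁ := by rw [mk_ord_toType]
  have hIio : ∀ a : ι, (Iio a).Countable := by
    intro a
    rw [← le_aleph0_iff_set_countable]
    have h1 : #(Iio a) < #ι := Cardinal.mk_Iio_lt a (by simp [ι])
    have h2 : #(Iio a) < Order.succ ℵ₀ := by
      rw [succ_aleph0]
      exact h1.trans_eq hι
    exact Order.lt_succ_iff.1 h2
  have hcard : #((Icc (0 : ℝ) 1) × Code) = #ι := by
    have h1 : #(Icc (0 : ℝ) 1) = 𝔠 := mk_Icc_real one_pos
    have h2 : #Code = 𝔠 := by simp [Code]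
    rw [mk_prod, lift_id, lift_id, h1, h2, hι, hCH]
    simp
  obtain ⟨e⟩ := Cardinal.eq.1 hcard
  -- the recursion
  let zz : ι → ℝ := fun a => ((e.symm a).1 : ℝ)
  have hzz : ∀ a, zz a ∈ Icc (0 : ℝ) 1 := fun a => (e.symm a).1.2
  let cc : ι → Code := fun a => (e.symm a).2
  have hrec : ∀ (a : ι) (F : ∀ b, b < a → ℝ), ∃ x : ℝ,
      ∀ c ∈ cc '' (Iic a), (∀ n, Good (O c n) n) → ∀ A : Finset ℝ,
      (↑A : Set ℝ) ⊆ {t | ∃ (b : ι) (hb : b < a), t = F b hb ∨ t = zz b - F b hb} →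
      {n | (↑A : Set ℝ) ⊆ O c n}.Infinite →
      {n | (↑A : Set ℝ) ⊆ O c n ∧ x ∈ O c n ∧ zz a - x ∈ O c n}.Infinite := by
    intro a F
    refine step _ ?_ _ ?_ _ (hzz a)
    · have h1 : (⋃ b : Iio a, ({F b.1 b.2, zz b.1 - F b.1 b.2} : Set ℝ)).Countable := by
        have : Countable (Iio a) := (hIio a).to_subtype
        exact countable_iUnion fun b => (Set.toFinite _).countable
      refine h1.mono ?_
      rintro t ⟨b, hb, h⟩
      exact mem_iUnion.2 ⟨⟨b, hb⟩, by simpa using h⟩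
    · have : (Iic a).Countable := by
        have : Iic a = insert a (Iio a) := by
          ext b; simp [le_iff_lt_or_eq, or_comm]
        rw [this]
        exact (hIio a).insert a
      exact this.image _
  choose G hG using hrec
  let x : ι → ℝ := fun a => (wellFounded_lt (α := ι)).fix G a
  have hx : ∀ a, x a = G a (fun b _ => x b) := fun a => WellFounded.fix_eq _ _ _
  have hx' : ∀ a, ∀ c ∈ cc '' (Iic a), (∀ n, Good (O c n) n) → ∀ A : Finset ℝ,
      (↑A : Set ℝ) ⊆ {t | ∃ b : ι, b < a ∧ (t = x b ∨ t = zz b - x b)} →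
      {n | (↑A : Set ℝ) ⊆ O c n}.Infinite →
      {n | (↑A : Set ℝ) ⊆ O c n ∧ x a ∈ O c n ∧ zz a - x a ∈ O c n}.Infinite := by
    intro a c hc hg A hA hinf
    rw [hx a]
    refine hG a (fun b _ => x b) c hc hg A (hA.trans ?_) hinf
    rintro t ⟨b, hb, h⟩
    exact ⟨b, hb, h⟩
  -- finite sets of late points
  have key : ∀ b : ι, (∀ n, Good (O (cc b) n) n) → ∀ S : Finset ι, (∀ a ∈ S, b ≤ a) →
      {n | (↑(S.image x ∪ S.image (fun a => zz a - x a)) : Set ℝ) ⊆ O (cc b) n}.Infinite := by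
    intro b hg S
    induction S using Finset.induction_on_max with
    | empty =>
      intro _
      simpa using Set.infinite_univ
    | insert a S hmax ih =>
      intro hS
      have ih' := ih fun a' ha' => hS a' (Finset.mem_insert_of_mem ha')
      have h1 := hx' a (cc b) ⟨b, hS a (Finset.mem_insert_self _ _), rfl⟩ hg _ (by
        intro t ht
        simp only [Finset.coe_union, Finset.coe_image, mem_union, mem_image, Finset.mem_coe] at ht
        rcases ht with ⟨a', ha', rfl⟩ | ⟨a', ha', rfl⟩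
        · exact ⟨a', hmax a' ha', Or.inl rfl⟩
        · exact ⟨a', hmax a' ha', Or.inr rfl⟩) ih'
      refine h1.mono ?_
      rintro n ⟨h2, h3, h4⟩ t ht
      simp only [Finset.coe_union, Finset.coe_image, mem_union, mem_image, Finset.mem_coe,
        Finset.mem_insert] at ht
      rcases ht with ⟨a', rfl | ha', rfl⟩ | ⟨a', rfl | ha', rfl⟩
      · exact h3
      · refine h2 ?_
        simp only [Finset.coe_union, Finset.coe_image, mem_union, mem_image, Finset.mem_coe]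
        exact Or.inl ⟨a', ha', rfl⟩
      · exact h4
      · refine h2 ?_
        simp only [Finset.coe_union, Finset.coe_image, mem_union, mem_image, Finset.mem_coe]
        exact Or.inr ⟨a', ha', rfl⟩
  refine ⟨range x ∪ range (fun a => zz a - x a) ∪ range (fun q : ℚ => (q : ℝ)),
    fun q => Or.inr ⟨q, rfl⟩, ?_, ?_⟩
  · intro z hz
    let a : ι := e (⟨z, hz⟩, fun _ _ => True)
    have ha : zz a = z := by simp [zz, a]
    exact ⟨x a, Or.inl (Or.inl ⟨a, rfl⟩), zz a - x a, Or.inl (Or.inr ⟨a, rfl⟩), by rw [ha]; ring⟩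
  · intro V hV
    obtain ⟨c, hc⟩ := exists_code V fun n => (hV n).1
    let b : ι := e (⟨0, by simp⟩, c)
    have hb : cc b = c := by simp [cc, b]
    have hg : ∀ n, Good (O (cc b) n) n := by
      intro n
      rw [hb, hc n]
      exact (hV n).2
    refine ⟨x '' (Iio b) ∪ (fun a => zz a - x a) '' (Iio b) ∪ range (fun q : ℚ => (q : ℝ)),
      ?_, ?_, ⟨_, Or.inr ⟨0, rfl⟩⟩, ?_⟩
    · exact union_subset_union_left _ (union_subset_union (image_subset_range _ _)
        (image_subset_range _ _))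
    · exact (((hIio b).image _).union ((hIio b).image _)).union (countable_range _)
    · intro A hA
      have h1 : ∀ t ∈ A, ∃ a : ι, b ≤ a ∧ (t = x a ∨ t = zz a - x a) := by
        intro t ht
        obtain ⟨h2, h3⟩ := hA ht
        rcases h2 with (⟨a, rfl⟩ | ⟨a, rfl⟩) | h2
        · refine ⟨a, ?_, Or.inl rfl⟩
          by_contra hcon
          exact h3 (Or.inl (Or.inl ⟨a, not_le.1 hcon, rfl⟩))
        · refine ⟨a, ?_, Or.inr rfl⟩
          by_contra hcon
          exact h3 (Or.inl (Or.inr ⟨a, not_le.1 hcon, rfl⟩))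
        · exact absurd (Or.inr h2) h3
      have h1' : ∀ t : ℝ, ∃ a : ι, t ∈ A → b ≤ a ∧ (t = x a ∨ t = zz a - x a) := by
        intro t
        by_cases ht : t ∈ A
        · obtain ⟨a, ha⟩ := h1 t ht
          exact ⟨a, fun _ => ha⟩
        · exact ⟨b, fun h => absurd h ht⟩
      choose g hg0 using h1'
      have hg1 : ∀ t ∈ A, b ≤ g t := fun t ht => (hg0 t ht).1
      have hg2 : ∀ t ∈ A, t = x (g t) ∨ t = zz (g t) - x (g t) := fun t ht => (hg0 t ht).2
      refine (key b hg (A.image g) ?_).mono ?_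
      · intro a ha
        obtain ⟨t, ht, rfl⟩ := Finset.mem_image.1 ha
        exact hg1 t ht
      · intro n hn t ht
        have hn' : (↑((A.image g).image x ∪ (A.image g).image (fun a => zz a - x a)) : Set ℝ) ⊆
            O (cc b) n := hn
        rw [hb, hc n] at hn'
        apply hn'
        simp only [Finset.coe_union, Finset.coe_image, mem_union]
        rcases hg2 t ht with h | h
        · exact Or.inl ⟨g t, ⟨t, ht, rfl⟩, h.symm⟩
        · exact Or.inr ⟨g t, ⟨t, ht, rfl⟩, h.symm⟩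

end Pool.Agent.TH579.Luz
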