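import Mathlib

/-!
Selection properties of sets of reals: open covers, `ω`-covers, `ω`-groupable covers.
-/

set_option autoImplicit false

open Set

namespace Pool.Agent.TH579.Ogp

/-- `𝒰` is an open cover of `X`: a family of relatively open subsets of `X` with union `X`, not
containing `X` itself. -/
def OpenCover (X : Set ℝ) (𝒰 : Set (Set ℝ)) : Prop :=
  (∀ U ∈ 𝒰, ∃ V : Set ℝ, IsOpen V ∧ U = V ∩ X) ∧ ⋃₀ 𝒰 = X ∧ X ∉ 𝒰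

/-- `𝒰` is an open `ω`-cover of `X`. -/
def OmegaCover (X : Set ℝ) (𝒰 : Set (Set ℝ)) : Prop :=
  OpenCover X 𝒰 ∧ ∀ A : Finset ℝ, (↑A : Set ℝ) ⊆ X → ∃ U ∈ 𝒰, (↑A : Set ℝ) ⊆ U

/-- `𝒬` is a partition of `𝒰` into finite nonempty sets. -/
def FinPartition (𝒰 : Set (Set ℝ)) (𝒬 : Set (Set (Set ℝ))) : Prop :=
  (∀ ℱ ∈ 𝒬, ℱ.Finite ∧ ℱ.Nonempty) ∧ 𝒬.PairwiseDisjoint id ∧ ⋃₀ 𝒬 = 𝒰

/-- `𝒰` is multifinite: it can be partitioned into infinitely many finite covers of `X`. -/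
def Multifinite (X : Set ℝ) (𝒰 : Set (Set ℝ)) : Prop :=
  ∃ 𝒬, FinPartition 𝒰 𝒬 ∧ 𝒬.Infinite ∧ ∀ ℱ ∈ 𝒬, OpenCover X ℱ

/-- `𝒰` is an `ω`-groupable open cover of `X`: an open cover which is multifinite, or has a
countable partition `𝒬` into finite sets such that the unions of the members of `𝒬` form an
`ω`-cover of `X`. -/
def OmegaGroupable (X : Set ℝ) (𝒰 : Set (Set ℝ)) : Prop :=
  OpenCover X 𝒰 ∧ (Multifinite X 𝒰 ∨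
    ∃ 𝒬, FinPartition 𝒰 𝒬 ∧ 𝒬.Countable ∧ OmegaCover X {W | ∃ ℱ ∈ 𝒬, W = ⋃₀ ℱ})

/-- `X` satisfies `S_1(𝒜, ℬ)`. -/
def S1 (𝒜 ℬ : Set (Set ℝ) → Prop) : Prop :=
  ∀ 𝒰 : ℕ → Set (Set ℝ), (∀ n, 𝒜 (𝒰 n)) → ∃ U : ℕ → Set ℝ, (∀ n, U n ∈ 𝒰 n) ∧ ℬ (range U)

end Pool.Agent.TH579.Ogp
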