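import Pool.Agent.TH579.OgpTop

/-!
Under the continuum hypothesis some set of reals satisfies `S_1(Ω, O^{ω-gp})` and not `S_1(Ω, Ω)`.
-/

set_option autoImplicit false

open Set

namespace Pool.Agent.TH579.Ogp

open Pool.Agent.TH579.Luz

/-- In an `ω`-cover one can avoid finitely many members. -/
theorem avoid {X : Set ℝ} {𝒰 : Set (Set ℝ)} (hX : X ∉ 𝒰)
    (hop : ∀ U ∈ 𝒰, ∃ V : Set ℝ, IsOpen V ∧ U = V ∩ X)
    (hω : ∀ A : Finset ℝ, (↑A : Set ℝ) ⊆ X → ∃ U ∈ 𝒰, (↑A : Set ℝ) ⊆ U)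
    (T : Set (Set ℝ)) (hT : T.Finite) (A : Finset ℝ) (hA : (↑A : Set ℝ) ⊆ X) :
    ∃ U ∈ 𝒰, U ∉ T ∧ (↑A : Set ℝ) ⊆ U := by
  classical
  have h1 : ∀ t : Set ℝ, ∃ x : ℝ, x ∈ X ∧ (t ∈ 𝒰 → x ∉ t) := by
    intro t
    by_cases ht : t ∈ 𝒰
    · have h2 : t ⊆ X := by
        obtain ⟨V, -, rfl⟩ := hop t ht
        exact inter_subset_right
      have h3 : t ≠ X := fun h => hX (h ▸ ht)
      obtain ⟨x, hx, hxt⟩ := exists_of_ssubset (ssubset_of_subset_of_ne h2 h3)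
      exact ⟨x, hx, fun _ => hxt⟩
    · obtain ⟨U, hU, -⟩ := hω ∅ (by simp)
      have h2 : U ⊆ X := by
        obtain ⟨V, -, rfl⟩ := hop U hU
        exact inter_subset_right
      have h3 : U ≠ X := fun h => hX (h ▸ hU)
      obtain ⟨x, hx, -⟩ := exists_of_ssubset (ssubset_of_subset_of_ne h2 h3)
      exact ⟨x, hx, fun h => absurd h ht⟩
  choose g hg1 hg2 using h1
  obtain ⟨U, hU, hAU⟩ := hω (A ∪ hT.toFinset.image g) (by
    intro x hx
    simp only [Finset.coe_union, Finset.coe_image, Finite.coe_toFinset, mem_union,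
      mem_image] at hx
    rcases hx with hx | ⟨t, -, rfl⟩
    · exact hA hx
    · exact hg1 t)
  refine ⟨U, hU, fun hUT => ?_, fun x hx => hAU ?_⟩
  · refine hg2 U hU (hAU ?_)
    simp only [Finset.coe_union, Finset.coe_image, Finite.coe_toFinset, mem_union, mem_image]
    exact Or.inr ⟨U, hUT, rfl⟩
  · simp only [Finset.coe_union, mem_union]
    exact Or.inl hx

/-- Recursive choice of distinct members of `ω`-covers (outside of a given set) containing given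
finite sets. -/
theorem choose_distinct (𝒰 : ℕ → Set (Set ℝ)) (A : ℕ → Finset ℝ)
    (h : ∀ n, ∀ T : Set (Set ℝ), T.Finite → ∃ U ∈ 𝒰 n, U ∉ T ∧ (↑(A n) : Set ℝ) ⊆ U) :
    ∃ U : ℕ → Set ℝ, Function.Injective U ∧ ∀ n, U n ∈ 𝒰 n ∧ (↑(A n) : Set ℝ) ⊆ U n := by
  classical
  have hrec : ∀ (n : ℕ) (F : ∀ m, m < n → Set ℝ), ∃ U : Set ℝ, U ∈ 𝒰 n ∧
      (∀ m (hm : m < n), U ≠ F m hm) ∧ (↑(A n) : Set ℝ) ⊆ U := by
    intro n F
    obtain ⟨U, h1, h2, h3⟩ := h n {t | ∃ m, ∃ hm : m < n, t = F m hm} (by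
      have : {t | ∃ m, ∃ hm : m < n, t = F m hm} ⊆
          range (fun m : Iio n => F m.1 m.2) := by
        rintro t ⟨m, hm, rfl⟩
        exact ⟨⟨m, hm⟩, rfl⟩
      have : Finite (Iio n) := (finite_Iio n).to_subtype
      exact (finite_range _).subset (by assumption))
    exact ⟨U, h1, fun m hm hU => h2 ⟨m, hm, hU⟩, h3⟩
  choose G hG1 hG2 hG3 using hrec
  let U : ℕ → Set ℝ := fun n => (wellFounded_lt (α := ℕ)).fix G n
  have hU : ∀ n, U n = G n (fun m _ => U m) := fun n => WellFounded.fix_eq _ _ _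
  have hne : ∀ m n, m < n → U n ≠ U m := by
    intro m n hmn
    rw [hU n]
    exact hG2 n (fun m _ => U m) m hmn
  refine ⟨U, fun m n hmn => ?_, fun n => ?_⟩
  · rcases lt_trichotomy m n with h1 | h1 | h1
    · exact absurd hmn.symm (hne m n h1)
    · exact h1
    · exact absurd hmn (hne n m h1)
  · rw [hU n]
    exact ⟨hG1 n _, hG3 n _⟩

/-- Finitely many members of a sequence of open sets with dense tails are good. -/
theorem exists_good (V : ℕ → Set ℝ) (hV : ∀ n, IsOpen (V n))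
    (hd : ∀ N, Dense (⋃ n ∈ Ici N, V n)) (N k : ℕ) :
    ∃ M, N < M ∧ Good (⋃ n ∈ Ico N M, V n) k := by
  classical
  have h1 : ∀ j : ℕ, ∃ M, N < M ∧ ∀ z ∈ Icc (0 : ℝ) 1,
      ∃ x, x ∈ (⋃ n ∈ Ico N M, V n) ∧ z - x ∈ (⋃ n ∈ Ico N M, V n) ∧ x ∈ B j := by
    intro j
    let T : ℕ → Set ℝ := fun M => {z | ∃ x, x ∈ (⋃ n ∈ Ico N M, V n) ∧
      z - x ∈ (⋃ n ∈ Ico N M, V n) ∧ x ∈ B j}
    have hTo : ∀ M, IsOpen (T M) := by
      intro M
      have : T M = ⋃ x ∈ ((⋃ n ∈ Ico N M, V n) ∩ B j), (fun z => z - x) ⁻¹' (⋃ n ∈ Ico N M, V n) := by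
        ext z
        simp only [T, mem_ofPred_eq, mem_iUnion, mem_preimage, mem_inter_iff, exists_prop]
        constructor
        · rintro ⟨x, h1, h2, h3⟩
          exact ⟨x, ⟨h1, h3⟩, h2⟩
        · rintro ⟨x, ⟨h1, h3⟩, h2⟩
          exact ⟨x, h1, h2, h3⟩
      rw [this]
      exact isOpen_biUnion fun x _ => (isOpen_biUnion fun n _ => hV n).preimage (by fun_prop)
    have hTm : ∀ M M', M ≤ M' → T M ⊆ T M' := by
      rintro M M' hM z ⟨x, h1, h2, h3⟩
      have h4 : (⋃ n ∈ Ico N M, V n) ⊆ (⋃ n ∈ Ico N M', V n) :=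
        biUnion_subset_biUnion_left (Ico_subset_Ico_right hM)
      exact ⟨x, h4 h1, h4 h2, h3⟩
    obtain ⟨M, hM⟩ := isCompact_Icc.elim_directed_cover T hTo (by
      intro z _
      let W : Set ℝ := ⋃ n ∈ Ici N, V n
      have hWo : IsOpen W := isOpen_biUnion fun n _ => hV n
      have hW2 : Dense ((fun x => z - x) ⁻¹' W) := by
        rw [dense_iff_inter_open]
        rintro O hO ⟨o, ho⟩
        have hO' : IsOpen ((fun x => z - x) ⁻¹' O) := hO.preimage (by fun_prop)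
        obtain ⟨w, hw, hwW⟩ := (hd N).inter_open_nonempty _ hO' ⟨z - o, by simpa using ho⟩
        refine ⟨z - w, hw, ?_⟩
        show z - (z - w) ∈ W
        rw [sub_sub_cancel]
        exact hwW
      obtain ⟨x, hx1, hx2, hx3⟩ := (((hd N).inter_of_isOpen_left hW2 hWo)).inter_open_nonempty _
        (isOpen_B j) (B_nonempty j)
      obtain ⟨a, ha, hxa⟩ := mem_iUnion₂.1 hx2
      obtain ⟨b, hb, hxb⟩ := mem_iUnion₂.1 hx3
      refine mem_iUnion.2 ⟨max a b + 1, x, mem_iUnion₂.2 ⟨a, ⟨ha, ?_⟩, hxa⟩,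
        mem_iUnion₂.2 ⟨b, ⟨hb, ?_⟩, hxb⟩, hx1⟩
      · exact Nat.lt_succ_of_le (le_max_left _ _)
      · exact Nat.lt_succ_of_le (le_max_right _ _))
      (directed_of_isDirected_le fun M M' h => hTm M M' h)
    exact ⟨max M (N + 1), lt_of_lt_of_le (Nat.lt_succ_self N) (le_max_right _ _),
      fun z hz => hTm _ _ (le_max_left _ _) (hM hz)⟩
  choose M hM1 hM2 using h1
  let L : ℕ := (Finset.range (k + 1)).sup M
  have hL : ∀ j ≤ k, M j ≤ L := fun j hj =>
    Finset.le_sup (f := M) (Finset.mem_range.2 (Nat.lt_succ_of_le hj))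
  refine ⟨L, (hM1 0).trans_le (hL 0 (Nat.zero_le _)), fun z hz j hj => ?_⟩
  obtain ⟨x, h1, h2, h3⟩ := hM2 j z hz
  have h4 : (⋃ n ∈ Ico N (M j), V n) ⊆ (⋃ n ∈ Ico N L, V n) :=
    biUnion_subset_biUnion_left (Ico_subset_Ico_right (hL j hj))
  exact ⟨x, h4 h1, h4 h2, h3⟩

theorem block (b : ℕ → ℕ) (h0 : b 0 = 0) (hb : StrictMono b) (n : ℕ) :
    ∃ k, b k ≤ n ∧ n < b (k + 1) := by
  induction n with
  | zero =>
    refine ⟨0, h0.le, ?_⟩
    have := hb (Nat.lt_succ_self 0)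
    rw [h0] at this
    exact this
  | succ n ih =>
    obtain ⟨k, h1, h2⟩ := ih
    rcases Nat.lt_or_ge (n + 1) (b (k + 1)) with h | h
    · exact ⟨k, h1.trans (Nat.le_succ n), h⟩
    · exact ⟨k + 1, h, (Nat.succ_le_of_lt h2).trans_lt (hb (Nat.lt_succ_self _))⟩

/-- The main selection argument. -/
theorem s1_groupable {X : Set ℝ} (hQ : ∀ q : ℚ, (q : ℝ) ∈ X)
    (hX : ∀ V : ℕ → Set ℝ, (∀ n, IsOpen (V n) ∧ Good (V n) n) →
      ∃ P : Set ℝ, P ⊆ X ∧ P.Countable ∧ P.Nonempty ∧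
        ∀ A : Finset ℝ, (↑A : Set ℝ) ⊆ X \ P → {n | (↑A : Set ℝ) ⊆ V n}.Infinite) :
    S1 (OmegaCover X) (OmegaGroupable X) := by
  classical
  intro 𝒰 h𝒰
  have hXne : X.Nonempty := ⟨_, hQ 0⟩
  -- the even selections
  obtain ⟨q, hq⟩ : ∃ q : ℕ → ℚ, ∀ r N, ∃ n ≥ N, q n = r := by
    obtain ⟨f, hf⟩ := exists_surjective_nat ℚ
    refine ⟨fun n => f (Nat.unpair n).1, fun r N => ?_⟩
    obtain ⟨m, hm⟩ := hf r
    exact ⟨Nat.pair m N, Nat.right_le_pair _ _, by simp [hm]⟩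
  obtain ⟨E, hEinj, hE⟩ := choose_distinct (fun n => 𝒰 (2 * n)) (fun n => {(q n : ℝ)})
    (fun n T hT => avoid (h𝒰 _).1.2.2 (h𝒰 _).1.1 (h𝒰 _).2 T hT _ (by simpa using hQ (q n)))
  have hEop : ∀ n, ∃ V : Set ℝ, IsOpen V ∧ E n = V ∩ X := fun n => (h𝒰 _).1.1 _ (hE n).1
  choose Ê hÊo hÊ using hEop
  have hEne : ∀ n, E n ≠ X := fun n h => (h𝒰 (2 * n)).1.2.2 (h ▸ (hE n).1)
  have hdense : ∀ N, Dense (⋃ n ∈ Ici N, Ê n) := by
    intro N
    refine (Rat.denseRange_cast (𝕜 := ℝ)).mono ?_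
    rintro _ ⟨r, rfl⟩
    obtain ⟨n, hn, hnr⟩ := hq r N
    refine mem_iUnion₂.2 ⟨n, hn, ?_⟩
    have h1 := (hE n).2 (show ((q n : ℝ)) ∈ (↑({(q n : ℝ)} : Finset ℝ) : Set ℝ) by simp)
    rw [hÊ n, hnr] at h1
    exact h1.1
  have hgood := exists_good Ê hÊo hdense
  choose M hM1 hM2 using hgood
  let b : ℕ → ℕ := fun k => Nat.rec 0 (fun k N => M N k) k
  have hb0 : b 0 = 0 := rfl
  have hbs : ∀ k, b (k + 1) = M (b k) k := fun k => rfl
  have hbm : StrictMono b := strictMono_nat_of_lt_succ fun k => by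
    rw [hbs]; exact hM1 (b k) k
  let V : ℕ → Set ℝ := fun k => ⋃ n ∈ Ico (b k) (b (k + 1)), Ê n
  have hV : ∀ k, IsOpen (V k) ∧ Good (V k) k := by
    intro k
    refine ⟨isOpen_biUnion fun n _ => hÊo n, ?_⟩
    show Good (⋃ n ∈ Ico (b k) (b (k + 1)), Ê n) k
    rw [hbs]
    exact hM2 (b k) k
  obtain ⟨P, hPX, hPc, hPne, hP⟩ := hX V hV
  obtain ⟨a, ha⟩ := hPc.exists_eq_range hPne
  have haX : ∀ i, a i ∈ X := fun i => hPX (ha ▸ mem_range_self i)
  have hinter : ∀ (Z : ℕ → Set ℝ), ∃ S : ℕ → Set ℝ, (∀ n, S (2 * n) = E n) ∧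
      (∀ n, S (2 * n + 1) = Z n) ∧ range S = range E ∪ range Z := by
    intro Z
    let S : ℕ → Set ℝ := fun n => if n % 2 = 0 then E (n / 2) else Z (n / 2)
    have h1 : ∀ n, S (2 * n) = E n := by
      intro n
      have : 2 * n % 2 = 0 := by omega
      have h2 : 2 * n / 2 = n := by omega
      simp [S, h2]
    have h2 : ∀ n, S (2 * n + 1) = Z n := by
      intro n
      have h3 : (2 * n + 1) % 2 = 1 := by omega
      have h4 : (2 * n + 1) / 2 = n := by omega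
      simp [S, h3, h4]
    refine ⟨S, h1, h2, ?_⟩
    ext W
    constructor
    · rintro ⟨n, rfl⟩
      rcases Nat.even_or_odd' n with ⟨m, rfl | rfl⟩
      · exact Or.inl ⟨m, (h1 m).symm⟩
      · exact Or.inr ⟨m, (h2 m).symm⟩
    · rintro (⟨n, rfl⟩ | ⟨n, rfl⟩)
      · exact ⟨2 * n, h1 n⟩
      · exact ⟨2 * n + 1, h2 n⟩
  by_cases hcase : ∀ k, ∀ A : Finset ℝ, (↑A : Set ℝ) ⊆ X →
      ∃ U ∈ 𝒰 (2 * k + 1) \ range E, (↑A : Set ℝ) ⊆ U
  · obtain ⟨Z, hZinj, hZ⟩ := choose_distinct (fun k => 𝒰 (2 * k + 1) \ range E)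
      (fun k => (Finset.range (k + 1)).image a)
      (fun k T hT => avoid (fun h => (h𝒰 _).1.2.2 h.1) (fun U hU => (h𝒰 _).1.1 U hU.1)
        (hcase k) T hT _ (by
          intro x hx
          simp only [Finset.coe_image, mem_image] at hx
          obtain ⟨i, -, rfl⟩ := hx
          exact haX i))
    obtain ⟨S, hS1, hS2, hS3⟩ := hinter Z
    refine ⟨S, fun n => ?_, ?_⟩
    · rcases Nat.even_or_odd' n with ⟨m, rfl | rfl⟩
      · rw [hS1]; exact (hE m).1
      · rw [hS2]; exact (hZ m).1.1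
    · let F : ℕ → Set (Set ℝ) := fun k => insert (Z k) (E '' Ico (b k) (b (k + 1)))
      have hF : range S = ⋃ k, F k := by
        rw [hS3]
        ext W
        simp only [F, mem_union, mem_range, mem_iUnion, mem_insert_iff, mem_image]
        constructor
        · rintro (⟨n, rfl⟩ | ⟨n, rfl⟩)
          · -- find the block of `n`
            obtain ⟨k, h2, h1⟩ := block b hb0 hbm n
            exact ⟨k, Or.inr ⟨n, ⟨h2, h1⟩, rfl⟩⟩
          · exact ⟨n, Or.inl rfl⟩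
        · rintro ⟨k, rfl | ⟨n, -, rfl⟩⟩
          · exact Or.inr ⟨k, rfl⟩
          · exact Or.inl ⟨n, rfl⟩
      rw [hF]
      refine groupable F (fun k => ⟨?_, ⟨Z k, mem_insert _ _⟩⟩) ?_ ?_ ?_
      · exact ((finite_Ico _ _).image E).insert _
      · intro i j hij
        show Disjoint (F i) (F j)
        rw [Set.disjoint_left]
        intro W hWi hWj
        rcases hWi with rfl | ⟨m, hm, rfl⟩
        · rcases hWj with h | ⟨n, hn, h⟩
          · exact hij (hZinj h)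
          · exact (hZ i).1.2 ⟨n, h⟩
        · rcases hWj with h | ⟨n, hn, h⟩
          · exact (hZ j).1.2 ⟨m, h⟩
          · have hmn := hEinj h
            subst hmn
            rcases lt_or_gt_of_ne hij with h1 | h1
            · have := hbm.monotone (Nat.succ_le_of_lt h1)
              exact absurd (hn.1) (not_le.2 (hm.2.trans_le this))
            · have := hbm.monotone (Nat.succ_le_of_lt h1)
              exact absurd (hm.1) (not_le.2 (hn.2.trans_le this))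
      · rintro k U (rfl | ⟨n, -, rfl⟩)
        · exact ⟨(h𝒰 _).1.1 _ (hZ k).1.1, fun h => (h𝒰 _).1.2.2 (h ▸ (hZ k).1.1)⟩
        · exact ⟨⟨_, hÊo n, hÊ n⟩, hEne n⟩
      · intro A hA
        have h1 := hP (A.filter (· ∉ P)) (by
          intro x hx
          simp only [Finset.coe_filter, mem_ofPred_eq] at hx
          exact ⟨hA hx.1, hx.2⟩)
        have h2 : ∀ x : ℝ, ∃ i : ℕ, x ∈ P → a i = x := by
          intro x
          by_cases hx : x ∈ P
          · rw [ha] at hx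
            obtain ⟨i, hi⟩ := hx
            exact ⟨i, fun _ => hi⟩
          · exact ⟨0, fun h => absurd h hx⟩
        choose g hg using h2
        have h3 : ({n | (↑(A.filter (· ∉ P)) : Set ℝ) ⊆ V n} \ Iio (A.sup g)).Infinite :=
          h1.sdiff (finite_Iio _)
        refine h3.mono ?_
        rintro k ⟨hk1, hk2⟩ x hx
        rw [mem_Iio, not_lt] at hk2
        by_cases hxP : x ∈ P
        · refine ⟨Z k, mem_insert _ _, (hZ k).2 ?_⟩
          simp only [Finset.coe_image, mem_image, Finset.mem_coe, Finset.mem_range]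
          exact ⟨g x, Nat.lt_succ_of_le ((Finset.le_sup (f := g) hx).trans hk2), hg x hxP⟩
        · have h4 : x ∈ V k := hk1 (by
            simp only [Finset.coe_filter, mem_ofPred_eq]
            exact ⟨hx, hxP⟩)
          obtain ⟨n, hn, hxn⟩ := mem_iUnion₂.1 h4
          refine ⟨E n, mem_insert_of_mem _ ⟨n, hn, rfl⟩, ?_⟩
          rw [hÊ n]
          exact ⟨hxn, hA hx⟩
  · push Not at hcase
    obtain ⟨k, A₀, hA₀, hno⟩ := hcase
    have hEω : ∀ A : Finset ℝ, (↑A : Set ℝ) ⊆ X → ∃ n, (↑A : Set ℝ) ⊆ E n := by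
      intro A hA
      obtain ⟨U, hU, hAU⟩ := (h𝒰 (2 * k + 1)).2 (A ∪ A₀) (by
        rw [Finset.coe_union]; exact union_subset hA hA₀)
      rw [Finset.coe_union, union_subset_iff] at hAU
      by_cases hUE : U ∈ range E
      · obtain ⟨n, rfl⟩ := hUE
        exact ⟨n, hAU.1⟩
      · exact absurd hAU.2 (hno U ⟨hU, hUE⟩)
    have hZ : ∀ n, ∃ U, U ∈ 𝒰 (2 * n + 1) := fun n => by
      obtain ⟨U, hU, -⟩ := (h𝒰 (2 * n + 1)).2 ∅ (by simp)
      exact ⟨U, hU⟩
    choose Z hZ using hZ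
    obtain ⟨S, hS1, hS2, hS3⟩ := hinter Z
    have hSmem : ∀ n, S n ∈ 𝒰 n := by
      intro n
      rcases Nat.even_or_odd' n with ⟨m, rfl | rfl⟩
      · rw [hS1]; exact (hE m).1
      · rw [hS2]; exact hZ m
    refine ⟨S, hSmem, ?_⟩
    have hcatch : ∀ A : Finset ℝ, (↑A : Set ℝ) ⊆ X → ∃ U ∈ range S, (↑A : Set ℝ) ⊆ U := by
      intro A hA
      obtain ⟨n, hn⟩ := hEω A hA
      exact ⟨E n, hS3 ▸ Or.inl ⟨n, rfl⟩, hn⟩
    have hcov : OpenCover X (range S) := by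
      refine ⟨?_, ?_, ?_⟩
      · rintro _ ⟨n, rfl⟩
        exact (h𝒰 n).1.1 _ (hSmem n)
      · apply Subset.antisymm
        · rintro x ⟨_, ⟨n, rfl⟩, hx⟩
          obtain ⟨W, -, hW⟩ := (h𝒰 n).1.1 _ (hSmem n)
          rw [hW] at hx
          exact hx.2
        · intro x hx
          obtain ⟨U, hU, hxU⟩ := hcatch {x} (by simpa using hx)
          exact ⟨U, hU, hxU (by simp)⟩
      · rintro ⟨n, hn⟩
        exact (h𝒰 n).1.2.2 (hn ▸ hSmem n)
    refine ⟨hcov, Or.inr ⟨(fun U => ({U} : Set (Set ℝ))) '' range S, ⟨?_, ?_, ?_⟩,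
      (countable_range S).image _, ?_⟩⟩
    · rintro _ ⟨U, -, rfl⟩
      exact ⟨finite_singleton _, singleton_nonempty _⟩
    · rintro _ ⟨U, -, rfl⟩ _ ⟨U', -, rfl⟩ hne
      show Disjoint ({U} : Set (Set ℝ)) {U'}
      rw [disjoint_singleton]
      rintro rfl
      exact hne rfl
    · ext U
      simp only [mem_sUnion, mem_image]
      constructor
      · rintro ⟨_, ⟨U', hU', rfl⟩, h⟩
        rw [mem_singleton_iff] at h
        rw [h]; exact hU'
      · intro hU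
        exact ⟨{U}, ⟨U, hU, rfl⟩, rfl⟩
    · have : {W | ∃ ℱ ∈ (fun U => ({U} : Set (Set ℝ))) '' range S, W = ⋃₀ ℱ} = range S := by
        ext W
        constructor
        · rintro ⟨_, ⟨U, hU, rfl⟩, rfl⟩
          simpa using hU
        · intro hW
          exact ⟨{W}, ⟨W, hW, rfl⟩, by simp⟩
      rw [this]
      exact ⟨hcov, hcatch⟩

/-- Under the continuum hypothesis the two classes differ. -/
theorem main (hCH : (Cardinal.aleph 1 : Cardinal.{0}) = Cardinal.continuum) :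
    ∃ X : Set ℝ, S1 (OmegaCover X) (OmegaGroupable X) ∧ ¬ S1 (OmegaCover X) (OmegaCover X) := by
  obtain ⟨X, h1, h2, h3⟩ := exists_set hCH
  exact ⟨X, s1_groupable h1 h3, not_s1_omega h2⟩

end Pool.Agent.TH579.Ogp
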