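import Pool.Agent.TH579.Luz
import Pool.Agent.TH579.OgpDefs

/-!
The selection properties of the Luzin type set.
-/

set_option autoImplicit false

open Set MeasureTheory Pointwise

namespace Pool.Agent.TH579.Ogp

open Pool.Agent.TH579.Luz

/-- A set of reals `X` with `[0, 1] ⊆ X + X` does not satisfy `S_1(Ω, Ω)`. -/
theorem not_s1_omega {X : Set ℝ} (hX : ∀ z ∈ Icc (0 : ℝ) 1, ∃ x ∈ X, ∃ y ∈ X, x + y = z) :
    ¬ S1 (OmegaCover X) (OmegaCover X) := by
  classical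
  intro h
  let ε : ℕ → ENNReal := fun n => (1 / 2 : ENNReal) ^ (n + 2)
  have hε : ∑' n, ε n = 1 / 2 := by
    have h1 : ∑' n : ℕ, (1 / 2 : ENNReal) ^ (n + 2) = (1 / 2) ^ 2 * ∑' n : ℕ, (1 / 2 : ENNReal) ^ n := by
      rw [← ENNReal.tsum_mul_left]
      congr 1
      ext n
      rw [pow_add, mul_comm]
    have h2 : ∑' n : ℕ, (1 / 2 : ENNReal) ^ n = 2 := by
      rw [ENNReal.tsum_geometric]
      simp
    show ∑' n : ℕ, (1 / 2 : ENNReal) ^ (n + 2) = 1 / 2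
    rw [h1, h2, pow_two, mul_assoc]
    rw [show (1 / 2 : ENNReal) * 2 = 1 by
      rw [one_div, ENNReal.inv_mul_cancel two_ne_zero ENNReal.ofNat_ne_top], mul_one]
  have hεlt : ∀ n, ε n < 1 := by
    intro n
    have h1 : ε n ≤ 1 / 2 := hε ▸ ENNReal.le_tsum n
    refine h1.trans_lt ?_
    rw [one_div]
    exact ENNReal.one_half_lt_one
  have hεpos : ∀ n, 0 < ε n := by
    intro n
    exact ENNReal.pow_pos (by simp) _
  let 𝒰 : ℕ → Set (Set ℝ) := fun n => {U | ∃ V : Set ℝ, IsOpen V ∧ U = V ∩ X ∧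
    volume (V + V) < ε n}
  have hsmall : ∀ (n : ℕ) (A : Finset ℝ), (↑A : Set ℝ) ⊆ X → ∃ U ∈ 𝒰 n, (↑A : Set ℝ) ⊆ U := by
    intro n A hA
    obtain ⟨δ, hδ, hδ'⟩ : ∃ δ : ℝ, 0 < δ ∧
        ((A.card * A.card : ℕ) : ENNReal) * ENNReal.ofReal (4 * δ) < ε n := by
      have hc : Filter.Tendsto (fun δ : ℝ => ((A.card * A.card : ℕ) : ENNReal) *
          ENNReal.ofReal (4 * δ)) (nhdsWithin 0 (Ioi 0)) (nhds 0) := by
        have h1 : Filter.Tendsto (fun δ : ℝ => ENNReal.ofReal (4 * δ)) (nhdsWithin 0 (Ioi 0))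
            (nhds 0) := by
          have : Filter.Tendsto (fun δ : ℝ => ENNReal.ofReal (4 * δ)) (nhds 0)
              (nhds (ENNReal.ofReal (4 * 0))) :=
            (ENNReal.continuous_ofReal.comp (continuous_const.mul continuous_id)).tendsto 0
          simp only [mul_zero, ENNReal.ofReal_zero] at this
          exact this.mono_left nhdsWithin_le_nhds
        have h2 := ENNReal.Tendsto.const_mul (a := ((A.card * A.card : ℕ) : ENNReal)) h1
          (Or.inr (ENNReal.natCast_ne_top _))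
        simpa using h2
      have h3 := (hc.eventually (gt_mem_nhds (hεpos n))).and self_mem_nhdsWithin
      obtain ⟨δ, h4, h5⟩ := h3.exists
      exact ⟨δ, h5, h4⟩
    let V : Set ℝ := ⋃ a ∈ A, Ioo (a - δ) (a + δ)
    have hV : V + V ⊆ ⋃ p ∈ A ×ˢ A, Ioo (p.1 + p.2 - 2 * δ) (p.1 + p.2 + 2 * δ) := by
      rintro _ ⟨x, hx, y, hy, rfl⟩
      simp only [V, mem_iUnion, mem_Ioo, exists_prop] at hx hy
      obtain ⟨a, ha, hxa⟩ := hx
      obtain ⟨b, hb, hyb⟩ := hy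
      simp only [mem_iUnion, mem_Ioo, exists_prop]
      exact ⟨(a, b), Finset.mk_mem_product ha hb, by
        show a + b - 2 * δ < x + y; linarith [hxa.1, hyb.1], by
        show x + y < a + b + 2 * δ; linarith [hxa.2, hyb.2]⟩
    refine ⟨V ∩ X, ⟨V, ?_, rfl, ?_⟩, fun a ha => ⟨?_, hA ha⟩⟩
    · exact isOpen_biUnion fun a _ => isOpen_Ioo
    · refine lt_of_le_of_lt ((measure_mono hV).trans (measure_biUnion_finset_le _ _)) ?_
      refine lt_of_le_of_lt (le_of_eq ?_) hδ'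
      have : ∀ p ∈ A ×ˢ A, volume (Ioo (p.1 + p.2 - 2 * δ) (p.1 + p.2 + 2 * δ)) =
          ENNReal.ofReal (4 * δ) := by
        intro p _
        rw [Real.volume_Ioo]
        congr 1
        ring
      rw [Finset.sum_congr rfl this, Finset.sum_const, Finset.card_product, nsmul_eq_mul]
    · simp only [V, mem_iUnion, mem_Ioo, exists_prop]
      exact ⟨a, ha, by linarith, by linarith⟩
  have hIcc : ∀ V : Set ℝ, X ⊆ V → (1 : ENNReal) ≤ volume (V + V) := by
    intro V hXV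
    have h1 : Icc (0 : ℝ) 1 ⊆ V + V := by
      intro z hz
      obtain ⟨x, hx, y, hy, hxy⟩ := hX z hz
      exact ⟨x, hXV hx, y, hXV hy, hxy⟩
    have h2 := measure_mono (μ := volume) h1
    rw [Real.volume_Icc] at h2
    simpa using h2
  have h𝒰 : ∀ n, OmegaCover X (𝒰 n) := by
    intro n
    refine ⟨⟨?_, ?_, ?_⟩, hsmall n⟩
    · rintro U ⟨V, hV, rfl, -⟩
      exact ⟨V, hV, rfl⟩
    · apply Subset.antisymm
      · rintro x ⟨U, ⟨V, -, rfl, -⟩, hx⟩
        exact hx.2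
      · intro x hx
        obtain ⟨U, hU, hxU⟩ := hsmall n {x} (by simpa using hx)
        exact ⟨U, hU, hxU (by simp)⟩
    · rintro ⟨V, -, hVX, hlt⟩
      have h1 : X ⊆ V := by
        rw [hVX]; exact inter_subset_left
      exact absurd ((hIcc V h1).trans_lt hlt) (not_lt.2 (hεlt n).le)
  obtain ⟨U, hU, -, hω⟩ := h 𝒰 h𝒰
  choose V hV hUV hlt using hU
  have hcov : Icc (0 : ℝ) 1 ⊆ ⋃ n, (V n + V n) := by
    intro z hz
    obtain ⟨x, hx, y, hy, hxy⟩ := hX z hz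
    obtain ⟨_, ⟨n, rfl⟩, hn⟩ := hω {x, y} (by
      intro t ht
      simp only [Finset.coe_insert, Finset.coe_singleton, mem_insert_iff, mem_singleton_iff] at ht
      rcases ht with rfl | rfl <;> assumption)
    rw [hUV n] at hn
    refine mem_iUnion.2 ⟨n, x, (hn (by simp)).1, y, (hn (by simp)).1, hxy⟩
  have h1 : volume (Icc (0 : ℝ) 1) ≤ ∑' n, ε n :=
    (measure_mono hcov).trans ((measure_iUnion_le _).trans
      (ENNReal.tsum_le_tsum fun n => (hlt n).le))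
  rw [hε, Real.volume_Icc] at h1
  simp at h1

/-- A sequence of pairwise disjoint finite sets of open sets whose unions catch every finite
subset of `X` infinitely often is an `ω`-groupable cover. -/
theorem groupable {X : Set ℝ} (F : ℕ → Set (Set ℝ)) (hfin : ∀ n, (F n).Finite ∧ (F n).Nonempty)
    (hdisj : Pairwise (fun m n => Disjoint (F m) (F n)))
    (hop : ∀ n, ∀ U ∈ F n, (∃ V : Set ℝ, IsOpen V ∧ U = V ∩ X) ∧ U ≠ X)
    (hcatch : ∀ A : Finset ℝ, (↑A : Set ℝ) ⊆ X → {n | (↑A : Set ℝ) ⊆ ⋃₀ F n}.Infinite) :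
    OmegaGroupable X (⋃ n, F n) := by
  classical
  have hsub : ∀ n, ∀ U ∈ F n, U ⊆ X := by
    intro n U hU
    obtain ⟨⟨V, -, rfl⟩, -⟩ := hop n U hU
    exact inter_subset_right
  have hsubn : ∀ n, ⋃₀ F n ⊆ X := fun n => sUnion_subset (hsub n)
  have hopen : ∀ ℱ : Set (Set ℝ), ℱ ⊆ ⋃ n, F n → ∃ V : Set ℝ, IsOpen V ∧ ⋃₀ ℱ = V ∩ X := by
    intro ℱ hℱ
    have h1 : ∀ U : Set ℝ, ∃ V : Set ℝ, U ∈ ℱ → IsOpen V ∧ U = V ∩ X := by
      intro U
      by_cases hU : U ∈ ℱ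
      · obtain ⟨n, hn⟩ := mem_iUnion.1 (hℱ hU)
        obtain ⟨V, hV⟩ := (hop n U hn).1
        exact ⟨V, fun _ => hV⟩
      · exact ⟨∅, fun h => absurd h hU⟩
    choose g hg using h1
    refine ⟨⋃ U ∈ ℱ, g U, isOpen_biUnion fun U hU => (hg U hU).1, ?_⟩
    ext x
    simp only [mem_sUnion, mem_inter_iff, mem_iUnion, exists_prop]
    constructor
    · rintro ⟨U, hU, hx⟩
      rw [(hg U hU).2] at hx
      exact ⟨⟨U, hU, hx.1⟩, hx.2⟩
    · rintro ⟨⟨U, hU, hx⟩, hxX⟩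
      refine ⟨U, hU, ?_⟩
      rw [(hg U hU).2]
      exact ⟨hx, hxX⟩
  have hcov : OpenCover X (⋃ n, F n) := by
    refine ⟨fun U hU => ?_, ?_, ?_⟩
    · obtain ⟨n, hn⟩ := mem_iUnion.1 hU
      exact (hop n U hn).1
    · apply Subset.antisymm
      · refine sUnion_subset fun U hU => ?_
        obtain ⟨n, hn⟩ := mem_iUnion.1 hU
        exact hsub n U hn
      · intro x hx
        obtain ⟨n, hn⟩ := (hcatch {x} (by simpa using hx)).nonempty
        obtain ⟨U, hU, hxU⟩ := hn (show x ∈ (↑({x} : Finset ℝ) : Set ℝ) by simp)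
        exact ⟨U, mem_iUnion.2 ⟨n, hU⟩, hxU⟩
    · intro hcon
      obtain ⟨n, hn⟩ := mem_iUnion.1 hcon
      exact (hop n X hn).2 rfl
  refine ⟨hcov, ?_⟩
  by_cases hK : {n | ⋃₀ F n = X}.Infinite
  · left
    let K : Set ℕ := {n | ⋃₀ F n = X}
    let G : ℕ → Set (Set ℝ) := fun j => ⋃ n ∈ {n | Nat.count (· ∈ K) n = j}, F n
    have hnth : ∀ j, Nat.nth (· ∈ K) j ∈ K ∧ Nat.count (· ∈ K) (Nat.nth (· ∈ K) j) = j := by
      intro j
      exact ⟨Nat.nth_mem_of_infinite hK j, Nat.count_nth_of_infinite hK j⟩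
    have hfinj : ∀ j, {n | Nat.count (· ∈ K) n = j}.Finite := by
      intro j
      refine (Set.finite_Iic (Nat.nth (· ∈ K) j)).subset ?_
      intro n hn
      by_contra hcon
      rw [mem_Iic, not_le] at hcon
      have h1 : Nat.count (· ∈ K) (Nat.nth (· ∈ K) j + 1) ≤ Nat.count (· ∈ K) n :=
        Nat.count_monotone _ hcon
      rw [Nat.count_succ, (hnth j).2, if_pos (hnth j).1] at h1
      have h2 : Nat.count (· ∈ K) n = j := hn
      omega
    have hFG : ∀ j, F (Nat.nth (· ∈ K) j) ⊆ G j := fun j => subset_biUnion_of_mem (hnth j).2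
    have hGfin : ∀ j, (G j).Finite ∧ (G j).Nonempty := fun j =>
      ⟨(hfinj j).biUnion fun n _ => (hfin n).1, (hfin _).2.mono (hFG j)⟩
    have hGdisj : ∀ i j, i ≠ j → Disjoint (G i) (G j) := by
      intro i j hij
      rw [Set.disjoint_left]
      intro U hU hU'
      simp only [G, mem_iUnion, exists_prop] at hU hU'
      obtain ⟨m, hm, hUm⟩ := hU
      obtain ⟨n, hn, hUn⟩ := hU'
      have hmn : m ≠ n := by
        rintro rfl
        exact hij (hm.symm.trans hn)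
      exact Set.disjoint_left.1 (hdisj hmn) hUm hUn
    have hGinj : Function.Injective G := by
      intro i j hij
      by_contra hne
      have := hGdisj i j hne
      rw [hij, disjoint_self] at this
      obtain ⟨U, hU⟩ := (hGfin j).2
      rw [this] at hU
      exact hU
    have hGsub : ∀ j, G j ⊆ ⋃ n, F n := fun j => iUnion₂_subset fun n _ => subset_iUnion F n
    refine ⟨range G, ⟨?_, ?_, ?_⟩, infinite_range_of_injective hGinj, ?_⟩
    · rintro _ ⟨j, rfl⟩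
      exact hGfin j
    · rintro _ ⟨i, rfl⟩ _ ⟨j, rfl⟩ hij
      exact hGdisj i j (fun h => hij (by rw [h]))
    · apply Subset.antisymm
      · rintro U ⟨_, ⟨j, rfl⟩, hU⟩
        exact hGsub j hU
      · intro U hU
        obtain ⟨n, hn⟩ := mem_iUnion.1 hU
        exact ⟨G (Nat.count (· ∈ K) n), mem_range_self _, mem_iUnion₂.2 ⟨n, rfl, hn⟩⟩
    · rintro _ ⟨j, rfl⟩
      refine ⟨fun U hU => hcov.1 U (hGsub j hU), ?_, fun h => hcov.2.2 (hGsub j h)⟩
      apply Subset.antisymm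
      · refine sUnion_subset fun U hU => ?_
        obtain ⟨n, hn⟩ := mem_iUnion.1 (hGsub j hU)
        exact hsub n U hn
      · have h1 : ⋃₀ F (Nat.nth (· ∈ K) j) = X := (hnth j).1
        intro x hx
        rw [← h1] at hx
        obtain ⟨U, hU, hxU⟩ := hx
        exact ⟨U, hFG j hU, hxU⟩
  · right
    rw [not_infinite] at hK
    let K : Set ℕ := {n | ⋃₀ F n = X}
    let 𝒬 : Set (Set (Set ℝ)) := F '' Kᶜ ∪ ⋃ n ∈ K, (fun U => ({U} : Set (Set ℝ))) '' F n
    have hmem : ∀ ℱ ∈ 𝒬, (∃ n, n ∉ K ∧ ℱ = F n) ∨ (∃ n ∈ K, ∃ U ∈ F n, ℱ = {U}) := by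
      rintro ℱ (⟨n, hn, rfl⟩ | h)
      · exact Or.inl ⟨n, hn, rfl⟩
      · simp only [mem_iUnion, mem_image, exists_prop] at h
        obtain ⟨n, hn, U, hU, rfl⟩ := h
        exact Or.inr ⟨n, hn, U, hU, rfl⟩
    have hsubF : ∀ ℱ ∈ 𝒬, ∃ n, ℱ ⊆ F n := by
      intro ℱ hℱ
      rcases hmem ℱ hℱ with ⟨n, -, rfl⟩ | ⟨n, -, U, hU, rfl⟩
      · exact ⟨n, subset_rfl⟩
      · exact ⟨n, singleton_subset_iff.2 hU⟩
    refine ⟨𝒬, ⟨?_, ?_, ?_⟩, ?_, ⟨⟨?_, ?_, ?_⟩, ?_⟩⟩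
    · intro ℱ hℱ
      rcases hmem ℱ hℱ with ⟨n, -, rfl⟩ | ⟨n, -, U, hU, rfl⟩
      · exact hfin n
      · exact ⟨finite_singleton _, singleton_nonempty _⟩
    · intro ℱ hℱ 𝒢 h𝒢 hne
      show Disjoint ℱ 𝒢
      rcases hmem ℱ hℱ with ⟨m, hm, rfl⟩ | ⟨m, hm, U, hU, rfl⟩ <;>
        rcases hmem 𝒢 h𝒢 with ⟨n, hn, rfl⟩ | ⟨n, hn, U', hU', rfl⟩
      · exact hdisj fun h => hne (by rw [h])
      · rw [disjoint_singleton_right]
        intro h
        have hmn : m ≠ n := by rintro rfl; exact hm hn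
        exact Set.disjoint_left.1 (hdisj hmn) h hU'
      · rw [disjoint_singleton_left]
        intro h
        have hmn : n ≠ m := by rintro rfl; exact hn hm
        exact Set.disjoint_left.1 (hdisj hmn) h hU
      · rw [disjoint_singleton]
        rintro rfl
        exact hne rfl
    · apply Subset.antisymm
      · rintro U ⟨ℱ, hℱ, hU⟩
        obtain ⟨n, hn⟩ := hsubF ℱ hℱ
        exact mem_iUnion.2 ⟨n, hn hU⟩
      · intro U hU
        obtain ⟨n, hn⟩ := mem_iUnion.1 hU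
        by_cases hnK : n ∈ K
        · exact ⟨{U}, Or.inr (mem_iUnion₂.2 ⟨n, hnK, U, hn, rfl⟩), rfl⟩
        · exact ⟨F n, Or.inl ⟨n, hnK, rfl⟩, hn⟩
    · exact ((Set.to_countable _).image _).union
        (Set.Countable.biUnion (Set.to_countable _) fun n _ => (hfin n).1.countable.image _)
    · rintro W ⟨ℱ, hℱ, rfl⟩
      obtain ⟨n, hn⟩ := hsubF ℱ hℱ
      exact hopen ℱ (hn.trans (subset_iUnion F n))
    · apply Subset.antisymm
      · rintro x ⟨_, ⟨ℱ, hℱ, rfl⟩, hx⟩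
        obtain ⟨n, hn⟩ := hsubF ℱ hℱ
        obtain ⟨U, hU, hxU⟩ := hx
        exact hsub n U (hn hU) hxU
      · intro x hx
        obtain ⟨n, hn, hnK⟩ := (hcatch {x} (by simpa using hx)).exists_notMem_finite hK
        exact ⟨_, ⟨F n, Or.inl ⟨n, hnK, rfl⟩, rfl⟩, hn (by simp)⟩
    · rintro ⟨ℱ, hℱ, hX⟩
      rcases hmem ℱ hℱ with ⟨n, hn, rfl⟩ | ⟨n, hn, U, hU, rfl⟩
      · exact hn hX.symm
      · rw [sUnion_singleton] at hX
        exact (hop n U hU).2 hX.symm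
    · intro A hA
      obtain ⟨n, hn, hnK⟩ := (hcatch A hA).exists_notMem_finite hK
      exact ⟨_, ⟨F n, Or.inl ⟨n, hnK, rfl⟩, rfl⟩, hn⟩

end Pool.Agent.TH579.Ogp
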